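import Pool.Agent.Lib.MP_a3e05c_co.RT.Fin
import Pool.Agent.Lib.MP_a3e05c_co.KL.PDefs
import Pool.Agent.Lib.MP_a3e05c_co.NCS.Chain

/-!
# EULER, block RT: the lower bound in the common notation
-/

set_option autoImplicit false

open Real MeasureTheory Finset

namespace MP_a3e05c_co.RT

private theorem Final_hd (n : ℕ) (e : {p : Fin n × Fin n // p.1 < p.2}) (b : Bool) :
    KL.hdK n e b = hdK n e (!b) := by
  cases b <;> simp [KL.hdK, hdK]

private theorem Final_sg (n : ℕ) (ω : {p : Fin n × Fin n // p.1 < p.2} → Bool) (v : Fin n)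
    (e : {p : Fin n × Fin n // p.1 < p.2}) :
    KL.sg (KL.hdK n) ω v e = KL.sg (hdK n) (fun e => !(ω e)) v e := by
  unfold KL.sg
  rw [Final_hd, Final_hd]

theorem RT_eq (n : ℕ) : KL.RT n = RTn n := by
  unfold KL.RT RTn
  refine Finset.card_bij' (fun ω _ => fun e => !(ω e)) (fun ω _ => fun e => !(ω e)) ?_ ?_ ?_ ?_
  · intro ω hω
    rw [KL.mem_Om] at hω ⊢
    intro v hv
    have h := hω v hv
    unfold KL.Bal at h ⊢
    rw [← h]
    exact Finset.sum_congr rfl fun e _ => (Final_sg n ω v e).symm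
  · intro ω hω
    rw [KL.mem_Om] at hω ⊢
    intro v hv
    have h := hω v hv
    unfold KL.Bal at h ⊢
    rw [← h]
    refine Finset.sum_congr rfl fun e _ => ?_
    rw [Final_sg]
    simp
  · intro ω _
    funext e
    simp
  · intro ω _
    funext e
    simp

theorem PK_eq (n : ℕ) : KL.PK n = P n := by
  unfold KL.PK P
  rw [RT_eq]

theorem main_eq {n : ℕ} (hn : 1 ≤ n) : main n = NCS.mainR n := by
  have h1 : (0 : ℝ) < n := by exact_mod_cast hn
  have hpi := Real.pi_pos
  have h2 : log (2 / (π * n)) = -log (π * n / 2) := by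
    rw [← Real.log_inv]
    congr 1
    field_simp
  unfold main NCS.mainR
  rw [h2]
  ring

/-- **Lower bound for the number of regular tournaments**, common notation. -/
theorem PK_low (n : ℕ) (hn : Odd n) (h : 23 ≤ n) : exp (NCS.mainR n) ≤ KL.PK n := by
  rw [PK_eq, ← main_eq (by omega)]
  exact P_ge hn h

end MP_a3e05c_co.RT
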