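import Pool.Agent.Lib.MP_a3e05c_co.RT.Final

/-!
# EULER, block RT: the lower bound with a term of order `1 / n`
-/

set_option autoImplicit false

open Real MeasureTheory Finset

namespace MP_a3e05c_co.RT

private theorem Low2_pow (m : ℕ) (hm : 12 ≤ m) :
    (2 * ((m : ℝ) + 1) - 2.8) * ((m : ℝ) + 1) * (400 / 761 : ℝ) ^ (m + 1) ≤ 0.0706 := by
  induction m, hm using Nat.le_induction with
  | base => norm_num
  | succ k hk ih =>
    have hk' : (12 : ℝ) ≤ k := by exact_mod_cast hk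
    have hp : (0 : ℝ) < (400 / 761 : ℝ) ^ (k + 1) := by positivity
    refine le_trans ?_ ih
    rw [pow_succ (400 / 761 : ℝ) (k + 1)]
    push_cast
    have key : (2 * ((k : ℝ) + 1 + 1) - 2.8) * ((k : ℝ) + 1 + 1) * (400 / 761) ≤
        (2 * ((k : ℝ) + 1) - 2.8) * ((k : ℝ) + 1) := by nlinarith
    calc (2 * ((k : ℝ) + 1 + 1) - 2.8) * ((k : ℝ) + 1 + 1) *
          ((400 / 761 : ℝ) ^ (k + 1) * (400 / 761))
        = ((2 * ((k : ℝ) + 1 + 1) - 2.8) * ((k : ℝ) + 1 + 1) * (400 / 761)) *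
          (400 / 761 : ℝ) ^ (k + 1) := by ring
      _ ≤ ((2 * ((k : ℝ) + 1) - 2.8) * ((k : ℝ) + 1)) * (400 / 761 : ℝ) ^ (k + 1) :=
          mul_le_mul_of_nonneg_right key hp.le

private theorem Low2_cos_pos : 0 < cos aa := by
  unfold aa; exact cos_arctan_pos _

private theorem Low2_cos_sq : cos aa ^ 2 = 400 / 761 := by
  unfold aa; rw [cos_sq_arctan]; norm_num

private theorem Low2_sin : sin aa = 19 / 20 * cos aa := by
  unfold aa
  rw [sin_arctan, cos_arctan]; ring

private theorem Low2_delta (m : ℕ) :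
    2 * cos aa ^ (2 * m + 3) / ((2 * m + 3) * sin aa) =
      40 / 19 * (400 / 761 : ℝ) ^ (m + 1) / (2 * m + 3) := by
  have hc := Low2_cos_pos
  have h1 : cos aa ^ (2 * m + 3) = (400 / 761 : ℝ) ^ (m + 1) * cos aa := by
    rw [← Low2_cos_sq, ← pow_mul, ← pow_succ]
    congr 1
  have h2 : (2 * (m : ℝ) + 3) ≠ 0 := by positivity
  rw [h1, Low2_sin]
  field_simp
  ring

theorem log_mo_ge2 {m : ℕ} (hm : 12 ≤ m) {n : ℕ} (hn : n = 2 * m + 1) :
    (n : ℝ) * (log π - log (π * (n + 1) / 2) / 2) - (n : ℝ) / (4 * (n + 1)) - 1 / (40 * n) ≤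
      (n : ℝ) * log (mo n 0) := by
  have hm' : (12 : ℝ) ≤ m := by exact_mod_cast hm
  have hnr : (n : ℝ) = 2 * m + 1 := by rw [hn]; push_cast; ring
  have hb := cb_ge (k := m + 1) (by omega)
  have hz := mo_zero_ge m
  rw [← hn, Low2_delta] at hz
  push_cast at hb
  set k : ℝ := (m : ℝ) + 1 with hk
  have hk12 : (13 : ℝ) ≤ k := by rw [hk]; linarith
  have hk0 : 0 < k := by linarith
  have hpi := pi_gt_d2
  have hpi0 := pi_pos
  set B : ℝ := π * (exp (-(1 / (8 * k))) / √(π * k)) with hB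
  have hsq0 : 0 < √(π * k) := Real.sqrt_pos.mpr (by positivity)
  have hB0 : 0 < B := by rw [hB]; positivity
  have hX : (40.82 : ℝ) ≤ π * k := by nlinarith
  have hs : √(π * k) ≤ 0.157 * (π * k) := by
    apply Real.sqrt_le_iff.mpr
    constructor
    · positivity
    · nlinarith
  have hE : (103 / 104 : ℝ) ≤ exp (-(1 / (8 * k))) := by
    have h1 : 1 / (8 * k) ≤ 1 / 104 := by
      apply one_div_le_one_div_of_le (by norm_num)
      linarith
    have h2 := add_one_le_exp (-(1 / (8 * k)))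
    linarith
  have hBlow : (103 / 104) / (0.157 * k) ≤ B := by
    rw [div_le_iff₀ (by positivity), hB]
    have h1 : π * (exp (-(1 / (8 * k))) / √(π * k)) * (0.157 * k) =
        exp (-(1 / (8 * k))) * ((0.157 * (π * k)) / √(π * k)) := by ring
    rw [h1]
    have h2 : 1 ≤ (0.157 * (π * k)) / √(π * k) := by
      rw [le_div_iff₀ hsq0]; linarith
    nlinarith [exp_pos (-(1 / (8 * k)))]
  have hn25 : (25 : ℝ) ≤ n := by rw [hnr]; linarith
  have hn0 : (0 : ℝ) < n := by linarith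
  -- the error term
  have hδ : 40 / 19 * (400 / 761 : ℝ) ^ (m + 1) / (2 * m + 3) ≤ B * (1 / (40 * n ^ 2 + 1)) := by
    have hq := Low2_pow m hm
    rw [← hk] at hq
    have hqp : (0 : ℝ) < (400 / 761 : ℝ) ^ (m + 1) := by positivity
    have h1 : (103 / 104) / (0.157 * k) * (1 / (40 * (n : ℝ) ^ 2 + 1)) ≤
        B * (1 / (40 * n ^ 2 + 1)) := by
      apply mul_le_mul_of_nonneg_right hBlow; positivity
    refine le_trans ?_ h1
    have h2 : (103 / 104) / (0.157 * k) * (1 / (40 * (n : ℝ) ^ 2 + 1)) =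
        (103 / 104) / ((0.157 * k) * (40 * (n : ℝ) ^ 2 + 1)) := by
      field_simp
    rw [h2, div_le_div_iff₀ (by positivity) (by positivity)]
    have h3 : 40 * (n : ℝ) ^ 2 + 1 ≤ 40 * ((2 * k - 2.8) * (2 * (m : ℝ) + 3)) := by
      rw [hnr, hk]; nlinarith
    have h4 : (0 : ℝ) < 2 * (m : ℝ) + 3 := by positivity
    calc 40 / 19 * (400 / 761 : ℝ) ^ (m + 1) * (0.157 * k * (40 * (n : ℝ) ^ 2 + 1))
        ≤ 40 / 19 * (400 / 761 : ℝ) ^ (m + 1) *
          (0.157 * k * (40 * ((2 * k - 2.8) * (2 * (m : ℝ) + 3)))) := by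
          apply mul_le_mul_of_nonneg_left _ (by positivity)
          apply mul_le_mul_of_nonneg_left h3 (by positivity)
      _ = (40 / 19 * 0.157 * 40 * ((2 * k - 2.8) * k * (400 / 761 : ℝ) ^ (m + 1))) *
          (2 * (m : ℝ) + 3) := by ring
      _ ≤ 103 / 104 * (2 * (m : ℝ) + 3) := by
          apply mul_le_mul_of_nonneg_right _ h4.le
          nlinarith
  have hmain : B * (1 - 1 / (40 * (n : ℝ) ^ 2 + 1)) ≤ mo n 0 := by
    have h1 : B ≤ π * KL.bb (m + 1) := by
      rw [hB]; exact mul_le_mul_of_nonneg_left hb hpi0.le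
    have h2 : B * (1 - 1 / (40 * (n : ℝ) ^ 2 + 1)) =
        B - B * (1 / (40 * (n : ℝ) ^ 2 + 1)) := by ring
    rw [h2]; linarith
  have hτ : 1 - 1 / (40 * (n : ℝ) ^ 2 + 1) = (40 * (n : ℝ) ^ 2) / (40 * (n : ℝ) ^ 2 + 1) := by
    field_simp; ring
  have hτ0 : 0 < 1 - 1 / (40 * (n : ℝ) ^ 2 + 1) := by rw [hτ]; positivity
  have hlog1 : log (B * (1 - 1 / (40 * (n : ℝ) ^ 2 + 1))) ≤ log (mo n 0) :=
    log_le_log (by positivity) hmain
  rw [log_mul hB0.ne' hτ0.ne'] at hlog1
  have hlog2 : -(1 / (40 * (n : ℝ) ^ 2)) ≤ log (1 - 1 / (40 * (n : ℝ) ^ 2 + 1)) := by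
    have := one_sub_inv_le_log_of_pos hτ0
    have h3 : 1 - (1 - 1 / (40 * (n : ℝ) ^ 2 + 1))⁻¹ = -(1 / (40 * (n : ℝ) ^ 2)) := by
      rw [hτ]; field_simp; ring
    rw [h3] at this; exact this
  have hlogB : log B = log π - log (π * k) / 2 - 1 / (8 * k) := by
    rw [hB, log_mul hpi0.ne' (by positivity), log_div (exp_pos _).ne' hsq0.ne', log_exp,
      log_sqrt (by positivity)]
    ring
  have hpk : π * ((n : ℝ) + 1) / 2 = π * k := by rw [hnr, hk]; ring
  have h8k : 4 * ((n : ℝ) + 1) = 8 * k := by rw [hnr, hk]; ring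
  rw [hpk, h8k]
  have hfin : log π - log (π * k) / 2 - 1 / (8 * k) - 1 / (40 * (n : ℝ) ^ 2) ≤ log (mo n 0) := by
    linarith
  have := mul_le_mul_of_nonneg_left hfin hn0.le
  refine le_trans (le_of_eq ?_) this
  field_simp

private theorem Low2_rat {x : ℝ} (hx : 25 ≤ x) :
    0 ≤ 1 / (2 * x) + 1 / (4 * (x + 1)) - 1 / (6 * x ^ 2) - 1 / (2 * (x - 2)) -
      9 * (x - 1) / (8 * x * (x - 2) ^ 2) -
      225 * (x - 1) / (2 * x * (x - 2) ^ 2 * (x - 4) ^ 2) - 1 / (40 * x) - 1 / (500 * x) -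
      99 / (1000 * x) := by
  obtain ⟨t, ht, rfl⟩ : ∃ t : ℝ, 0 ≤ t ∧ x = t + 25 := ⟨x - 25, by linarith, by ring⟩
  have e2 : t + 25 - 2 = t + 23 := by ring
  have e4 : t + 25 - 4 = t + 21 := by ring
  have e1 : t + 25 - 1 = t + 24 := by ring
  have e3 : t + 25 + 1 = t + 26 := by ring
  rw [e1, e2, e3, e4]
  have h1 : (0 : ℝ) < t + 25 := by linarith
  have h2 : (0 : ℝ) < t + 23 := by linarith
  have h3 : (0 : ℝ) < t + 21 := by linarith
  have h4 : (0 : ℝ) < t + 26 := by linarith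
  have key : 1 / (2 * (t + 25)) + 1 / (4 * (t + 26)) - 1 / (6 * (t + 25) ^ 2) -
      1 / (2 * (t + 23)) - 9 * (t + 24) / (8 * (t + 25) * (t + 23) ^ 2) -
      225 * (t + 24) / (2 * (t + 25) * (t + 23) ^ 2 * (t + 21) ^ 2) - 1 / (40 * (t + 25)) -
      1 / (500 * (t + 25)) - 99 / (1000 * (t + 25)) =
      (4932363 / 20 * t ^ 0 + 261149509 / 250 * t ^ 1 + 621924371 / 3000 * t ^ 2 + 16942419 / 1000 * t ^ 3 + 140417 / 200 * t ^ 4 + 44083 / 3000 * t ^ 5 + 31 / 250 * t ^ 6) / ((t + 25) ^ 2 * (t + 26) * (t + 23) ^ 2 * (t + 21) ^ 2) := by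
    field_simp
    ring
  rw [key]
  positivity

private theorem Low2_log {y : ℝ} (hy : 0 ≤ y) : log (1 + y) ≤ y - y ^ 2 / 2 + y ^ 3 / 3 := by
  let f : ℝ → ℝ := fun y => y - y ^ 2 / 2 + y ^ 3 / 3 - log (1 + y)
  have hd : ∀ z : ℝ, 0 < z → HasDerivAt f (1 - z + z ^ 2 - 1 / (1 + z)) z := by
    intro z hz
    have h1 : HasDerivAt (fun y : ℝ => log (1 + y)) (1 / (1 + z)) z := by
      have h2 : HasDerivAt (fun y : ℝ => 1 + y) 1 z := by
        simpa using (hasDerivAt_id z).const_add 1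
      have h3 : (1 + z) ≠ 0 := (by linarith : (0 : ℝ) < 1 + z).ne'
      exact h2.log h3
    have h2 : HasDerivAt (fun y : ℝ => y - y ^ 2 / 2 + y ^ 3 / 3) (1 - z + z ^ 2) z := by
      have h3 : HasDerivAt (fun y : ℝ => y ^ 2 / 2) z z := by
        have := (hasDerivAt_pow 2 z).div_const 2
        simpa using this
      have h4 : HasDerivAt (fun y : ℝ => y ^ 3 / 3) (z ^ 2) z := by
        have := (hasDerivAt_pow 3 z).div_const 3
        simpa using this
      exact ((hasDerivAt_id z).sub h3).add h4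
    exact h2.sub h1
  have hc : ContinuousOn f (Set.Ici 0) := by
    intro z hz
    have hz0 : (0 : ℝ) ≤ z := hz
    have h1 : ContinuousAt (fun y : ℝ => log (1 + y)) z := by
      apply ContinuousAt.log
      · fun_prop
      · linarith
    have h2 : ContinuousAt (fun y : ℝ => y - y ^ 2 / 2 + y ^ 3 / 3) z := by fun_prop
    exact (h2.sub h1).continuousWithinAt
  have hm : MonotoneOn f (Set.Ici 0) := by
    refine monotoneOn_of_deriv_nonneg (convex_Ici 0) hc ?_ ?_
    · intro z hz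
      rw [interior_Ici] at hz
      exact (hd z hz).differentiableAt.differentiableWithinAt
    · intro z hz
      rw [interior_Ici] at hz
      have hz0 : (0 : ℝ) < z := hz
      rw [(hd z hz0).deriv]
      have h1 : 1 - z + z ^ 2 - 1 / (1 + z) = z ^ 3 / (1 + z) := by
        field_simp
        ring
      rw [h1]
      positivity
  have h := hm (Set.mem_Ici.2 le_rfl) (Set.mem_Ici.2 hy) hy
  have h0 : f 0 = 0 := by simp [f]
  rw [h0] at h
  have h2 : 0 ≤ y - y ^ 2 / 2 + y ^ 3 / 3 - log (1 + y) := h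
  linarith

theorem alg_final2 {n : ℕ} (hn : 25 ≤ n) :
    main n + 99 / (1000 * n) ≤
      log n - log (2 * π) / 2 +
      ((n : ℝ) * (log π - log (π * (n + 1) / 2) / 2) - (n : ℝ) / (4 * (n + 1)) - 1 / (40 * n)) +
      (1 / 2 - ((n : ℝ) - 1) / (4 * n) - 1 / (2 * (n - 2)) - 9 * (n - 1) / (8 * n * (n - 2) ^ 2) -
        225 * (n - 1) / (2 * n * (n - 2) ^ 2 * (n - 4) ^ 2) - 1 / (500 * n)) -
      ((n : ℝ) - 1) * log π := by
  have hx : (25 : ℝ) ≤ n := by exact_mod_cast hn
  unfold main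
  generalize (n : ℝ) = x at hx ⊢
  have hx0 : 0 < x := by linarith
  have l1 : log (2 / (π * x)) = log 2 - (log π + log x) := by
    rw [log_div (by norm_num) (by positivity), log_mul pi_ne_zero hx0.ne']
  have l2 : log (2 * π) = log 2 + log π := log_mul (by norm_num) pi_ne_zero
  have l3 : log (π * (x + 1) / 2) = log π + log (x + 1) - log 2 := by
    rw [log_div (by positivity) (by norm_num), log_mul pi_ne_zero (by linarith)]
  have l4 : log (x + 1) = log x + log (1 + 1 / x) := by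
    rw [← log_mul hx0.ne' (by positivity)]
    congr 1
    field_simp
  have h5 := Low2_log (y := 1 / x) (by positivity)
  have h6 : x / 2 * log (1 + 1 / x) ≤ 1 / 2 - 1 / (4 * x) + 1 / (6 * x ^ 2) := by
    calc x / 2 * log (1 + 1 / x) ≤ x / 2 * (1 / x - (1 / x) ^ 2 / 2 + (1 / x) ^ 3 / 3) :=
          mul_le_mul_of_nonneg_left h5 (by positivity)
      _ = 1 / 2 - 1 / (4 * x) + 1 / (6 * x ^ 2) := by
          field_simp
          ring
  have h7 := Low2_rat hx
  have h8 : x / (4 * (x + 1)) = 1 / 4 - 1 / (4 * (x + 1)) := by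
    field_simp
    ring
  have h9 : (x - 1) / (4 * x) = 1 / 4 - 1 / (4 * x) := by
    field_simp
  rw [l1, l2, l3, l4, h8, h9]
  have e1 : 1 / (2 * x) = 1 / (4 * x) + 1 / (4 * x) := by
    field_simp
    ring
  have e2 : x * (log π - (log π + (log x + log (1 + 1 / x)) - log 2) / 2) =
      x * (log π - log x + log 2) / 2 - x / 2 * log (1 + 1 / x) := by ring
  rw [e2]
  rw [e1] at h7
  have e3 : (x - 1) / 2 * (log 2 - (log π + log x)) =
      x * (log 2 - log π - log x) / 2 - (log 2 - log π - log x) / 2 := by ring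
  have e4 : x * (log π - log x + log 2) / 2 - (x - 1) * log π =
      x * (log 2 - log π - log x) / 2 + log π := by ring
  rw [e3]
  linarith


/-- the part of the arc, relative to `exp (main n)` -/
theorem arc_final2 {n : ℕ} (hn : Odd n) (h : 25 ≤ n) :
    exp (main n + 99 / (1000 * n)) ≤ (∫ θ in D (n - 1), F θ) / π ^ (n - 1) := by
  obtain ⟨m, hm⟩ := hn
  have hm12 : 12 ≤ m := by omega
  have hpi : 0 < π := pi_pos
  have hn0 : (0 : ℝ) < n := by
    have : 0 < n := by omega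
    exact_mod_cast this
  have hmo := mo_pos n
  rw [le_div_iff₀ (by positivity)]
  have hL : (n : ℝ) / √(2 * π) * (mo n 0 ^ n * exp (EX n)) ≤ ∫ θ in D (n - 1), F θ := by
    obtain ⟨N, rfl⟩ : ∃ N, n = N + 1 := ⟨n - 1, by omega⟩
    have h1 := arc_ge N
    have h2 := jensen (N + 1) (by omega)
    have h3 : (0 : ℝ) ≤ ((N : ℝ) + 1) / √(2 * π) := by positivity
    have h4 := mul_le_mul_of_nonneg_left h2 h3
    rw [Nat.add_sub_cancel]
    push_cast
    exact h4.trans h1
  refine le_trans ?_ hL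
  have hs : (0 : ℝ) < √(2 * π) := by positivity
  have hR : (n : ℝ) / √(2 * π) * (mo n 0 ^ n * exp (EX n)) =
      exp (log n - log (2 * π) / 2 + ((n : ℝ) * log (mo n 0) + EX n)) := by
    have e1 : exp (log n) = (n : ℝ) := exp_log hn0
    have e2 : exp (log (2 * π) / 2) = √(2 * π) := by
      rw [← log_sqrt (by positivity), exp_log hs]
    have e3 : exp ((n : ℝ) * log (mo n 0)) = mo n 0 ^ n := by
      rw [← log_pow, exp_log (by positivity)]
    rw [exp_add, exp_sub, exp_add, e1, e2, e3]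
  have hP : π ^ (n - 1) = exp (((n : ℝ) - 1) * log π) := by
    have e : ((n - 1 : ℕ) : ℝ) = (n : ℝ) - 1 := by
      rw [Nat.cast_sub (by omega)]
      simp
    rw [← e, ← log_pow, exp_log (by positivity)]
  rw [hR, hP, ← exp_add, exp_le_exp]
  have h1 := log_mo_ge2 hm12 hm
  have h2 := EX_ge (m := m) (by omega) hm
  have h3 := alg_final2 (n := n) h
  linarith

private theorem Low2_exp_half : exp (1 / 2 : ℝ) ≤ 33 / 20 := by
  have h1 : exp (1 / 2 : ℝ) ^ 2 = exp 1 := by
    rw [← exp_nat_mul]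
    norm_num
  have h2 := exp_one_lt_d9
  have h3 := exp_pos (1 / 2 : ℝ)
  nlinarith

private theorem Low2_pow2 (k : ℕ) : (3 / 5 : ℝ) ^ k * ((k : ℝ) + 25) ≤ 25 := by
  induction k with
  | zero => norm_num
  | succ k ih =>
    have h0 : (0 : ℝ) < (3 / 5 : ℝ) ^ k := by positivity
    have hk : (0 : ℝ) ≤ (k : ℝ) := Nat.cast_nonneg k
    calc (3 / 5 : ℝ) ^ (k + 1) * (((k + 1 : ℕ) : ℝ) + 25)
        = (3 / 5 : ℝ) ^ k * (3 / 5 * ((k : ℝ) + 26)) := by
          push_cast
          ring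
      _ ≤ (3 / 5 : ℝ) ^ k * ((k : ℝ) + 25) := by
          apply mul_le_mul_of_nonneg_left _ h0.le
          linarith
      _ ≤ 25 := ih

theorem out_final2 {n : ℕ} (h : 25 ≤ n) :
    (∫ θ in cube (Fin (n - 1)) \ D (n - 1), |F θ|) / π ^ (n - 1) ≤
      exp (main n) * (83 / (10000 * n)) := by
  obtain ⟨k, rfl⟩ : ∃ k, n = k + 25 := ⟨n - 25, by omega⟩
  have hpi : 0 < π := pi_pos
  rw [div_le_iff₀ (by positivity)]
  have h1 := out_le (K := k + 22) (by omega)
  have h2 := M_le_of_large (m := k + 22) (by omega)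
  have h3 := qq_small (K := k + 22) (by omega)
  have hcf : 0 ≤ cf (k + 22) := by
    unfold cf kap
    positivity
  have e1 : k + 25 - 1 = k + 22 + 2 := by omega
  rw [e1]
  refine h1.trans ?_
  rw [mul_comm (π ^ (k + 22 + 2))]
  refine mul_le_mul_of_nonneg_right ?_ (by positivity)
  have h4 : ((((k + 22 : ℕ) : ℝ) + 2) * (((k + 22 : ℕ) : ℝ) + 1) / 8 * kap (k + 22)) *
      M (k + 22) = cf (k + 22) * M (k + 22) := rfl
  rw [h4]
  have h5 : cf (k + 22) * M (k + 22) ≤
      81 / 80 * exp (1 / 2) * qq (k + 22) * exp (main (k + 25)) := by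
    calc cf (k + 22) * M (k + 22)
        ≤ cf (k + 22) * (81 / 80 * exp (main (k + 22) + 1 / 2)) :=
          mul_le_mul_of_nonneg_left h2 hcf
      _ = 81 / 80 * exp (1 / 2) * qq (k + 22) * exp (main (k + 25)) := by
          have e2 : exp (main (k + 22) + 1 / 2) = exp (1 / 2) *
              (exp (main (k + 22) - main (k + 22 + 3)) * exp (main (k + 25))) := by
            rw [← exp_add, ← exp_add]
            congr 1
            have e3 : k + 22 + 3 = k + 25 := by omega
            rw [e3]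
            ring
          rw [e2]
          unfold qq
          ring
  refine h5.trans ?_
  rw [mul_comm (exp (main (k + 25)))]
  refine mul_le_mul_of_nonneg_right ?_ (exp_pos _).le
  have e4 : k + 22 - 17 = k + 5 := by omega
  rw [e4] at h3
  have h6 := Low2_exp_half
  have h7 := Low2_pow2 k
  have hk : (0 : ℝ) ≤ (k : ℝ) := Nat.cast_nonneg k
  have h0 : (0 : ℝ) < (3 / 5 : ℝ) ^ k := by positivity
  have he := exp_pos (1 / 2 : ℝ)
  have h8 : 81 / 80 * exp (1 / 2) * qq (k + 22) ≤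
      81 / 80 * (33 / 20) * ((1 / 400) * (3 / 5) ^ (k + 5)) := by
    calc 81 / 80 * exp (1 / 2) * qq (k + 22)
        ≤ 81 / 80 * exp (1 / 2) * ((1 / 400) * (3 / 5) ^ (k + 5)) :=
          mul_le_mul_of_nonneg_left h3 (by positivity)
      _ ≤ _ := by
          apply mul_le_mul_of_nonneg_right _ (by positivity)
          linarith
  refine h8.trans ?_
  rw [le_div_iff₀ (by positivity)]
  push_cast
  rw [pow_add]
  nlinarith

/-- **Lower bound for the number of regular tournaments**, with a term of order `1 / n`. -/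
theorem P_ge2 {n : ℕ} (hn : Odd n) (h : 25 ≤ n) : exp (main n + 9 / (100 * n)) ≤ P n := by
  have hpi : 0 < π := pi_pos
  have hn25 : (25 : ℝ) ≤ n := by exact_mod_cast h
  have hn0 : (0 : ℝ) < n := by linarith
  have hA := arc_final2 hn h
  have hB := out_final2 h
  have hE : Even (n - 1) := by
    obtain ⟨m, hm⟩ := hn
    exact ⟨m, by omega⟩
  have hP := P_eq hE
  have e1 : n - 1 + 1 = n := by omega
  rw [e1] at hP
  have hint : IntegrableOn (F (N := n - 1)) (cube (Fin (n - 1))) :=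
    integrableOn_cube continuous_F.measurable (C := 1) abs_F_le
  have hD : D (n - 1) ⊆ cube (Fin (n - 1)) := fun θ hθ => hθ.1
  have hsplit : ∫ θ in cube (Fin (n - 1)), F θ =
      (∫ θ in D (n - 1), F θ) + ∫ θ in cube (Fin (n - 1)) \ D (n - 1), F θ := by
    have h1 := setIntegral_union (μ := volume) (f := F (N := n - 1))
      (s := D (n - 1)) (t := cube (Fin (n - 1)) \ D (n - 1)) Set.disjoint_sdiff_right
      (meas_cube.diff (meas_D _)) (hint.mono_set hD) (hint.mono_set Set.sdiff_subset)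
    rw [Set.union_sdiff_cancel hD] at h1
    exact h1
  have habs : -(∫ θ in cube (Fin (n - 1)) \ D (n - 1), |F θ|) ≤
      ∫ θ in cube (Fin (n - 1)) \ D (n - 1), F θ := by
    have h1 : |∫ θ in cube (Fin (n - 1)) \ D (n - 1), F θ| ≤
        ∫ θ in cube (Fin (n - 1)) \ D (n - 1), |F θ| := abs_integral_le_integral_abs
    linarith [neg_abs_le (∫ θ in cube (Fin (n - 1)) \ D (n - 1), F θ)]
  have hge : (∫ θ in D (n - 1), F θ) / π ^ (n - 1) -
      (∫ θ in cube (Fin (n - 1)) \ D (n - 1), |F θ|) / π ^ (n - 1) ≤ P n := by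
    rw [hP, hsplit, ← sub_div]
    apply div_le_div_of_nonneg_right _ (by positivity)
    linarith
  set y : ℝ := 1 / (n : ℝ) with hy
  have hy0 : 0 < y := by positivity
  have hy1 : y ≤ 1 / 25 := by
    rw [hy]
    exact one_div_le_one_div_of_le (by norm_num) hn25
  have r1 : 99 / (1000 * (n : ℝ)) = 99 / 1000 * y := by
    rw [hy]
    field_simp
  have r2 : 83 / (10000 * (n : ℝ)) = 83 / 10000 * y := by
    rw [hy]
    field_simp
  have r3 : 9 / (100 * (n : ℝ)) = 9 / 100 * y := by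
    rw [hy]
    field_simp
  rw [r1] at hA
  rw [r2] at hB
  rw [r3]
  have hexp : exp (main n) * (1 + 99 / 1000 * y) ≤ exp (main n + 99 / 1000 * y) := by
    rw [exp_add]
    apply mul_le_mul_of_nonneg_left _ (exp_pos _).le
    linarith [add_one_le_exp (99 / 1000 * y)]
  have hup : exp (9 / 100 * y) ≤ 1 + 99 / 1000 * y - 83 / 10000 * y := by
    have h1 : exp (9 / 100 * y) ≤ 1 / (1 - 9 / 100 * y) := by
      have h2 := add_one_le_exp (-(9 / 100 * y))
      have h3 : exp (9 / 100 * y) * exp (-(9 / 100 * y)) = 1 := by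
        rw [← exp_add]
        simp
      rw [le_div_iff₀ (by linarith)]
      nlinarith [exp_pos (9 / 100 * y)]
    refine h1.trans ?_
    rw [div_le_iff₀ (by linarith)]
    nlinarith
  have hfin : exp (main n + 9 / 100 * y) ≤
      exp (main n) * (1 + 99 / 1000 * y - 83 / 10000 * y) := by
    rw [exp_add]
    exact mul_le_mul_of_nonneg_left hup (exp_pos _).le
  have : exp (main n) * (1 + 99 / 1000 * y - 83 / 10000 * y) =
      exp (main n) * (1 + 99 / 1000 * y) - exp (main n) * (83 / 10000 * y) := by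
    ring
  linarith

/-- **Lower bound for the number of regular tournaments**, common notation. -/
theorem PK_low2 (n : ℕ) (hn : Odd n) (h : 25 ≤ n) :
    exp (NCS.mainR n + 9 / (100 * n)) ≤ KL.PK n := by
  rw [PK_eq, ← main_eq (by omega)]
  exact P_ge2 hn h

end MP_a3e05c_co.RT
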