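import Pool.Agent.Lib.MP_a3e05c_co.RT.Defs

/-!
# EULER, block RT: algebra of the product `W`
-/

set_option autoImplicit false

open Real MeasureTheory Finset

namespace MP_a3e05c_co.RT

theorem continuous_W {N : ℕ} : Continuous (W (N := N)) := by
  unfold W
  fun_prop

theorem continuous_F {N : ℕ} : Continuous (F (N := N)) := by
  have h := continuous_W (N := N)
  unfold F
  fun_prop

theorem continuous_ins {N : ℕ} (w : Fin (N + 1)) (t : ℝ) : Continuous (ins w t) := by
  refine continuous_pi (fun j => ?_)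
  unfold ins
  refine Fin.succAboveCases (α := fun j =>
    Continuous fun θ : Fin N → ℝ => Fin.insertNth (α := fun _ => ℝ) w t θ j) w ?_ (fun i => ?_) j
  · simp only [Fin.insertNth_apply_same]
    exact continuous_const
  · simp only [Fin.insertNth_apply_succAbove]
    exact continuous_apply i

theorem abs_W_le {N : ℕ} (θ : Fin N → ℝ) : |W θ| ≤ 1 := by
  unfold W
  rw [Finset.abs_prod]
  exact Finset.prod_le_one (fun _ _ => abs_nonneg _) (fun _ _ => abs_cos_le_one _)

theorem abs_F_le {N : ℕ} (θ : Fin N → ℝ) : |F θ| ≤ 1 := by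
  unfold F
  rw [abs_mul, Finset.abs_prod]
  exact mul_le_one₀ (Finset.prod_le_one (fun _ _ => abs_nonneg _) (fun _ _ => abs_cos_le_one _))
    (abs_nonneg _) (abs_W_le θ)

theorem W_shift {N : ℕ} (θ : Fin N → ℝ) (c : ℝ) : W (fun i => θ i + c) = W θ := by
  unfold W
  refine Finset.prod_congr rfl (fun p _ => ?_)
  rw [add_sub_add_right_eq_sub]

private theorem Alg_upd {N : ℕ} (θ : Fin N → ℝ) (i a b : Fin N) :
    |cos (Function.update θ i (θ i + π) a - Function.update θ i (θ i + π) b)| =
      |cos (θ a - θ b)| := by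
  by_cases ha : a = i
  · by_cases hb : b = i
    · subst ha
      subst hb
      simp
    · subst ha
      rw [Function.update_self, Function.update_of_ne hb,
        show θ a + π - θ b = (θ a - θ b) + π by ring, cos_add_pi, abs_neg]
  · by_cases hb : b = i
    · subst hb
      rw [Function.update_self, Function.update_of_ne ha,
        show θ a - (θ b + π) = (θ a - θ b) - π by ring, cos_sub_pi, abs_neg]
    · rw [Function.update_of_ne ha, Function.update_of_ne hb]

theorem abs_W_update {N : ℕ} (θ : Fin N → ℝ) (i : Fin N) :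
    |W (Function.update θ i (θ i + π))| = |W θ| := by
  unfold W
  rw [Finset.abs_prod, Finset.abs_prod]
  exact Finset.prod_congr rfl (fun p _ => Alg_upd θ i p.1 p.2)

private theorem Alg_perm {N : ℕ} (σ : Equiv.Perm (Fin N)) (g : Fin N → Fin N → ℝ)
    (hg : ∀ i j, g i j = g j i) :
    ∏ p ∈ prs N, g (σ p.1) (σ p.2) = ∏ p ∈ prs N, g p.1 p.2 := by
  refine Finset.prod_nbij'
    (fun p => if σ p.1 < σ p.2 then (σ p.1, σ p.2) else (σ p.2, σ p.1))
    (fun q => if σ.symm q.1 < σ.symm q.2 then (σ.symm q.1, σ.symm q.2)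
      else (σ.symm q.2, σ.symm q.1)) ?_ ?_ ?_ ?_ ?_
  · rintro ⟨a, b⟩ hp
    have hab : a < b := (Finset.mem_filter.1 hp).2
    refine Finset.mem_filter.2 ⟨Finset.mem_univ _, ?_⟩
    by_cases h : σ a < σ b
    · simp only [h, if_true]
    · simp only [h, if_false]
      exact lt_of_le_of_ne (not_lt.1 h) (fun he => hab.ne (σ.injective he).symm)
  · rintro ⟨a, b⟩ hp
    have hab : a < b := (Finset.mem_filter.1 hp).2
    refine Finset.mem_filter.2 ⟨Finset.mem_univ _, ?_⟩
    by_cases h : σ.symm a < σ.symm b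
    · simp only [h, if_true]
    · simp only [h, if_false]
      exact lt_of_le_of_ne (not_lt.1 h) (fun he => hab.ne (σ.symm.injective he).symm)
  · rintro ⟨a, b⟩ hp
    have hab : a < b := (Finset.mem_filter.1 hp).2
    by_cases h : σ a < σ b
    · simp only [h, if_true, Equiv.symm_apply_apply, hab]
    · simp only [h, if_false, Equiv.symm_apply_apply, not_lt.2 hab.le]
  · rintro ⟨a, b⟩ hp
    have hab : a < b := (Finset.mem_filter.1 hp).2
    by_cases h : σ.symm a < σ.symm b
    · simp only [h, if_true, Equiv.apply_symm_apply, hab]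
    · simp only [h, if_false, Equiv.apply_symm_apply, not_lt.2 hab.le]
  · rintro ⟨a, b⟩ hp
    by_cases h : σ a < σ b
    · simp only [h, if_true]
    · simp only [h, if_false]
      exact hg _ _

theorem W_perm {N : ℕ} (σ : Equiv.Perm (Fin N)) (θ : Fin N → ℝ) :
    W (fun i => θ (σ i)) = W θ := by
  unfold W
  refine Alg_perm σ (fun i j => cos (θ i - θ j)) (fun i j => ?_)
  rw [← cos_neg, neg_sub]

theorem F_perm {N : ℕ} (σ : Equiv.Perm (Fin N)) (θ : Fin N → ℝ) :
    F (fun i => θ (σ i)) = F θ := by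
  unfold F
  rw [W_perm, Equiv.prod_comp σ (fun i => cos (θ i))]

private theorem Alg_W_eq {N : ℕ} (θ : Fin N → ℝ) :
    W θ = ∏ i, ∏ j, if i < j then cos (θ i - θ j) else 1 := by
  unfold W prs
  rw [Finset.prod_filter, Fintype.prod_prod_type]

theorem W_ins {N : ℕ} (w : Fin (N + 1)) (t : ℝ) (θ : Fin N → ℝ) :
    W (ins w t θ) = (∏ i, cos (θ i - t)) * W θ := by
  rw [Alg_W_eq, Alg_W_eq, Fin.prod_univ_succAbove _ w, Fin.prod_univ_succAbove _ w]
  have h1 : ∀ i : Fin N, (∏ j : Fin (N + 1), if w.succAbove i < j then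
      cos (ins w t θ (w.succAbove i) - ins w t θ j) else 1) =
      (if w.succAbove i < w then cos (θ i - t) else 1) *
        ∏ j : Fin N, if i < j then cos (θ i - θ j) else 1 := by
    intro i
    rw [Fin.prod_univ_succAbove _ w]
    unfold ins
    simp only [Fin.insertNth_apply_same, Fin.insertNth_apply_succAbove,
      Fin.succAbove_lt_succAbove_iff]
  have h2 : ∀ j : Fin N, (if w < w.succAbove j then
      cos (ins w t θ w - ins w t θ (w.succAbove j)) else 1) =
      (if w < w.succAbove j then cos (θ j - t) else 1) := by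
    intro j
    unfold ins
    rw [Fin.insertNth_apply_same, Fin.insertNth_apply_succAbove, ← cos_neg, neg_sub]
  rw [Finset.prod_congr rfl (fun i _ => h1 i), Finset.prod_congr rfl (fun j _ => h2 j),
    Finset.prod_mul_distrib, if_neg (lt_irrefl w), one_mul, ← mul_assoc,
    ← Finset.prod_mul_distrib]
  congr 1
  refine Finset.prod_congr rfl (fun i _ => ?_)
  rcases lt_or_gt_of_ne (Fin.succAbove_ne w i) with h | h
  · rw [if_neg (not_lt.2 h.le), if_pos h, one_mul]
  · rw [if_pos h, if_neg (not_lt.2 h.le), mul_one]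

theorem F_eq_W {N : ℕ} (w : Fin (N + 1)) (θ : Fin N → ℝ) : W (ins w 0 θ) = F θ := by
  rw [W_ins]
  unfold F
  simp only [sub_zero]

/-- `F ≥ 0` on the arc. -/
theorem F_nonneg {N : ℕ} {θ : Fin N → ℝ} (h : θ ∈ D N) : 0 ≤ F θ := by
  unfold F W
  refine mul_nonneg (Finset.prod_nonneg (fun i _ => ?_)) (Finset.prod_nonneg (fun p _ => ?_))
  · have hi : θ i ∈ Set.Ioc (-(π / 2)) (π / 2) := h.1 i (Set.mem_univ i)
    exact cos_nonneg_of_mem_Icc ⟨hi.1.le, hi.2⟩
  · have hp := abs_lt.1 (h.2 p.1 p.2)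
    exact cos_nonneg_of_mem_Icc ⟨hp.1.le, hp.2.le⟩

end MP_a3e05c_co.RT
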