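import Pool.Agent.Lib.MP_a3e05c_co.RT.Defs

/-!
# EULER, block RT: integrals over cubes
-/

set_option autoImplicit false

open Real MeasureTheory Finset

namespace MP_a3e05c_co.RT

private theorem Cube_meas_I1 : MeasurableSet I1 := measurableSet_Ioc

private theorem Cube_mem {V : Type} (θ : V → ℝ) : θ ∈ cube V ↔ ∀ i, θ i ∈ I1 := by
  simp [cube, Set.mem_pi]

theorem meas_cube {V : Type} [Fintype V] : MeasurableSet (cube V) :=
  MeasurableSet.univ_pi fun _ => Cube_meas_I1

theorem vol_cube {V : Type} [Fintype V] :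
    volume (cube V) = ENNReal.ofReal (π ^ Fintype.card V) := by
  have h1 : volume (cube V) = ∏ _i : V, volume I1 := by
    rw [cube, volume_pi, Measure.pi_pi]
  have h2 : volume I1 = ENNReal.ofReal π := by
    rw [I1, Real.volume_Ioc]
    congr 1
    ring
  rw [h1, h2, prod_const, card_univ, ENNReal.ofReal_pow Real.pi_pos.le]

theorem integrableOn_cube {V : Type} [Fintype V] {h : (V → ℝ) → ℝ} (hm : Measurable h) {C : ℝ}
    (hC : ∀ θ, |h θ| ≤ C) : IntegrableOn h (cube V) := by
  have hfin : volume (cube V) ≠ ⊤ := by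
    rw [vol_cube]
    exact ENNReal.ofReal_ne_top
  refine Measure.integrableOn_of_bounded (M := C) hfin hm.aestronglyMeasurable ?_
  exact Filter.Eventually.of_forall fun θ => by
    rw [Real.norm_eq_abs]
    exact hC θ

/-- Fubini. -/
theorem cube_succ {N : ℕ} (w : Fin (N + 1)) {h : (Fin (N + 1) → ℝ) → ℝ}
    (hi : IntegrableOn h (cube (Fin (N + 1)))) :
    ∫ θ in cube (Fin (N + 1)), h θ = ∫ t in I1, ∫ θ in cube (Fin N), h (ins w t θ) := by
  have hem : MeasurePreserving
      ((MeasurableEquiv.piFinSuccAbove (fun _ : Fin (N + 1) => ℝ) w).symm) :=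
    (volume_preserving_piFinSuccAbove (fun _ : Fin (N + 1) => ℝ) w).symm _
  have hval : ∀ p : ℝ × (Fin N → ℝ),
      (MeasurableEquiv.piFinSuccAbove (fun _ : Fin (N + 1) => ℝ) w).symm p = ins w p.1 p.2 :=
    fun p => rfl
  have hpre : ((MeasurableEquiv.piFinSuccAbove (fun _ : Fin (N + 1) => ℝ) w).symm) ⁻¹'
      (cube (Fin (N + 1))) = I1 ×ˢ cube (Fin N) := by
    ext p
    rw [Set.mem_preimage, hval, Set.mem_prod, Cube_mem, Cube_mem, Fin.forall_iff_succAbove w]
    simp [ins]
  have h1 := hem.setIntegral_preimage_emb (MeasurableEquiv.measurableEmbedding _) h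
    (cube (Fin (N + 1)))
  rw [← h1, hpre, Measure.volume_eq_prod, setIntegral_prod]
  · rfl
  · have h2 := (hem.integrableOn_comp_preimage
      (MeasurableEquiv.measurableEmbedding _) (f := h) (s := cube (Fin (N + 1)))).2 hi
    rw [hpre, Measure.volume_eq_prod] at h2
    exact h2

theorem cube_perm {N : ℕ} (σ : Equiv.Perm (Fin N)) (h : (Fin N → ℝ) → ℝ) :
    ∫ θ in cube (Fin N), h (fun i => θ (σ i)) = ∫ θ in cube (Fin N), h θ := by
  have hem : MeasurePreserving
      ((MeasurableEquiv.piCongrLeft (fun _ : Fin N => ℝ) σ).symm) :=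
    (volume_measurePreserving_piCongrLeft (fun _ : Fin N => ℝ) σ).symm _
  have hval : ∀ θ : Fin N → ℝ,
      (MeasurableEquiv.piCongrLeft (fun _ : Fin N => ℝ) σ).symm θ = fun i => θ (σ i) :=
    fun θ => rfl
  have hpre : ((MeasurableEquiv.piCongrLeft (fun _ : Fin N => ℝ) σ).symm) ⁻¹'
      (cube (Fin N)) = cube (Fin N) := by
    ext θ
    rw [Set.mem_preimage, hval, Cube_mem, Cube_mem]
    constructor
    · intro H i
      have := H (σ.symm i)
      simpa using this
    · intro H i
      exact H (σ i)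
  have h1 := hem.setIntegral_preimage_emb (MeasurableEquiv.measurableEmbedding _) h
    (cube (Fin N))
  rw [hpre] at h1
  exact h1

end MP_a3e05c_co.RT
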