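import Pool.Agent.Lib.MP_a3e05c_co.RT.GaugeR
import Pool.Agent.Lib.MP_a3e05c_co.RT.Alg
import Pool.Agent.Lib.MP_a3e05c_co.RT.Cube

/-!
# EULER, block RT: Gaussian upper bound on the arc
-/

set_option autoImplicit false

open Real MeasureTheory Finset
open scoped ENNReal

namespace MP_a3e05c_co.RT

private theorem Gauss_anti : AntitoneOn (fun x : ℝ => exp (x ^ 2 / 2) * cos x)
    (Set.Icc 0 (π / 2)) := by
  refine antitoneOn_of_deriv_nonpos (convex_Icc _ _) ?_ ?_ ?_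
  · fun_prop
  · exact Differentiable.differentiableOn (by fun_prop)
  · intro x hx
    rw [interior_Icc] at hx
    have h1 : HasDerivAt (fun x : ℝ => exp (x ^ 2 / 2) * cos x)
        (exp (x ^ 2 / 2) * x * cos x + exp (x ^ 2 / 2) * (-sin x)) x := by
      have h2 : HasDerivAt (fun x : ℝ => x ^ 2 / 2) x x := by
        have h3 := (hasDerivAt_pow 2 x).div_const 2
        have h4 : (((2 : ℕ) : ℝ) * x ^ (2 - 1) / 2) = x := by
          norm_num
        rwa [h4] at h3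
      exact h2.exp.mul (hasDerivAt_cos x)
    rw [h1.deriv]
    have hc : 0 < cos x := cos_pos_of_mem_Ioo ⟨by linarith [hx.1, Real.pi_pos], hx.2⟩
    have h5 : x * cos x ≤ sin x := by
      have h6 := mul_le_mul_of_nonneg_right (le_tan hx.1.le hx.2) hc.le
      rwa [tan_mul_cos hc.ne'] at h6
    have h7 : exp (x ^ 2 / 2) * x * cos x + exp (x ^ 2 / 2) * (-sin x) =
        exp (x ^ 2 / 2) * (x * cos x - sin x) := by ring
    rw [h7]
    exact mul_nonpos_of_nonneg_of_nonpos (exp_pos _).le (by linarith)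

theorem cos_le_exp {x : ℝ} (h : |x| ≤ π / 2) : cos x ≤ exp (-(x ^ 2 / 2)) := by
  have h1 := Gauss_anti (Set.left_mem_Icc.2 (by positivity)) ⟨abs_nonneg x, h⟩ (abs_nonneg x)
  simp only [sq_abs, cos_abs] at h1
  norm_num at h1
  have h2 : exp (x ^ 2 / 2) * exp (-(x ^ 2 / 2)) = 1 := by
    rw [← exp_add, add_neg_cancel, exp_zero]
  exact le_of_mul_le_mul_left (h1.trans h2.ge) (exp_pos _)

private theorem Gauss_pairs {N : ℕ} (g : Fin N → Fin N → ℝ) :
    ∑ p ∈ prs N, g p.1 p.2 = ∑ i, ∑ j, if i < j then g i j else 0 := by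
  unfold prs
  rw [Finset.sum_filter, Fintype.sum_prod_type]

private theorem Gauss_ins {N : ℕ} (θ : Fin N → ℝ) :
    ∑ p ∈ prs (N + 1), (ins 0 0 θ p.1 - ins 0 0 θ p.2) ^ 2 =
      ∑ i, θ i ^ 2 + ∑ p ∈ prs N, (θ p.1 - θ p.2) ^ 2 := by
  rw [Gauss_pairs (fun i j => (ins 0 0 θ i - ins 0 0 θ j) ^ 2),
    Gauss_pairs (fun i j => (θ i - θ j) ^ 2), Fin.sum_univ_succ]
  have h0 : ins 0 0 θ (0 : Fin (N + 1)) = 0 := by
    unfold ins
    exact Fin.insertNth_apply_same (α := fun _ : Fin (N + 1) => ℝ) 0 0 θ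
  have h1 : ∀ i : Fin N, ins 0 0 θ i.succ = θ i := by
    intro i
    unfold ins
    exact Fin.insertNth_apply_succAbove (α := fun _ : Fin (N + 1) => ℝ) 0 0 θ i
  congr 1
  · rw [Fin.sum_univ_succ]
    simp [h0, h1]
  · refine Finset.sum_congr rfl fun i _ => ?_
    rw [Fin.sum_univ_succ]
    simp [h0, h1]

private theorem Gauss_sq {n : ℕ} (η : Fin n → ℝ) :
    ∑ p ∈ prs n, (η p.1 - η p.2) ^ 2 + (∑ i, η i) ^ 2 = n * ∑ i, η i ^ 2 := by
  rw [Gauss_pairs (fun i j => (η i - η j) ^ 2)]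
  have h1 : ∑ i, ∑ j, (if j < i then (η i - η j) ^ 2 else 0) =
      ∑ i, ∑ j, (if i < j then (η i - η j) ^ 2 else 0) := by
    rw [Finset.sum_comm]
    refine Finset.sum_congr rfl fun i _ => Finset.sum_congr rfl fun j _ => ?_
    split_ifs
    · ring
    · rfl
  have h2 : ∑ i, ∑ j, (η i - η j) ^ 2 =
      ∑ i, ∑ j, (if i < j then (η i - η j) ^ 2 else 0) +
        ∑ i, ∑ j, (if j < i then (η i - η j) ^ 2 else 0) := by
    rw [← Finset.sum_add_distrib]
    refine Finset.sum_congr rfl fun i _ => ?_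
    rw [← Finset.sum_add_distrib]
    refine Finset.sum_congr rfl fun j _ => ?_
    rcases lt_trichotomy i j with h | h | h
    · simp [h, h.not_gt]
    · simp [h]
    · simp [h, h.not_gt]
  have h3 : ∑ i, ∑ j, (η i - η j) ^ 2 = 2 * (n * ∑ i, η i ^ 2) - 2 * (∑ i, η i) ^ 2 := by
    have h4 : ∀ i, ∑ j, (η i - η j) ^ 2 =
        n * η i ^ 2 - 2 * η i * (∑ j, η j) + ∑ j, η j ^ 2 := by
      intro i
      have h5 : ∀ j, (η i - η j) ^ 2 = η i ^ 2 - 2 * η i * η j + η j ^ 2 := fun j => by ring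
      simp_rw [h5]
      rw [Finset.sum_add_distrib, Finset.sum_sub_distrib, ← Finset.mul_sum]
      simp
    simp_rw [h4]
    rw [Finset.sum_add_distrib, Finset.sum_sub_distrib, ← Finset.mul_sum, ← Finset.sum_mul]
    simp only [Finset.sum_const, Finset.card_univ, Fintype.card_fin, nsmul_eq_mul]
    rw [← Finset.mul_sum]
    ring
  linarith

private theorem Gauss_const (N : ℕ) :
    ((N + 1 : ℕ) : ℝ) / √(2 * π) * √(π / (((N + 1 : ℕ) : ℝ) / 2)) ^ (N + 1) =
      π ^ N * exp (main (N + 1) + 1 / 2) := by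
  have hn : (0 : ℝ) < ((N + 1 : ℕ) : ℝ) := by positivity
  have hpi := Real.pi_pos
  have e1 : ((N + 1 : ℕ) : ℝ) = exp (log ((N + 1 : ℕ) : ℝ)) := (exp_log hn).symm
  have e2 : √(2 * π) = exp ((log 2 + log π) / 2) := by
    rw [← log_mul two_ne_zero hpi.ne', Real.sqrt_eq_rpow, Real.rpow_def_of_pos (by positivity)]
    congr 1
    ring
  have e3 : √(π / (((N + 1 : ℕ) : ℝ) / 2)) = exp ((log 2 + log π - log ((N + 1 : ℕ) : ℝ)) / 2) := by
    rw [← log_mul two_ne_zero hpi.ne', ← log_div (by positivity) hn.ne', Real.sqrt_eq_rpow,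
      Real.rpow_def_of_pos (by positivity)]
    congr 1
    have : π / (((N + 1 : ℕ) : ℝ) / 2) = 2 * π / ((N + 1 : ℕ) : ℝ) := by
      field_simp
    rw [this]
    ring
  have e4 : π ^ N = exp (N * log π) := by
    rw [exp_nat_mul, exp_log hpi]
  have e5 : log (2 / (π * ((N + 1 : ℕ) : ℝ))) = log 2 - log π - log ((N + 1 : ℕ) : ℝ) := by
    rw [log_div two_ne_zero (by positivity), log_mul hpi.ne' hn.ne']
    ring
  unfold main
  rw [e2, e3, e4, e5, ← exp_nat_mul, ← exp_add]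
  nth_rewrite 1 [e1]
  rw [← exp_sub, ← exp_add]
  congr 1
  push_cast
  ring

theorem gauss_total (N : ℕ) :
    ∫⁻ θ : Fin N → ℝ, ENNReal.ofReal (exp (-((∑ i, θ i ^ 2 +
      ∑ p ∈ prs N, (θ p.1 - θ p.2) ^ 2) / 2))) =
      ENNReal.ofReal (π ^ N * exp (main (N + 1) + 1 / 2)) := by
  set Φ : (Fin (N + 1) → ℝ) → ℝ≥0∞ := fun η =>
    ENNReal.ofReal (exp (-((∑ p ∈ prs (N + 1), (η p.1 - η p.2) ^ 2) / 2))) with hΦ
  have hm : Measurable Φ := by
    rw [hΦ]
    fun_prop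
  have hk : Measurable (fun t : ℝ => ENNReal.ofReal (gk (N + 1) t)) := by
    unfold gk
    fun_prop
  have ht : ∀ η c, Φ (fun i => η i + c) = Φ η := by
    intro η c
    simp only [hΦ, add_sub_add_right_eq_sub]
  have h1 := gaugeR hm ht hk 0
  rw [lintegral_gk (Nat.succ_pos N), one_mul] at h1
  have h2 : ∀ θ : Fin N → ℝ, Φ (ins 0 0 θ) = ENNReal.ofReal (exp (-((∑ i, θ i ^ 2 +
      ∑ p ∈ prs N, (θ p.1 - θ p.2) ^ 2) / 2))) := by
    intro θ
    simp only [hΦ]
    rw [Gauss_ins]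
  rw [← lintegral_congr h2, ← h1]
  have hn : (0 : ℝ) < ((N + 1 : ℕ) : ℝ) := by positivity
  set b : ℝ := ((N + 1 : ℕ) : ℝ) / 2 with hb
  have hb0 : 0 < b := by positivity
  have h3 : ∀ η : Fin (N + 1) → ℝ,
      Φ η * ENNReal.ofReal (gk (N + 1) ((∑ i, η i) / ((N : ℝ) + 1))) =
      ENNReal.ofReal (((N + 1 : ℕ) : ℝ) / √(2 * π) * ∏ i, exp (-b * η i ^ 2)) := by
    intro η
    simp only [hΦ]
    rw [← ENNReal.ofReal_mul (exp_pos _).le]
    congr 1
    unfold gk
    rw [← exp_sum, ← Finset.mul_sum, mul_left_comm, ← exp_add]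
    congr 2
    have h4 := Gauss_sq η
    have h5 : (((N + 1 : ℕ) : ℝ)) ^ 2 * ((∑ i, η i) / ((N : ℝ) + 1)) ^ 2 = (∑ i, η i) ^ 2 := by
      push_cast
      have : ((N : ℝ) + 1) ≠ 0 := by positivity
      field_simp
    rw [h5, hb]
    linarith
  rw [lintegral_congr h3]
  have hint : Integrable (fun η : Fin (N + 1) → ℝ => ∏ i, exp (-b * η i ^ 2)) :=
    Integrable.fintype_prod (fun _ => integrable_exp_neg_mul_sq hb0)
  have hval : ∫ η : Fin (N + 1) → ℝ, ∏ i, exp (-b * η i ^ 2) = √(π / b) ^ (N + 1) := by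
    rw [integral_fintype_prod_volume_eq_pow (fun x : ℝ => exp (-b * x ^ 2)), integral_gaussian,
      Fintype.card_fin]
  rw [← ofReal_integral_eq_lintegral_ofReal (hint.const_mul _)
    (Filter.Eventually.of_forall fun η => by positivity), integral_const_mul, hval,
    Gauss_const]

private theorem Gauss_measD (N : ℕ) : MeasurableSet (D N) := by
  unfold D
  refine meas_cube.inter ?_
  have h : {θ : Fin N → ℝ | ∀ i j, |θ i - θ j| < π / 2} =
      ⋂ i, ⋂ j, {θ : Fin N → ℝ | |θ i - θ j| < π / 2} := by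
    ext θ
    simp
  refine MeasurableSet.congr (MeasurableSet.iInter fun i => MeasurableSet.iInter fun j =>
    measurableSet_lt (by fun_prop) measurable_const) h.symm

theorem D_le (N : ℕ) : ∫ θ in D N, F θ ≤ π ^ N * exp (main (N + 1) + 1 / 2) := by
  set g : (Fin N → ℝ) → ℝ := fun θ => exp (-((∑ i, θ i ^ 2 +
      ∑ p ∈ prs N, (θ p.1 - θ p.2) ^ 2) / 2)) with hg
  have hgm : Measurable g := by
    rw [hg]
    fun_prop
  have hg0 : ∀ θ, 0 ≤ g θ := fun θ => (exp_pos _).le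
  have hgl : ∫⁻ θ, ENNReal.ofReal (g θ) = ENNReal.ofReal (π ^ N * exp (main (N + 1) + 1 / 2)) :=
    gauss_total N
  have hgi : Integrable g := by
    refine ⟨hgm.aestronglyMeasurable, ?_⟩
    rw [hasFiniteIntegral_iff_ofReal (Filter.Eventually.of_forall hg0), hgl]
    exact ENNReal.ofReal_lt_top
  have hgv : ∫ θ, g θ = π ^ N * exp (main (N + 1) + 1 / 2) := by
    rw [integral_eq_lintegral_of_nonneg_ae (Filter.Eventually.of_forall hg0)
      hgm.aestronglyMeasurable, hgl, ENNReal.toReal_ofReal (by positivity)]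
  have hDc : D N ⊆ cube (Fin N) := fun θ h => h.1
  have hFi : IntegrableOn F (D N) :=
    (integrableOn_cube continuous_F.measurable abs_F_le).mono_set hDc
  have hle : ∀ θ ∈ D N, F θ ≤ g θ := by
    intro θ hθ
    have h1 : (∏ i, cos (θ i)) ≤ exp (∑ i, -(θ i ^ 2 / 2)) := by
      rw [exp_sum]
      refine Finset.prod_le_prod (fun i _ => ?_) (fun i _ => ?_)
      · have hi : θ i ∈ Set.Ioc (-(π / 2)) (π / 2) := hθ.1 i (Set.mem_univ i)
        exact cos_nonneg_of_mem_Icc ⟨hi.1.le, hi.2⟩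
      · have hi : θ i ∈ Set.Ioc (-(π / 2)) (π / 2) := hθ.1 i (Set.mem_univ i)
        exact cos_le_exp (abs_le.2 ⟨hi.1.le, hi.2⟩)
    have h2 : W θ ≤ exp (∑ p ∈ prs N, -((θ p.1 - θ p.2) ^ 2 / 2)) := by
      unfold W
      rw [exp_sum]
      refine Finset.prod_le_prod (fun p _ => ?_) (fun p _ => ?_)
      · have hp := abs_lt.1 (hθ.2 p.1 p.2)
        exact cos_nonneg_of_mem_Icc ⟨hp.1.le, hp.2.le⟩
      · exact cos_le_exp (hθ.2 p.1 p.2).le
    have h3 : 0 ≤ W θ := by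
      unfold W
      refine Finset.prod_nonneg (fun p _ => ?_)
      have hp := abs_lt.1 (hθ.2 p.1 p.2)
      exact cos_nonneg_of_mem_Icc ⟨hp.1.le, hp.2.le⟩
    have h4 : g θ = exp (∑ i, -(θ i ^ 2 / 2)) *
        exp (∑ p ∈ prs N, -((θ p.1 - θ p.2) ^ 2 / 2)) := by
      rw [← exp_add]
      simp only [hg]
      congr 1
      rw [Finset.sum_neg_distrib, Finset.sum_neg_distrib, ← Finset.sum_div, ← Finset.sum_div]
      ring
    rw [h4]
    unfold F
    exact mul_le_mul h1 h2 h3 (exp_pos _).le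
  calc ∫ θ in D N, F θ ≤ ∫ θ in D N, g θ :=
        setIntegral_mono_on hFi hgi.integrableOn (Gauss_measD N) hle
    _ ≤ ∫ θ, g θ := setIntegral_le_integral hgi (Filter.Eventually.of_forall hg0)
    _ = _ := hgv

end MP_a3e05c_co.RT
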