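import Pool.Agent.Lib.MP_a3e05c_co.RT.Defs

/-!
# EULER, block RT: the inequality for balanced triples
-/

set_option autoImplicit false

open Real MeasureTheory Finset

namespace MP_a3e05c_co.RT

private theorem Trig_radicand (α β : ℝ) :
    (2 * cos (α - β) + cos (α + β)) ^ 2 + sin (α + β) ^ 2 =
      1 + 8 * (cos α * cos β * cos (α - β)) := by
  have h1 : sin (α + β) ^ 2 = 1 - cos (α + β) ^ 2 := by
    have := Real.sin_sq_add_cos_sq (α + β); linarith
  have h2 : cos (α + β) + cos (α - β) = 2 * (cos α * cos β) := by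
    rw [cos_add, cos_sub]; ring
  have h3 : cos (α + β) = 2 * (cos α * cos β) - cos (α - β) := by linarith
  rw [h1, h3]
  ring

private theorem Trig_prod (x y : ℝ) : cos (x + y) + cos (x - y) = 2 * (cos x * cos y) := by
  rw [cos_add, cos_sub]; ring

private theorem Trig_ident (α β θ : ℝ) :
    4 * (cos θ * cos (α - θ) * cos (β - θ)) = cos (3 * θ - (α + β)) +
      (cos θ * (2 * cos (α - β) + cos (α + β)) + sin θ * sin (α + β)) := by
  have e1 : cos (3 * θ - (α + β)) + cos (θ - (α + β)) =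
      2 * (cos (2 * θ - (α + β)) * cos θ) := by
    have := Trig_prod (2 * θ - (α + β)) θ
    rw [show 2 * θ - (α + β) + θ = 3 * θ - (α + β) by ring,
      show 2 * θ - (α + β) - θ = θ - (α + β) by ring] at this
    exact this
  have e2 : cos (2 * θ - (α + β)) + cos (α - β) = 2 * (cos (α - θ) * cos (β - θ)) := by
    have := Trig_prod (α - θ) (β - θ)
    rw [show α - θ + (β - θ) = -(2 * θ - (α + β)) by ring, cos_neg,
      show α - θ - (β - θ) = α - β by ring] at this
    exact this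
  have e3 : cos (θ - (α + β)) = cos θ * cos (α + β) + sin θ * sin (α + β) := cos_sub _ _
  have e4 : 4 * (cos θ * cos (α - θ) * cos (β - θ)) =
      2 * cos θ * (2 * (cos (α - θ) * cos (β - θ))) := by ring
  rw [e4, ← e2]
  linear_combination -e1 + e3

theorem tri_le {α β : ℝ} (hα : 0 ≤ cos α) (hβ : 0 ≤ cos β) (h : cos (α - β) ≤ 0) :
    -(cos α * cos β * cos (α - β)) ≤ 1 / 8 := by
  have := Trig_radicand α β
  nlinarith [sq_nonneg (2 * cos (α - β) + cos (α + β)), sq_nonneg (sin (α + β))]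

theorem tri_bound {α β : ℝ} (hα : 0 ≤ cos α) (hβ : 0 ≤ cos β) (h : cos (α - β) ≤ 0) (θ : ℝ) :
    |cos θ * cos (α - θ) * cos (β - θ)| ≤ 1 / 2 - -(cos α * cos β * cos (α - β)) := by
  set t := -(cos α * cos β * cos (α - β)) with ht
  have ht0 : 0 ≤ t := by
    have := mul_nonneg hα hβ
    nlinarith
  have ht1 : t ≤ 1 / 8 := tri_le hα hβ h
  set u := cos θ * (2 * cos (α - β) + cos (α + β)) + sin θ * sin (α + β) with hu
  have hrad : (2 * cos (α - β) + cos (α + β)) ^ 2 + sin (α + β) ^ 2 = 1 - 8 * t := by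
    rw [Trig_radicand]; ring
  have hu2 : u ^ 2 ≤ 1 - 8 * t := by
    have h1 := Real.sin_sq_add_cos_sq θ
    have h2 : u ^ 2 + (cos θ * sin (α + β) - sin θ * (2 * cos (α - β) + cos (α + β))) ^ 2 =
        (sin θ ^ 2 + cos θ ^ 2) *
          ((2 * cos (α - β) + cos (α + β)) ^ 2 + sin (α + β) ^ 2) := by
      rw [hu]; ring
    rw [h1, hrad] at h2
    nlinarith [sq_nonneg (cos θ * sin (α + β) - sin θ * (2 * cos (α - β) + cos (α + β)))]
  have hu3 : |u| ≤ 1 - 4 * t := by
    apply abs_le_of_sq_le_sq _ (by linarith)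
    nlinarith [sq_nonneg t]
  have hc : |cos (3 * θ - (α + β))| ≤ 1 := abs_cos_le_one _
  have hid := Trig_ident α β θ
  rw [← hu] at hid
  rw [abs_le] at hu3 hc ⊢
  constructor <;> linarith [hu3.1, hu3.2, hc.1, hc.2]

theorem kap_bound {t : ℝ} (h0 : 0 ≤ t) (h1 : t ≤ 1 / 8) {K : ℕ} (hK : 1 ≤ K) :
    t * (1 / 2 - t) ^ K ≤ kap K := by
  unfold kap
  have hK0 : (0 : ℝ) < K := by exact_mod_cast hK
  set s := 2 * t with hs
  have hs0 : 0 ≤ s := by positivity
  have e : t * (1 / 2 - t) ^ K = (1 / 2) ^ (K + 1) * (s * (1 - s) ^ K) := by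
    have : (1 / 2 - t : ℝ) = 1 / 2 * (1 - s) := by rw [hs]; ring
    rw [this, mul_pow, hs]; ring
  have h2 : (1 - s) ^ K ≤ exp (-(K * s)) := by
    have a : (1 - s : ℝ) ≤ exp (-s) := by
      have := Real.add_one_le_exp (-s); linarith
    have b : (1 - s) ^ K ≤ (exp (-s)) ^ K :=
      pow_le_pow_left₀ (by rw [hs]; linarith) a K
    rw [← Real.exp_nat_mul] at b
    rwa [show (K : ℝ) * -s = -(K * s) by ring] at b
  have h3 : K * s * exp (-(K * s)) ≤ exp (-1) := by
    have a := Real.add_one_le_exp (K * s - 1)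
    have b : exp (K * s - 1) * exp (-(K * s)) = exp (-1) := by
      rw [← Real.exp_add]; congr 1; ring
    have c := mul_le_mul_of_nonneg_right a (exp_pos (-(K * s))).le
    rw [b] at c
    linarith [c]
  have h4 : s * (1 - s) ^ K ≤ exp (-1) / K := by
    rw [le_div_iff₀ hK0]
    have : s * (1 - s) ^ K * K ≤ s * exp (-(K * s)) * K :=
      mul_le_mul_of_nonneg_right (mul_le_mul_of_nonneg_left h2 hs0) hK0.le
    linarith
  rw [e]
  have h5 : (1 / 2 : ℝ) ^ (K + 1) * (s * (1 - s) ^ K) ≤ (1 / 2) ^ (K + 1) * (exp (-1) / K) :=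
    mul_le_mul_of_nonneg_left h4 (by positivity)
  refine h5.trans (le_of_eq ?_)
  rw [Real.exp_neg]
  field_simp

end MP_a3e05c_co.RT
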