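import Pool.Agent.Lib.MP_a3e05c_co.RT.Defs

/-!
# EULER, block RT: the final scalar inequality
-/

set_option autoImplicit false

open Real MeasureTheory Finset

namespace MP_a3e05c_co.RT

private theorem AlgN_log {y : ℝ} (hy : 0 ≤ y) : log (1 + y) ≤ y - y ^ 2 / 2 + y ^ 3 / 3 := by
  let f : ℝ → ℝ := fun y => y - y ^ 2 / 2 + y ^ 3 / 3 - log (1 + y)
  have hd : ∀ z : ℝ, 0 < z → HasDerivAt f (1 - z + z ^ 2 - 1 / (1 + z)) z := by
    intro z hz
    have h1 : HasDerivAt (fun y : ℝ => log (1 + y)) (1 / (1 + z)) z := by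
      have h2 : HasDerivAt (fun y : ℝ => 1 + y) 1 z := by
        simpa using (hasDerivAt_id z).const_add 1
      have h3 : (1 + z) ≠ 0 := (by linarith : (0 : ℝ) < 1 + z).ne'
      exact h2.log h3
    have h2 : HasDerivAt (fun y : ℝ => y - y ^ 2 / 2 + y ^ 3 / 3) (1 - z + z ^ 2) z := by
      have h3 : HasDerivAt (fun y : ℝ => y ^ 2 / 2) z z := by
        have := (hasDerivAt_pow 2 z).div_const 2
        simpa using this
      have h4 : HasDerivAt (fun y : ℝ => y ^ 3 / 3) (z ^ 2) z := by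
        have := (hasDerivAt_pow 3 z).div_const 3
        simpa using this
      exact ((hasDerivAt_id z).sub h3).add h4
    exact h2.sub h1
  have hc : ContinuousOn f (Set.Ici 0) := by
    intro z hz
    have hz0 : (0 : ℝ) ≤ z := hz
    have h1 : ContinuousAt (fun y : ℝ => log (1 + y)) z := by
      apply ContinuousAt.log
      · fun_prop
      · linarith
    have h2 : ContinuousAt (fun y : ℝ => y - y ^ 2 / 2 + y ^ 3 / 3) z := by fun_prop
    exact (h2.sub h1).continuousWithinAt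
  have hm : MonotoneOn f (Set.Ici 0) := by
    refine monotoneOn_of_deriv_nonneg (convex_Ici 0) hc ?_ ?_
    · intro z hz
      rw [interior_Ici] at hz
      exact (hd z hz).differentiableAt.differentiableWithinAt
    · intro z hz
      rw [interior_Ici] at hz
      have hz0 : (0 : ℝ) < z := hz
      rw [(hd z hz0).deriv]
      have h1 : 1 - z + z ^ 2 - 1 / (1 + z) = z ^ 3 / (1 + z) := by
        field_simp
        ring
      rw [h1]
      positivity
  have h := hm (Set.mem_Ici.2 le_rfl) (Set.mem_Ici.2 hy) hy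
  have h0 : f 0 = 0 := by simp [f]
  rw [h0] at h
  have h2 : 0 ≤ y - y ^ 2 / 2 + y ^ 3 / 3 - log (1 + y) := h
  linarith

private theorem AlgN_rat {x : ℝ} (hx : 23 ≤ x) :
    0 ≤ 1 / (2 * x) + 1 / (4 * (x + 1)) - 1 / (6 * x ^ 2) - 1 / (2 * (x - 2)) -
      9 * (x - 1) / (8 * x * (x - 2) ^ 2) -
      225 * (x - 1) / (2 * x * (x - 2) ^ 2 * (x - 4) ^ 2) - 1 / (20 * x) - 1 / (500 * x) -
      1 / (20 * x) := by
  obtain ⟨t, ht, rfl⟩ : ∃ t : ℝ, 0 ≤ t ∧ x = t + 23 := ⟨x - 23, by linarith, by ring⟩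
  have e2 : t + 23 - 2 = t + 21 := by ring
  have e4 : t + 23 - 4 = t + 19 := by ring
  have e1 : t + 23 - 1 = t + 22 := by ring
  have e3 : t + 23 + 1 = t + 24 := by ring
  rw [e1, e2, e3, e4]
  have h1 : (0 : ℝ) < t + 23 := by linarith
  have h2 : (0 : ℝ) < t + 21 := by linarith
  have h3 : (0 : ℝ) < t + 19 := by linarith
  have h4 : (0 : ℝ) < t + 24 := by linarith
  have key : 1 / (2 * (t + 23)) + 1 / (4 * (t + 24)) - 1 / (6 * (t + 23) ^ 2) -
      1 / (2 * (t + 21)) - 9 * (t + 22) / (8 * (t + 23) * (t + 21) ^ 2) -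
      225 * (t + 22) / (2 * (t + 23) * (t + 21) ^ 2 * (t + 19) ^ 2) - 1 / (20 * (t + 23)) -
      1 / (500 * (t + 23)) - 1 / (20 * (t + 23)) =
      (485490573 / 500 * t ^ 0 + 249953619 / 250 * t ^ 1 + 192953151 / 1000 * t ^ 2 +
        49273609 / 3000 * t ^ 3 + 434173 / 600 * t ^ 4 + 48763 / 3000 * t ^ 5 + 37 / 250 * t
        ^ 6) / ((t + 23) ^ 2 * (t + 24) * (t + 21) ^ 2 * (t + 19) ^ 2) := by
    field_simp
    ring
  rw [key]
  positivity

theorem alg_final {n : ℕ} (hn : 23 ≤ n) :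
    main n + 1 / (20 * n) ≤
      log n - log (2 * π) / 2 +
      ((n : ℝ) * (log π - log (π * (n + 1) / 2) / 2) - (n : ℝ) / (4 * (n + 1)) - 1 / (20 * n)) +
      (1 / 2 - ((n : ℝ) - 1) / (4 * n) - 1 / (2 * (n - 2)) - 9 * (n - 1) / (8 * n * (n - 2) ^ 2) -
        225 * (n - 1) / (2 * n * (n - 2) ^ 2 * (n - 4) ^ 2) - 1 / (500 * n)) -
      ((n : ℝ) - 1) * log π := by
  have hx : (23 : ℝ) ≤ n := by exact_mod_cast hn
  unfold main
  generalize (n : ℝ) = x at hx ⊢
  have hx0 : 0 < x := by linarith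
  have l1 : log (2 / (π * x)) = log 2 - (log π + log x) := by
    rw [log_div (by norm_num) (by positivity), log_mul pi_ne_zero hx0.ne']
  have l2 : log (2 * π) = log 2 + log π := log_mul (by norm_num) pi_ne_zero
  have l3 : log (π * (x + 1) / 2) = log π + log (x + 1) - log 2 := by
    rw [log_div (by positivity) (by norm_num), log_mul pi_ne_zero (by linarith)]
  have l4 : log (x + 1) = log x + log (1 + 1 / x) := by
    rw [← log_mul hx0.ne' (by positivity)]
    congr 1
    field_simp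
  have h5 := AlgN_log (y := 1 / x) (by positivity)
  have h6 : x / 2 * log (1 + 1 / x) ≤ 1 / 2 - 1 / (4 * x) + 1 / (6 * x ^ 2) := by
    calc x / 2 * log (1 + 1 / x) ≤ x / 2 * (1 / x - (1 / x) ^ 2 / 2 + (1 / x) ^ 3 / 3) :=
          mul_le_mul_of_nonneg_left h5 (by positivity)
      _ = 1 / 2 - 1 / (4 * x) + 1 / (6 * x ^ 2) := by
          field_simp
          ring
  have h7 := AlgN_rat hx
  have h8 : x / (4 * (x + 1)) = 1 / 4 - 1 / (4 * (x + 1)) := by
    field_simp
    ring
  have h9 : (x - 1) / (4 * x) = 1 / 4 - 1 / (4 * x) := by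
    field_simp
  rw [l1, l2, l3, l4, h8, h9]
  have e1 : 1 / (2 * x) = 1 / (4 * x) + 1 / (4 * x) := by
    field_simp
    ring
  have e2 : x * (log π - (log π + (log x + log (1 + 1 / x)) - log 2) / 2) =
      x * (log π - log x + log 2) / 2 - x / 2 * log (1 + 1 / x) := by ring
  rw [e2]
  rw [e1] at h7
  have e3 : (x - 1) / 2 * (log 2 - (log π + log x)) =
      x * (log 2 - log π - log x) / 2 - (log 2 - log π - log x) / 2 := by ring
  have e4 : x * (log π - log x + log 2) / 2 - (x - 1) * log π =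
      x * (log 2 - log π - log x) / 2 + log π := by ring
  rw [e3]
  linarith

end MP_a3e05c_co.RT
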