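import Pool.Agent.Lib.MP_a3e05c_co.KL.Defs

/-!
# EULER, block RT: lower bound for the number of regular tournaments.  Definitions
-/

set_option autoImplicit false

open Real MeasureTheory Finset

namespace MP_a3e05c_co.RT

/-- one period of the products of cosines -/
def I1 : Set ℝ := Set.Ioc (-(π / 2)) (π / 2)

/-- the cube `(-π/2, π/2]^V` -/
def cube (V : Type) : Set (V → ℝ) := Set.pi Set.univ fun _ => I1

/-- the pairs `i < j` -/
def prs (N : ℕ) : Finset (Fin N × Fin N) := univ.filter fun p => p.1 < p.2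

/-- product of the cosines of the differences -/
noncomputable def W {N : ℕ} (θ : Fin N → ℝ) : ℝ := ∏ p ∈ prs N, cos (θ p.1 - θ p.2)

/-- the same for the angles `0` and `θ` -/
noncomputable def F {N : ℕ} (θ : Fin N → ℝ) : ℝ := (∏ i, cos (θ i)) * W θ

/-- insertion of an angle at the place `w` -/
def ins {N : ℕ} (w : Fin (N + 1)) (t : ℝ) (θ : Fin N → ℝ) : Fin (N + 1) → ℝ :=
  Fin.insertNth (α := fun _ => ℝ) w t θ

/-- mean value of `|W|` -/
noncomputable def M (N : ℕ) : ℝ := (∫ θ in cube (Fin N), |W θ|) / π ^ N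

/-- the angles `0` and `θ` are in an arc of length `π / 2` -/
def D (N : ℕ) : Set (Fin N → ℝ) := {θ | θ ∈ cube (Fin N) ∧ ∀ i j, |θ i - θ j| < π / 2}

/-- the angles off `A` are set to `0` -/
noncomputable def msk {V : Type} [DecidableEq V] (A : Finset V) (θ : V → ℝ) (v : V) : ℝ :=
  if v ∈ A then θ v else 0

/-- the complete graph on `Fin n`, in the format of the key lemma -/
def hdK (n : ℕ) (e : {p : Fin n × Fin n // p.1 < p.2}) (b : Bool) : Fin n :=
  if b then e.1.1 else e.1.2

/-- number of regular tournaments on `Fin n` -/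
def RTn (n : ℕ) : ℕ := (KL.Om (hdK n) univ).card

/-- probability that a random tournament is regular -/
noncomputable def P (n : ℕ) : ℝ := (RTn n : ℝ) / 2 ^ (n * (n - 1) / 2)

/-- main term of `log P` -/
noncomputable def main (n : ℕ) : ℝ :=
  log n / 2 - 1 / 2 + ((n : ℝ) - 1) / 2 * log (2 / (π * n))

/-- bound for `t (1/2 - t)^K`, `0 ≤ t ≤ 1/8` -/
noncomputable def kap (K : ℕ) : ℝ := (1 / 2) ^ (K + 1) / (exp 1 * K)

/-- half length of the interval of the trial law -/
noncomputable def aa : ℝ := arctan (19 / 20)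

/-- moments (not normalised) of the trial law -/
noncomputable def mo (n k : ℕ) : ℝ := ∫ θ in (-aa)..aa, tan θ ^ k * cos θ ^ (n + 1)

/-- `E tan^k` -/
noncomputable def mn (n k : ℕ) : ℝ := mo n k / mo n 0

end MP_a3e05c_co.RT
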