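import Pool.Agent.Lib.MP_a3e05c_co.RT.Mom

/-!
# EULER, block RT: lower bound for the normalisation
-/

set_option autoImplicit false

open Real MeasureTheory Finset

namespace MP_a3e05c_co.RT

private theorem Zlow_bb_pos (m : ℕ) : 0 < KL.bb m := by
  unfold KL.bb
  have := Nat.centralBinom_pos m
  positivity

private theorem Zlow_bb_succ (m : ℕ) : KL.bb (m + 1) = KL.bb m * ((2 * m + 1) / (2 * m + 2)) := by
  unfold KL.bb
  have h := Nat.succ_mul_centralBinom_succ m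
  have h1 : ((m : ℝ) + 1) * (Nat.centralBinom (m + 1) : ℝ) =
      2 * (2 * m + 1) * (Nat.centralBinom m : ℝ) := by
    exact_mod_cast h
  have h2 : (Nat.centralBinom (m + 1) : ℝ) = 2 * (2 * m + 1) * (Nat.centralBinom m : ℝ) /
      (m + 1) := by
    rw [eq_div_iff (by positivity)]
    linarith
  rw [h2, pow_succ]
  field_simp
  ring

private theorem Zlow_wallis (m : ℕ) : KL.bb m ^ 2 * (2 * m + 1) * Wallis.W m = 1 := by
  induction m with
  | zero => simp [KL.bb, Wallis.W]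
  | succ k ih =>
    rw [Zlow_bb_succ, Wallis.W_succ]
    push_cast
    have h : (KL.bb k * ((2 * (k : ℝ) + 1) / (2 * k + 2))) ^ 2 * (2 * (k + 1) + 1) *
        (Wallis.W k * ((2 * k + 2) / (2 * k + 1) * ((2 * k + 2) / (2 * k + 3)))) =
        KL.bb k ^ 2 * (2 * k + 1) * Wallis.W k := by
      have h1 : (2 * (k : ℝ) + 1) ≠ 0 := by positivity
      have h2 : (2 * (k : ℝ) + 2) ≠ 0 := by positivity
      have h3 : (2 * (k : ℝ) + 3) ≠ 0 := by positivity
      field_simp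
      ring
    rw [h, ih]

/-- the sequence `bb (j+1) ^ 2 * (j+1) * exp (1 / (4 (j+1)))` -/
private noncomputable def Zlow_g (j : ℕ) : ℝ :=
  KL.bb (j + 1) ^ 2 * ((j : ℝ) + 1) * exp (1 / (4 * ((j : ℝ) + 1)))

private theorem Zlow_g_antitone : Antitone Zlow_g := by
  apply antitone_nat_of_succ_le
  intro j
  unfold Zlow_g
  rw [Zlow_bb_succ (j + 1)]
  push_cast
  have hb := Zlow_bb_pos (j + 1)
  have hj : (0 : ℝ) ≤ j := Nat.cast_nonneg j
  have h1 : 1 / (4 * ((j : ℝ) + 1)) = 1 / (4 * ((j : ℝ) + 1 + 1)) +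
      1 / (4 * ((j : ℝ) + 1) * (j + 1 + 1)) := by
    have h3 : (j : ℝ) + 1 ≠ 0 := by positivity
    have h4 : (j : ℝ) + 1 + 1 ≠ 0 := by positivity
    field_simp
  rw [h1, exp_add]
  have h2 := add_one_le_exp (1 / (4 * ((j : ℝ) + 1) * (j + 1 + 1)))
  have h5 : ((2 * ((j : ℝ) + 1) + 1) / (2 * ((j : ℝ) + 1) + 2)) ^ 2 * ((j : ℝ) + 1 + 1) =
      ((j : ℝ) + 1) * (1 / (4 * ((j : ℝ) + 1) * (j + 1 + 1)) + 1) := by
    have h3 : (j : ℝ) + 1 ≠ 0 := by positivity
    have h4 : (j : ℝ) + 1 + 1 ≠ 0 := by positivity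
    have h6 : 2 * ((j : ℝ) + 1) + 2 ≠ 0 := by positivity
    field_simp
    ring
  have h6 : ((2 * ((j : ℝ) + 1) + 1) / (2 * ((j : ℝ) + 1) + 2)) ^ 2 * ((j : ℝ) + 1 + 1) ≤
      ((j : ℝ) + 1) * exp (1 / (4 * ((j : ℝ) + 1) * (j + 1 + 1))) := by
    rw [h5]
    exact mul_le_mul_of_nonneg_left h2 (by positivity)
  have h7 : 0 ≤ KL.bb (j + 1) ^ 2 * exp (1 / (4 * ((j : ℝ) + 1 + 1))) := by positivity
  have h8 := mul_le_mul_of_nonneg_left h6 h7
  calc _ = KL.bb (j + 1) ^ 2 * exp (1 / (4 * ((j : ℝ) + 1 + 1))) *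
        (((2 * ((j : ℝ) + 1) + 1) / (2 * ((j : ℝ) + 1) + 2)) ^ 2 * ((j : ℝ) + 1 + 1)) := by ring
    _ ≤ KL.bb (j + 1) ^ 2 * exp (1 / (4 * ((j : ℝ) + 1 + 1))) *
        (((j : ℝ) + 1) * exp (1 / (4 * ((j : ℝ) + 1) * (j + 1 + 1)))) := h8
    _ = _ := by ring

private theorem Zlow_g_tendsto : Filter.Tendsto Zlow_g Filter.atTop (nhds (1 / π)) := by
  have h1 : Zlow_g = fun j : ℕ => ((((j : ℝ) + 1) / (2 * ((j : ℝ) + 1) + 1)) *
      (Wallis.W (j + 1))⁻¹) * exp (1 / (4 * ((j : ℝ) + 1))) := by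
    funext j
    have h := Zlow_wallis (j + 1)
    push_cast at h
    have hW := Wallis.W_pos (j + 1)
    have h2 : (2 * ((j : ℝ) + 1) + 1) ≠ 0 := by positivity
    unfold Zlow_g
    congr 1
    field_simp
    have h3 : KL.bb (j + 1) ^ 2 * (2 * ((j : ℝ) + 1) + 1) * Wallis.W (j + 1) = 1 := h
    nlinarith [h3]
  rw [h1]
  have hj : Filter.Tendsto (fun j : ℕ => (j : ℝ) + 1) Filter.atTop Filter.atTop :=
    Filter.tendsto_atTop_add_const_right _ _ tendsto_natCast_atTop_atTop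
  have h2 : Filter.Tendsto (fun j : ℕ => ((j : ℝ) + 1) / (2 * ((j : ℝ) + 1) + 1))
      Filter.atTop (nhds (1 / 2)) := by
    have h3 : (fun j : ℕ => ((j : ℝ) + 1) / (2 * ((j : ℝ) + 1) + 1)) =
        fun j : ℕ => 1 / 2 - (1 / 4) * ((j : ℝ) + 1 + 1 / 2)⁻¹ := by
      funext j
      have h4 : (2 * ((j : ℝ) + 1) + 1) ≠ 0 := by positivity
      have h5 : ((j : ℝ) + 1 + 1 / 2) ≠ 0 := by positivity
      field_simp
      ring
    rw [h3]
    have h7 : Filter.Tendsto (fun j : ℕ => (j : ℝ) + 1 + 1 / 2) Filter.atTop Filter.atTop :=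
      Filter.tendsto_atTop_add_const_right _ _ hj
    have h8 : Filter.Tendsto (fun j : ℕ => ((j : ℝ) + 1 + 1 / 2)⁻¹) Filter.atTop (nhds 0) :=
      tendsto_inv_atTop_zero.comp h7
    simpa using tendsto_const_nhds.sub (h8.const_mul (1 / 4 : ℝ))
  have h3 : Filter.Tendsto (fun j : ℕ => (Wallis.W (j + 1))⁻¹) Filter.atTop
      (nhds (π / 2)⁻¹) :=
    ((Filter.tendsto_add_atTop_iff_nat 1).2 Wallis.tendsto_W_nhds_pi_div_two).inv₀ (by positivity)
  have h4 : Filter.Tendsto (fun j : ℕ => exp (1 / (4 * ((j : ℝ) + 1)))) Filter.atTop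
      (nhds 1) := by
    have h5 : Filter.Tendsto (fun j : ℕ => ((j : ℝ) + 1)⁻¹) Filter.atTop (nhds 0) :=
      tendsto_inv_atTop_zero.comp hj
    have h6 : Filter.Tendsto (fun j : ℕ => (1 / 4) * ((j : ℝ) + 1)⁻¹) Filter.atTop
        (nhds (1 / 4 * 0)) := h5.const_mul _
    rw [mul_zero] at h6
    have h7 := (continuous_exp.tendsto 0).comp h6
    rw [exp_zero] at h7
    refine h7.congr fun j => ?_
    simp only [Function.comp]
    congr 1
    have h3 : (j : ℝ) + 1 ≠ 0 := by positivity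
    field_simp
  have h5 := (h2.mul h3).mul h4
  have h6 : (1 : ℝ) / 2 * (π / 2)⁻¹ * 1 = 1 / π := by
    field_simp
  rw [h6] at h5
  exact h5

theorem cb_ge {k : ℕ} (hk : 1 ≤ k) :
    exp (-(1 / (8 * (k : ℝ)))) / √(π * k) ≤ KL.bb k := by
  obtain ⟨j, rfl⟩ : ∃ j, k = j + 1 := ⟨k - 1, by omega⟩
  have h := Zlow_g_antitone.le_of_tendsto Zlow_g_tendsto j
  unfold Zlow_g at h
  push_cast
  have hp := pi_pos
  have hj : (0 : ℝ) < (j : ℝ) + 1 := by positivity
  have hb := Zlow_bb_pos (j + 1)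
  rw [div_le_iff₀ (by positivity)]
  refine abs_le_of_sq_le_sq' ?_ (by positivity) |>.2
  rw [mul_pow, Real.sq_sqrt (by positivity), ← exp_nat_mul]
  rw [div_le_iff₀ hp] at h
  have h1 : exp ((2 : ℕ) * -(1 / (8 * ((j : ℝ) + 1)))) = (exp (1 / (4 * ((j : ℝ) + 1))))⁻¹ := by
    rw [← exp_neg]
    congr 1
    push_cast
    have h3 : (j : ℝ) + 1 ≠ 0 := by positivity
    field_simp
    ring
  rw [h1]
  have h2 := exp_pos (1 / (4 * ((j : ℝ) + 1)))
  rw [inv_le_iff_one_le_mul₀ h2]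
  calc 1 ≤ _ := h
    _ = _ := by ring

private theorem Zlow_aa_pos : 0 < aa := by
  unfold aa
  rw [← arctan_zero]
  exact arctan_strictMono (by norm_num)

private theorem Zlow_aa_lt : aa < π / 2 := arctan_lt_pi_div_two _

private theorem Zlow_sin_pos : 0 < sin aa :=
  sin_pos_of_pos_of_lt_pi Zlow_aa_pos (by linarith [Zlow_aa_lt, pi_pos])

/-- the full integral -/
private theorem Zlow_full (m : ℕ) :
    ∫ x in (-(π / 2))..(π / 2), cos x ^ (2 * m) = π * KL.bb m := by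
  have h := integral_sin_pow_even m
  have h1 : ∫ x in (-(π / 2))..(π / 2), cos x ^ (2 * m) = ∫ x in (0 : ℝ)..π, sin x ^ (2 * m) := by
    have h2 : ∀ x : ℝ, cos x ^ (2 * m) = (fun y => sin y ^ (2 * m)) (x + π / 2) := by
      intro x
      simp only [sin_add_pi_div_two]
    simp_rw [h2]
    rw [intervalIntegral.integral_comp_add_right (fun y => sin y ^ (2 * m))]
    congr 1 <;> ring
  rw [h1, h]
  congr 1
  clear h h1
  induction m with
  | zero => simp [KL.bb]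
  | succ n ih =>
    rw [Finset.prod_range_succ, ih, Zlow_bb_succ]

private theorem Zlow_cont (m : ℕ) : Continuous fun x : ℝ => cos x ^ m := by fun_prop

private theorem Zlow_tail (m : ℕ) :
    ∫ x in aa..(π / 2), cos x ^ (2 * m + 2) ≤
      cos aa ^ (2 * m + 3) / ((2 * m + 3) * sin aa) := by
  have hs := Zlow_sin_pos
  have ha := Zlow_aa_pos
  have hlt := Zlow_aa_lt
  have hder : ∀ x ∈ Set.uIcc aa (π / 2), HasDerivAt
      (fun θ => -(cos θ ^ (2 * m + 3)) / ((2 * m + 3) * sin aa))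
      (cos x ^ (2 * m + 2) * (sin x / sin aa)) x := by
    intro x _
    have h2 := ((hasDerivAt_cos x).fun_pow (2 * m + 3)).neg.div_const ((2 * m + 3) * sin aa)
    refine h2.congr_deriv ?_
    have h3 : (2 * (m : ℝ) + 3) ≠ 0 := by positivity
    push_cast
    field_simp
  have hint : IntervalIntegrable (fun x => cos x ^ (2 * m + 2) * (sin x / sin aa))
      volume aa (π / 2) := by
    apply Continuous.intervalIntegrable
    fun_prop
  have hmain := intervalIntegral.integral_eq_sub_of_hasDerivAt hder hint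
  have hle : ∫ x in aa..(π / 2), cos x ^ (2 * m + 2) ≤
      ∫ x in aa..(π / 2), cos x ^ (2 * m + 2) * (sin x / sin aa) := by
    refine intervalIntegral.integral_mono_on hlt.le
      ((Zlow_cont _).intervalIntegrable _ _) hint fun x hx => ?_
    have h1 : 0 ≤ cos x ^ (2 * m + 2) := Even.pow_nonneg ⟨m + 1, by ring⟩ _
    have h2 : sin aa ≤ sin x := by
      apply sin_le_sin_of_le_of_le_pi_div_two (by linarith [pi_pos]) hx.2 hx.1
    have h3 : 1 ≤ sin x / sin aa := by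
      rw [le_div_iff₀ hs]
      linarith
    nlinarith
  rw [hmain] at hle
  rw [cos_pi_div_two] at hle
  rw [zero_pow (by omega)] at hle
  calc _ ≤ _ := hle
    _ = _ := by ring

private theorem Zlow_tail' (m : ℕ) :
    ∫ x in (-(π / 2))..(-aa), cos x ^ (2 * m + 2) ≤
      cos aa ^ (2 * m + 3) / ((2 * m + 3) * sin aa) := by
  have h : ∫ x in (-(π / 2))..(-aa), cos x ^ (2 * m + 2) =
      ∫ x in aa..(π / 2), cos x ^ (2 * m + 2) := by
    rw [← intervalIntegral.integral_comp_neg (fun x => cos x ^ (2 * m + 2))]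
    simp only [cos_neg]
  rw [h]
  exact Zlow_tail m

theorem mo_zero_ge (m : ℕ) :
    π * KL.bb (m + 1) - 2 * cos aa ^ (2 * m + 3) / ((2 * m + 3) * sin aa) ≤ mo (2 * m + 1) 0 := by
  have h1 := Zlow_full (m + 1)
  have h2 := Zlow_tail m
  have h3 := Zlow_tail' m
  have hi : ∀ a b : ℝ, IntervalIntegrable (fun x : ℝ => cos x ^ (2 * m + 2)) volume a b :=
    fun a b => (Zlow_cont _).intervalIntegrable _ _
  have h4 := intervalIntegral.integral_add_adjacent_intervals (hi (-(π / 2)) (-aa)) (hi (-aa) aa)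
  have h5 := intervalIntegral.integral_add_adjacent_intervals (hi (-(π / 2)) aa) (hi aa (π / 2))
  rw [show 2 * (m + 1) = 2 * m + 2 by ring] at h1
  have h6 : mo (2 * m + 1) 0 = ∫ x in (-aa)..aa, cos x ^ (2 * m + 2) := by
    unfold mo
    simp only [pow_zero, one_mul]
  rw [h6]
  have h7 : 2 * cos aa ^ (2 * m + 3) / ((2 * m + 3) * sin aa) =
      cos aa ^ (2 * m + 3) / ((2 * m + 3) * sin aa) +
        cos aa ^ (2 * m + 3) / ((2 * m + 3) * sin aa) := by ring
  rw [h7]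
  linarith

end MP_a3e05c_co.RT
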