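import Pool.Agent.Lib.MP_a3e05c_co.RT.Mom
import Pool.Agent.Lib.MP_a3e05c_co.RT.Zlow

/-!
# EULER, block RT: lower bound for `E X`
-/

set_option autoImplicit false

open Real MeasureTheory Finset

namespace MP_a3e05c_co.RT

private theorem EXlow_cpos : 0 < cos aa := by
  rw [cos_aa]
  positivity

private theorem EXlow_csq : cos aa ^ 2 = 400 / 761 := by
  rw [cos_aa, div_pow, Real.sq_sqrt (by norm_num)]
  norm_num

/-- `mo n 0` is not small. -/
theorem mo_zero_ge' {m : ℕ} (hm : 11 ≤ m) : 2 / √((2 * m + 1 : ℕ) : ℝ) ≤ mo (2 * m + 1) 0 := by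
  have h1 := mo_zero_ge m
  have h2 := cb_ge (k := m + 1) (by omega)
  have hm' : (11 : ℝ) ≤ m := by exact_mod_cast hm
  push_cast at h2 ⊢
  set x : ℝ := (m : ℝ) + 1 with hx
  have hx12 : 12 ≤ x := by linarith
  have hx0 : 0 < x := by linarith
  have hr0 : 0 < √x := Real.sqrt_pos.2 hx0
  have hrsq : √x ^ 2 = x := Real.sq_sqrt hx0.le
  have ht0 : 0 < √(2 * (m : ℝ) + 1) := Real.sqrt_pos.2 (by linarith)
  have htsq : √(2 * (m : ℝ) + 1) ^ 2 = 2 * (m : ℝ) + 1 := Real.sq_sqrt (by linarith)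
  have hpi := Real.pi_gt_d2
  have hspi : 7 / 4 ≤ √π := by
    apply Real.le_sqrt_of_sq_le
    norm_num
    linarith
  have hspi2 : √π * √π = π := Real.mul_self_sqrt Real.pi_nonneg
  -- main term
  have hE : 95 / 96 ≤ exp (-(1 / (8 * x))) := by
    have a1 := Real.add_one_le_exp (-(1 / (8 * x)))
    have a2 : 1 / (8 * x) ≤ 1 / 96 := one_div_le_one_div_of_le (by norm_num) (by linarith)
    linarith
  have hmain : 1.73 / √x ≤ π * KL.bb (m + 1) := by
    have a1 : π * (exp (-(1 / (8 * x))) / √(π * x)) ≤ π * KL.bb (m + 1) :=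
      mul_le_mul_of_nonneg_left h2 Real.pi_nonneg
    refine le_trans ?_ a1
    have a2 : π * (exp (-(1 / (8 * x))) / √(π * x)) = √π * exp (-(1 / (8 * x))) / √x := by
      rw [Real.sqrt_mul Real.pi_nonneg]
      have hs : √π ≠ 0 := by positivity
      nth_rewrite 1 [← hspi2]
      field_simp
    rw [a2]
    refine div_le_div_of_nonneg_right ?_ hr0.le
    nlinarith
  have hcmp : 2 / √(2 * (m : ℝ) + 1) ≤ 1.5 / √x := by
    rw [div_le_div_iff₀ ht0 hr0]
    by_contra hcon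
    rw [not_le] at hcon
    have a1 : (1.5 * √(2 * (m : ℝ) + 1)) ^ 2 < (2 * √x) ^ 2 :=
      pow_lt_pow_left₀ hcon (by positivity) (by norm_num)
    rw [mul_pow, mul_pow, htsq, hrsq] at a1
    linarith
  -- the small term
  have hsmall : 2 * cos aa ^ (2 * m + 3) / ((2 * m + 3) * sin aa) ≤ 0.23 / √x := by
    have hc := EXlow_cpos
    have a1 : 2 * cos aa ^ (2 * m + 3) / ((2 * m + 3) * sin aa) =
        40 / 19 * (cos aa ^ 2) ^ (m + 1) / (2 * m + 3) := by
      rw [sin_aa, ← pow_mul, show 2 * m + 3 = 2 * (m + 1) + 1 by ring, pow_succ]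
      have : (0 : ℝ) < 2 * m + 3 := by positivity
      field_simp
      ring
    rw [a1, EXlow_csq]
    have a2 : ((400 : ℝ) / 761) ^ (m + 1) ≤ (400 / 761) ^ 12 :=
      pow_le_pow_of_le_one (by norm_num) (by norm_num) (by omega)
    have a3 : ((400 : ℝ) / 761) ^ 12 ≤ 1 / 2000 := by norm_num
    have a4 : (40 : ℝ) / 19 * (400 / 761) ^ (m + 1) ≤ 1 / 900 := by linarith
    have hsx : √x ≤ x := by
      rw [Real.sqrt_le_left (by linarith)]
      nlinarith
    rw [div_le_div_iff₀ (by positivity) hr0]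
    calc 40 / 19 * (400 / 761 : ℝ) ^ (m + 1) * √x ≤ 1 / 900 * x :=
          mul_le_mul a4 hsx hr0.le (by norm_num)
      _ ≤ 0.23 * (2 * m + 3) := by
          norm_num
          linarith
  have hfin : 1.5 / √x = 1.73 / √x - 0.23 / √x := by
    rw [← sub_div]
    norm_num
  linarith

private theorem EXlow_ind {m : ℕ} (hm : 11 ≤ m) :
    ((160000 : ℝ) / 579121) ^ (m + 1) * (2 * m + 1) ^ 2 ≤ 11 / 100000 := by
  induction m, hm using Nat.le_induction with
  | base => norm_num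
  | succ m hm ih =>
    have hm' : (11 : ℝ) ≤ m := by exact_mod_cast hm
    have hp : 0 < ((160000 : ℝ) / 579121) ^ (m + 1) := by positivity
    refine le_trans ?_ ih
    rw [pow_succ, mul_assoc]
    refine mul_le_mul_of_nonneg_left ?_ hp.le
    push_cast
    nlinarith

theorem EX_ge {m : ℕ} (hm : 11 ≤ m) {n : ℕ} (hn : n = 2 * m + 1) :
    1 / 2 - ((n : ℝ) - 1) / (4 * n) - 1 / (2 * (n - 2)) - 9 * (n - 1) / (8 * n * (n - 2) ^ 2) -
      225 * (n - 1) / (2 * n * (n - 2) ^ 2 * (n - 4) ^ 2) - 1 / (500 * n) ≤ EX n := by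
  have hm' : (11 : ℝ) ≤ m := by exact_mod_cast hm
  have hN : (n : ℝ) = 2 * m + 1 := by
    rw [hn]
    push_cast
    ring
  have hN23 : (23 : ℝ) ≤ n := by linarith
  have hc := EXlow_cpos
  have h0 := mo_pos n
  have hz : 2 / √(n : ℝ) ≤ mo n 0 := by
    rw [hn]
    exact mo_zero_ge' hm
  have hsq0 : 0 < √(n : ℝ) := Real.sqrt_pos.2 (by linarith)
  have hsq2 : √(n : ℝ) ^ 2 = n := Real.sq_sqrt (by linarith)
  set N : ℝ := (n : ℝ) with hNdef
  have hN0 : 0 < N := by linarith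
  have hN2 : 0 < N - 2 := by linarith
  have hN4 : 0 < N - 4 := by linarith
  -- the relative error
  set ε : ℝ := 2 * sin aa * cos aa ^ n / mo n 0 with hε
  have hs0 : 0 < sin aa := by
    rw [sin_aa]
    positivity
  have hε0 : 0 ≤ ε := by positivity
  have hεle : ε ≤ 19 / 20 * (cos aa ^ 2) ^ (m + 1) * √N := by
    rw [hε, div_le_iff₀ h0]
    have a1 : 2 * sin aa * cos aa ^ n = 2 * (19 / 20 * (cos aa ^ 2) ^ (m + 1)) := by
      rw [sin_aa, ← pow_mul, hn, show 2 * (m + 1) = 2 * m + 1 + 1 by ring, pow_succ]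
      ring
    rw [a1]
    have a2 : 2 ≤ √N * mo n 0 := by
      rw [div_le_iff₀ hsq0] at hz
      linarith
    have a3 : 0 ≤ 19 / 20 * (cos aa ^ 2) ^ (m + 1) := by positivity
    calc 2 * (19 / 20 * (cos aa ^ 2) ^ (m + 1)) = (19 / 20 * (cos aa ^ 2) ^ (m + 1)) * 2 := by ring
      _ ≤ (19 / 20 * (cos aa ^ 2) ^ (m + 1)) * (√N * mo n 0) := mul_le_mul_of_nonneg_left a2 a3
      _ = _ := by ring
  have hεN : ε ^ 2 * N ≤ 1 / 10000 := by
    have a1 : ε ^ 2 ≤ (19 / 20 * (cos aa ^ 2) ^ (m + 1) * √N) ^ 2 :=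
      pow_le_pow_left₀ hε0 hεle 2
    have a2 : (19 / 20 * (cos aa ^ 2) ^ (m + 1) * √N) ^ 2 * N =
        361 / 400 * (((160000 : ℝ) / 579121) ^ (m + 1) * (2 * m + 1) ^ 2) := by
      rw [mul_pow, mul_pow, hsq2, EXlow_csq, ← pow_mul, mul_comm (m + 1) 2, pow_mul, ← hN]
      norm_num
      ring
    have a3 := EXlow_ind hm
    have a4 := mul_le_mul_of_nonneg_right a1 hN0.le
    rw [a2] at a4
    linarith
  have hε21 : ε ≤ 21 / 10000 := by
    by_contra hcon
    rw [not_le] at hcon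
    have a1 : (21 / 10000 : ℝ) ^ 2 < ε ^ 2 := pow_lt_pow_left₀ hcon (by norm_num) (by norm_num)
    nlinarith
  have hεfin : ε / (2 * N) + ε ^ 2 / 4 ≤ 1 / (500 * N) := by
    have e1 : ε / (2 * N) + ε ^ 2 / 4 = (ε / 2 + ε ^ 2 * N / 4) / N := by
      field_simp
    have e2 : 1 / (500 * N) = (1 / 500) / N := by
      field_simp
    rw [e1, e2]
    exact div_le_div_of_nonneg_right (by linarith) hN0.le
  -- the moments
  have hm2 : mn n 2 = (1 - ε) / N := by
    unfold mn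
    rw [eq_div_iff hN0.ne', hε]
    have a1 := mo_two (n := n) (by omega)
    field_simp
    linarith
  have hp2 : 0 ≤ mn n 2 := div_nonneg (mo_nonneg n 1) h0.le
  have hp4 : 0 ≤ mn n 4 := div_nonneg (mo_nonneg n 2) h0.le
  have hp6 : 0 ≤ mn n 6 := div_nonneg (mo_nonneg n 3) h0.le
  have h2le : mn n 2 ≤ 1 / N := by
    rw [hm2]
    exact div_le_div_of_nonneg_right (by linarith) hN0.le
  have h4le : mn n 4 ≤ 3 / (N * (N - 2)) := by
    have a1 := mo_four (n := n) (by omega)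
    have a2 : (N - 2) * mn n 4 ≤ 3 * mn n 2 := by
      unfold mn
      rw [mul_div_assoc', mul_div_assoc']
      exact div_le_div_of_nonneg_right a1 h0.le
    have a3 : (N - 2) * mn n 4 ≤ 3 * (1 / N) := by linarith
    have a4 : mn n 4 ≤ 3 * (1 / N) / (N - 2) := by
      rw [le_div_iff₀ hN2]
      linarith
    refine a4.trans (le_of_eq ?_)
    field_simp
  have h6le : mn n 6 ≤ 15 / (N * (N - 2) * (N - 4)) := by
    have a1 := mo_six (n := n) (by omega)
    have a2 : (N - 4) * mn n 6 ≤ 5 * mn n 4 := by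
      unfold mn
      rw [mul_div_assoc', mul_div_assoc']
      exact div_le_div_of_nonneg_right a1 h0.le
    have a3 : (N - 4) * mn n 6 ≤ 5 * (3 / (N * (N - 2))) := by linarith
    have a4 : mn n 6 ≤ 5 * (3 / (N * (N - 2))) / (N - 4) := by
      rw [le_div_iff₀ hN4]
      linarith
    refine a4.trans (le_of_eq ?_)
    field_simp
    norm_num
  have t1 : N * (mn n 2 / 2) - N * (N - 1) / 2 * (mn n 2 ^ 2 / 2) ≥
      1 / 2 - (N - 1) / (4 * N) - (ε / (2 * N) + ε ^ 2 / 4) := by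
    rw [hm2]
    have e1 : N * ((1 - ε) / N / 2) - N * (N - 1) / 2 * (((1 - ε) / N) ^ 2 / 2) =
        1 / 2 - (N - 1) / (4 * N) - ε / (2 * N) - (N - 1) / (4 * N) * ε ^ 2 := by
      field_simp
      ring
    rw [e1]
    have e2 : (N - 1) / (4 * N) ≤ 1 / 4 := by
      rw [div_le_div_iff₀ (by positivity) (by norm_num)]
      linarith
    have e3 : (N - 1) / (4 * N) * ε ^ 2 ≤ 1 / 4 * ε ^ 2 :=
      mul_le_mul_of_nonneg_right e2 (by positivity)
    linarith
  have t2 : N * (mn n 4 / 6) ≤ 1 / (2 * (N - 2)) := by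
    have e1 : N * (mn n 4 / 6) ≤ N * (3 / (N * (N - 2)) / 6) := by
      refine mul_le_mul_of_nonneg_left ?_ hN0.le
      linarith
    refine e1.trans (le_of_eq ?_)
    field_simp
    norm_num
  have t3 : N * (N - 1) / 2 * (mn n 4 ^ 2 / 4) ≤ 9 * (N - 1) / (8 * N * (N - 2) ^ 2) := by
    have e0 : mn n 4 ^ 2 ≤ (3 / (N * (N - 2))) ^ 2 := pow_le_pow_left₀ hp4 h4le 2
    have e1 : N * (N - 1) / 2 * (mn n 4 ^ 2 / 4) ≤
        N * (N - 1) / 2 * ((3 / (N * (N - 2))) ^ 2 / 4) := by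
      refine mul_le_mul_of_nonneg_left (by linarith) ?_
      have : 0 ≤ N - 1 := by linarith
      positivity
    refine e1.trans (le_of_eq ?_)
    field_simp
    ring
  have t4 : N * (N - 1) / 2 * mn n 6 ^ 2 ≤
      225 * (N - 1) / (2 * N * (N - 2) ^ 2 * (N - 4) ^ 2) := by
    have e0 : mn n 6 ^ 2 ≤ (15 / (N * (N - 2) * (N - 4))) ^ 2 := pow_le_pow_left₀ hp6 h6le 2
    have e1 : N * (N - 1) / 2 * mn n 6 ^ 2 ≤
        N * (N - 1) / 2 * (15 / (N * (N - 2) * (N - 4))) ^ 2 := by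
      refine mul_le_mul_of_nonneg_left e0 ?_
      have : 0 ≤ N - 1 := by linarith
      positivity
    refine e1.trans (le_of_eq ?_)
    field_simp
    norm_num
  unfold EX
  rw [← hNdef]
  have key : N * (mn n 2 / 2 - mn n 4 / 6) -
      N * (N - 1) / 2 * (mn n 2 ^ 2 / 2 + mn n 4 ^ 2 / 4 + mn n 6 ^ 2) =
      (N * (mn n 2 / 2) - N * (N - 1) / 2 * (mn n 2 ^ 2 / 2)) - N * (mn n 4 / 6) -
      N * (N - 1) / 2 * (mn n 4 ^ 2 / 4) - N * (N - 1) / 2 * mn n 6 ^ 2 := by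
    ring
  rw [key]
  linarith

end MP_a3e05c_co.RT
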