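import Pool.Agent.Lib.MP_a3e05c_co.RT.Cube
import Pool.Agent.Lib.MP_a3e05c_co.RT.Alg

/-!
# EULER, block RT: invariance by rotation
-/

set_option autoImplicit false

open Real MeasureTheory Finset

namespace MP_a3e05c_co.RT

private theorem Shift_int {N : ℕ} {u : (Fin N → ℝ) → ℝ} (hc : Continuous u) :
    IntegrableOn u (cube (Fin N)) := by
  have h1 : IsCompact (Set.pi Set.univ fun _ : Fin N => Set.Icc (-(π / 2)) (π / 2)) :=
    isCompact_univ_pi fun _ => isCompact_Icc
  refine (hc.continuousOn.integrableOn_compact h1).mono_set ?_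
  unfold cube I1
  exact Set.pi_mono fun _ _ => Set.Ioc_subset_Icc_self

private theorem Shift_update {N : ℕ} (w : Fin (N + 1)) (t : ℝ) (θ : Fin N → ℝ) (i : Fin N)
    (x : ℝ) : ins w t (Function.update θ i x) = Function.update (ins w t θ) (w.succAbove i) x := by
  funext j
  unfold ins
  rcases eq_or_ne j w with rfl | hj
  · rw [Fin.insertNth_apply_same, Function.update_of_ne (Fin.succAbove_ne j i).symm,
      Fin.insertNth_apply_same]
  · obtain ⟨k, rfl⟩ := Fin.exists_succAbove_eq hj
    rw [Fin.insertNth_apply_succAbove]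
    by_cases hk : k = i
    · subst hk
      rw [Function.update_self, Function.update_self]
    · rw [Function.update_of_ne hk, Function.update_of_ne
        (fun h => hk (Fin.succAbove_right_injective h)), Fin.insertNth_apply_succAbove]

private theorem Shift_update_same {N : ℕ} (w : Fin (N + 1)) (t x : ℝ) (θ : Fin N → ℝ) :
    ins w x θ = Function.update (ins w t θ) w x := by
  funext j
  unfold ins
  rcases eq_or_ne j w with rfl | hj
  · rw [Fin.insertNth_apply_same, Function.update_self]
  · obtain ⟨k, rfl⟩ := Fin.exists_succAbove_eq hj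
    rw [Fin.insertNth_apply_succAbove, Function.update_of_ne hj, Fin.insertNth_apply_succAbove]

private theorem Shift_add {N : ℕ} (w : Fin (N + 1)) (t c : ℝ) (θ : Fin N → ℝ) :
    (fun i => ins w t θ i + c) = ins w (t + c) (fun i => θ i + c) := by
  funext j
  unfold ins
  rcases eq_or_ne j w with rfl | hj
  · rw [Fin.insertNth_apply_same, Fin.insertNth_apply_same]
  · obtain ⟨k, rfl⟩ := Fin.exists_succAbove_eq hj
    rw [Fin.insertNth_apply_succAbove, Fin.insertNth_apply_succAbove]

private theorem Shift_one {g : ℝ → ℝ} (hg : ∀ t, g (t + π) = g t) (c : ℝ) :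
    ∫ t in I1, g (t + c) = ∫ t in I1, g t := by
  have hle : -(π / 2) ≤ π / 2 := by linarith [pi_pos]
  unfold I1
  rw [← intervalIntegral.integral_of_le hle, ← intervalIntegral.integral_of_le hle,
    intervalIntegral.integral_comp_add_right (fun t => g t) c]
  have h1 := Function.Periodic.intervalIntegral_add_eq (f := g) (T := π) hg (-(π / 2) + c)
    (-(π / 2))
  have e1 : -(π / 2) + c + π = π / 2 + c := by ring
  have e2 : -(π / 2) + π = π / 2 := by ring
  rw [e1, e2] at h1
  exact h1

theorem shift_cube {N : ℕ} {u : (Fin N → ℝ) → ℝ} (hc : Continuous u)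
    (hp : ∀ θ i, u (Function.update θ i (θ i + π)) = u θ) (c : ℝ) :
    ∫ θ in cube (Fin N), u (fun i => θ i + c) = ∫ θ in cube (Fin N), u θ := by
  induction N with
  | zero =>
    have h1 : ∀ θ : Fin 0 → ℝ, u (fun i => θ i + c) = u θ := fun θ =>
      congrArg u (Subsingleton.elim _ _)
    simp only [h1]
  | succ N ih =>
    have hc' : Continuous fun θ : Fin (N + 1) → ℝ => u (fun i => θ i + c) :=
      hc.comp (continuous_pi fun i => (continuous_apply i).add continuous_const)
    rw [cube_succ 0 (Shift_int hc'), cube_succ 0 (Shift_int hc)]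
    have h1 : ∀ t, ∫ θ in cube (Fin N), u (fun i => ins 0 t θ i + c) =
        ∫ θ in cube (Fin N), u (ins 0 (t + c) θ) := by
      intro t
      have h2 := ih (u := fun θ => u (ins 0 (t + c) θ)) (hc.comp (continuous_ins 0 (t + c)))
        (fun θ i => by
          show u (ins 0 (t + c) (Function.update θ i (θ i + π))) = u (ins 0 (t + c) θ)
          rw [Shift_update]
          have h3 : θ i = ins 0 (t + c) θ (Fin.succAbove 0 i) := by
            unfold ins
            rw [Fin.insertNth_apply_succAbove]
          rw [h3]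
          exact hp _ _)
      rw [← h2]
      refine integral_congr_ae (Filter.Eventually.of_forall fun θ => ?_)
      show u (fun i => ins 0 t θ i + c) = u (ins 0 (t + c) fun i => θ i + c)
      rw [Shift_add]
    simp only [h1]
    refine Shift_one (g := fun t => ∫ θ in cube (Fin N), u (ins 0 t θ)) (fun t => ?_) c
    refine integral_congr_ae (Filter.Eventually.of_forall fun θ => ?_)
    show u (ins 0 (t + π) θ) = u (ins 0 t θ)
    rw [Shift_update_same 0 t (t + π) θ]
    have h3 : t = ins 0 t θ 0 := by
      unfold ins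
      rw [Fin.insertNth_apply_same]
    have h4 := hp (ins 0 t θ) 0
    rw [← h3] at h4
    exact h4

theorem gauge_cube {N : ℕ} {h : (Fin (N + 1) → ℝ) → ℝ} (hc : Continuous h)
    (hp : ∀ θ i, h (Function.update θ i (θ i + π)) = h θ)
    (ht : ∀ θ c, h (fun i => θ i + c) = h θ) (w : Fin (N + 1)) :
    (∫ θ in cube (Fin (N + 1)), h θ) / π ^ (N + 1) =
      (∫ θ in cube (Fin N), h (ins w 0 θ)) / π ^ N := by
  have h1 : ∀ t, ∫ θ in cube (Fin N), h (ins w t θ) = ∫ θ in cube (Fin N), h (ins w 0 θ) := by
    intro t
    have h2 := shift_cube (u := fun θ => h (ins w 0 θ)) (hc.comp (continuous_ins w 0))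
      (fun θ i => by
        show h (ins w 0 (Function.update θ i (θ i + π))) = h (ins w 0 θ)
        rw [Shift_update]
        have h3 : θ i = ins w 0 θ (Fin.succAbove w i) := by
          unfold ins
          rw [Fin.insertNth_apply_succAbove]
        rw [h3]
        exact hp _ _) (-t)
    rw [← h2]
    refine integral_congr_ae (Filter.Eventually.of_forall fun θ => ?_)
    show h (ins w t θ) = h (ins w 0 fun i => θ i + -t)
    have h4 := Shift_add w t (-t) θ
    rw [add_neg_cancel] at h4
    rw [← h4, ht]
  rw [cube_succ w (Shift_int hc)]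
  simp only [h1]
  have hv : volume.real I1 = π := by
    unfold I1
    rw [Real.volume_real_Ioc_of_le (by linarith [pi_pos])]
    ring
  rw [setIntegral_const, hv, smul_eq_mul, pow_succ]
  have hpi : π ≠ 0 := pi_ne_zero
  field_simp

theorem M_eq (N : ℕ) : M (N + 1) = (∫ θ in cube (Fin N), |F θ|) / π ^ N := by
  have h1 := gauge_cube (N := N) (h := fun θ => |W θ|) (continuous_W.abs)
    (fun θ i => abs_W_update θ i) (fun θ c => by
      show |W (fun i => θ i + c)| = |W θ|
      rw [W_shift]) 0
  unfold M
  rw [h1]
  simp only [F_eq_W]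

end MP_a3e05c_co.RT
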