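import Pool.Agent.Lib.MP_a3e05c_co.RT.Torus
import Pool.Agent.Lib.MP_a3e05c_co.RT.Shift

/-!
# EULER, block RT: the integral formula for regular tournaments
-/

set_option autoImplicit false

open Real MeasureTheory Finset

namespace MP_a3e05c_co.RT

private theorem Peq_deg {N : ℕ} (v : Fin (N + 1)) : KL.deg (hdK (N + 1)) v = N := by
  have h1 : (univ.erase v).card = N := by
    rw [Finset.card_erase_of_mem (Finset.mem_univ v), Finset.card_univ, Fintype.card_fin]
    rfl
  have h2 : KL.deg (hdK (N + 1)) v = (univ.erase v).card := by
    unfold KL.deg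
    refine Finset.card_bij (fun e _ => if e.1.1 = v then e.1.2 else e.1.1) ?_ ?_ ?_
    · intro e he
      obtain ⟨b, hb⟩ := (Finset.mem_filter.1 he).2
      refine Finset.mem_erase.2 ⟨?_, Finset.mem_univ _⟩
      have hlt := e.2
      by_cases h : e.1.1 = v
      · simp only [h, if_true]
        intro h'
        rw [h, h'] at hlt
        exact lt_irrefl _ hlt
      · simp only [h, if_false]
        exact h
    · intro e he e' he' hee
      obtain ⟨b, hb⟩ := (Finset.mem_filter.1 he).2
      obtain ⟨b', hb'⟩ := (Finset.mem_filter.1 he').2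
      have hlt := e.2
      have hlt' := e'.2
      have key : ∀ (f : {p : Fin (N + 1) × Fin (N + 1) // p.1 < p.2}) (c : Bool),
          hdK (N + 1) f c = v → f.1.1 ≠ v → f.1.2 = v := by
        intro f c hc hne
        cases c
        · exact hc
        · exact absurd hc hne
      apply Subtype.ext
      apply Prod.ext
      · by_cases h : e.1.1 = v
        · by_cases h' : e'.1.1 = v
          · rw [h, h']
          · exfalso
            have h2' := key e' b' hb' h'
            simp only [h, h', if_true, if_false] at hee
            rw [h] at hlt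
            rw [h2'] at hlt'
            rw [hee] at hlt
            exact lt_asymm hlt hlt'
        · by_cases h' : e'.1.1 = v
          · exfalso
            have h2 := key e b hb h
            simp only [h, h', if_true, if_false] at hee
            rw [h'] at hlt'
            rw [h2] at hlt
            rw [← hee] at hlt'
            exact lt_asymm hlt hlt'
          · simp only [h, h', if_false] at hee
            exact hee
      · by_cases h : e.1.1 = v
        · by_cases h' : e'.1.1 = v
          · simp only [h, h', if_true] at hee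
            exact hee
          · exfalso
            have h2' := key e' b' hb' h'
            simp only [h, h', if_true, if_false] at hee
            rw [h] at hlt
            rw [h2'] at hlt'
            rw [hee] at hlt
            exact lt_asymm hlt hlt'
        · by_cases h' : e'.1.1 = v
          · exfalso
            have h2 := key e b hb h
            simp only [h, h', if_true, if_false] at hee
            rw [h'] at hlt'
            rw [h2] at hlt
            rw [← hee] at hlt'
            exact lt_asymm hlt hlt'
          · rw [key e b hb h, key e' b' hb' h']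
    · intro u hu
      have hne : u ≠ v := (Finset.mem_erase.1 hu).1
      rcases lt_or_gt_of_ne hne with h | h
      · refine ⟨⟨(u, v), h⟩, Finset.mem_filter.2 ⟨Finset.mem_univ _, false, rfl⟩, ?_⟩
        simp only [hne, if_false]
      · refine ⟨⟨(v, u), h⟩, Finset.mem_filter.2 ⟨Finset.mem_univ _, true, rfl⟩, ?_⟩
        simp only [if_true]
  rw [h2, h1]

private theorem Peq_card (n : ℕ) :
    Fintype.card {p : Fin n × Fin n // p.1 < p.2} = n * (n - 1) / 2 := by
  rw [Fintype.card_subtype, Finset.card_filter, Fintype.sum_prod_type, Finset.sum_comm]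
  have h1 : ∀ y : Fin n, (∑ x : Fin n, if ((x, y) : Fin n × Fin n).1 < (x, y).2 then 1 else 0)
      = (y : ℕ) := by
    intro y
    rw [← Finset.card_filter]
    have h2 : (univ.filter fun x : Fin n => ((x, y) : Fin n × Fin n).1 < (x, y).2) =
        Finset.Iio y := by
      ext x
      simp
    rw [h2, Fin.card_Iio]
  rw [Finset.sum_congr rfl (fun y _ => h1 y), Fin.sum_univ_eq_sum_range (fun i => i) n,
    Finset.sum_range_id]

private theorem Peq_msk {N : ℕ} (θ : Fin (N + 1) → ℝ) :
    msk (univ.erase (0 : Fin (N + 1))) θ = ins 0 0 (fun i => θ i.succ) := by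
  funext v
  unfold msk ins
  refine Fin.cases ?_ (fun i => ?_) v
  · simp
  · rw [if_pos (Finset.mem_erase.2 ⟨Fin.succ_ne_zero i, Finset.mem_univ _⟩)]
    have h := Fin.insertNth_apply_succAbove (α := fun _ => ℝ) (0 : Fin (N + 1)) (0 : ℝ)
      (fun i => θ i.succ) i
    rw [Fin.succAbove_zero] at h
    exact h.symm

theorem P_eq {N : ℕ} (hN : Even N) : P (N + 1) = (∫ θ in cube (Fin N), F θ) / π ^ N := by
  have hl : KL.NoLoop (hdK (N + 1)) := by
    intro e he
    have h := e.2
    have he' : e.1.1 = e.1.2 := he
    rw [he'] at h
    exact lt_irrefl _ h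
  have hev : ∀ v ∈ univ.erase (0 : Fin (N + 1)), Even (KL.deg (hdK (N + 1)) v) := by
    intro v _
    rw [Peq_deg]
    exact hN
  have h1 := torus hl hev
  rw [Om_erase hl (0 : Fin (N + 1))] at h1
  have h2 : ∀ θ : Fin (N + 1) → ℝ,
      (∏ e : {p : Fin (N + 1) × Fin (N + 1) // p.1 < p.2},
        cos (msk (univ.erase (0 : Fin (N + 1))) θ (hdK (N + 1) e true) -
          msk (univ.erase (0 : Fin (N + 1))) θ (hdK (N + 1) e false))) =
        F (fun i : Fin N => θ i.succ) := by
    intro θ
    rw [← F_eq_W 0, ← Peq_msk]
    unfold W
    exact (Finset.prod_subtype (prs (N + 1)) (fun x => by simp [prs])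
      (fun p => cos (msk (univ.erase (0 : Fin (N + 1))) θ p.1 -
        msk (univ.erase (0 : Fin (N + 1))) θ p.2))).symm
  have h3 : (∫ θ in cube (Fin (N + 1)), ∏ e : {p : Fin (N + 1) × Fin (N + 1) // p.1 < p.2},
        cos (msk (univ.erase (0 : Fin (N + 1))) θ (hdK (N + 1) e true) -
          msk (univ.erase (0 : Fin (N + 1))) θ (hdK (N + 1) e false))) =
        π * ∫ θ in cube (Fin N), F θ := by
    simp only [h2]
    have hcont : Continuous fun θ : Fin (N + 1) → ℝ => F (fun i : Fin N => θ i.succ) :=
      continuous_F.comp (continuous_pi fun i => continuous_apply _)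
    rw [cube_succ 0 (integrableOn_cube (C := 1) hcont.measurable fun θ => abs_F_le _)]
    have h4 : ∀ (t : ℝ) (θ : Fin N → ℝ), (fun i : Fin N => ins 0 t θ i.succ) = θ := by
      intro t θ
      funext i
      have h := Fin.insertNth_apply_succAbove (α := fun _ => ℝ) (0 : Fin (N + 1)) t θ i
      rw [Fin.succAbove_zero] at h
      exact h
    simp only [h4]
    rw [setIntegral_const, smul_eq_mul]
    congr 1
    unfold I1
    rw [measureReal_def, Real.volume_Ioc, ENNReal.toReal_ofReal (by linarith [Real.pi_pos])]
    ring
  rw [h3, Peq_card, Fintype.card_fin] at h1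
  unfold P RTn
  rw [h1, pow_succ]
  have hpi : π ≠ 0 := Real.pi_ne_zero
  have h2n : (2 : ℝ) ^ ((N + 1) * (N + 1 - 1) / 2) ≠ 0 := by positivity
  field_simp

end MP_a3e05c_co.RT
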