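import Pool.Agent.Lib.MP_a3e05c_co.RT.MB

/-!
# EULER, block RT: the numbers `q_m`
-/

set_option autoImplicit false

open Real MeasureTheory Finset

namespace MP_a3e05c_co.RT

/-- `q K = cf K * A K / A (K + 3)`, `A m = exp (main m + 1/2)` -/
noncomputable def qq (K : ℕ) : ℝ := cf K * exp (main K - main (K + 3))

private theorem Qn_le_of_sq {a b : ℝ} (h : a ^ 2 ≤ b ^ 2) (hb : 0 ≤ b) : a ≤ b :=
  le_of_abs_le (by rw [← abs_of_nonneg hb]; exact sq_le_sq.1 h)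

private noncomputable def Qn_r (K : ℕ) : ℝ :=
  (((K : ℝ) + 2) * (K + 1) / 8) ^ 2 * (1 / 4) ^ (K + 1) * ((K : ℝ) + 3) ^ (K + 1) / (K : ℝ) ^ K

private theorem Qn_r_nonneg (K : ℕ) : 0 ≤ Qn_r K := by
  unfold Qn_r; positivity

private theorem Qn_cf_pos {K : ℕ} (hK : 1 ≤ K) : 0 < cf K := by
  have hK' : (0 : ℝ) < K := by exact_mod_cast hK
  unfold cf kap
  positivity

private theorem Qn_qq_pos {K : ℕ} (hK : 1 ≤ K) : 0 < qq K :=
  mul_pos (Qn_cf_pos hK) (exp_pos _)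

private theorem Qn_exp_sq {K : ℕ} (hK : 1 ≤ K) :
    exp (main K - main (K + 3)) ^ 2 =
      (π / 2) ^ 3 * ((K : ℝ) + 3) ^ (K + 1) * (K : ℝ) ^ 2 / (K : ℝ) ^ K := by
  have hK' : (0 : ℝ) < K := by exact_mod_cast hK
  have hK3 : (0 : ℝ) < (K : ℝ) + 3 := by linarith
  have hpi := pi_pos
  have ha : 0 < 2 / (π * (K : ℝ)) := by positivity
  have hb : 0 < 2 / (π * ((K : ℝ) + 3)) := by positivity
  have h1 : (2 : ℕ) * (main K - main (K + 3)) =
      log (K : ℝ) - log ((K : ℝ) + 3) + ((K : ℝ) * log (2 / (π * (K : ℝ))) -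
        log (2 / (π * (K : ℝ)))) - ((K + 2 : ℕ) : ℝ) * log (2 / (π * ((K : ℝ) + 3))) := by
    unfold main
    push_cast
    ring
  rw [← exp_nat_mul, h1, exp_sub, exp_add, exp_sub, exp_sub, exp_log hK', exp_log hK3,
    exp_nat_mul, exp_nat_mul, exp_log ha, exp_log hb]
  rw [div_pow, div_pow, mul_pow, mul_pow]
  have e1 : ((K : ℝ) + 3) ^ (K + 2) = ((K : ℝ) + 3) ^ (K + 1) * ((K : ℝ) + 3) := pow_succ _ _
  have e2 : (2 : ℝ) ^ (K + 2) = 2 ^ K * 4 := by rw [pow_add]; norm_num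
  have e3 : π ^ (K + 2) = π ^ K * π ^ 2 := pow_add _ _ _
  rw [e1, e2, e3]
  field_simp
  ring

private theorem Qn_sq {K : ℕ} (hK : 1 ≤ K) :
    qq K ^ 2 = (π / 2) ^ 3 / exp 1 ^ 2 * Qn_r K := by
  have hK' : (0 : ℝ) < K := by exact_mod_cast hK
  have he := exp_pos 1
  unfold qq
  rw [mul_pow, Qn_exp_sq hK]
  unfold cf kap Qn_r
  have e1 : ((1 / 2 : ℝ) ^ (K + 1)) ^ 2 = (1 / 4) ^ (K + 1) := by
    rw [← pow_mul, mul_comm, pow_mul]; norm_num
  rw [mul_pow, div_pow ((1 / 2 : ℝ) ^ (K + 1)), e1]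
  field_simp

private theorem Qn_c0 : (π / 2) ^ 3 / exp 1 ^ 2 ≤ 5246 / 10000 := by
  have h1 : π / 2 ≤ 15708 / 10000 := by
    have := Real.pi_lt_d4
    linarith
  have h2 : (27182 : ℝ) / 10000 ≤ exp 1 := by
    have := Real.exp_one_gt_d9
    linarith
  have hpi := pi_pos
  have h3 : (π / 2) ^ 3 ≤ (15708 / 10000) ^ 3 := pow_le_pow_left₀ (by positivity) h1 3
  have h4 : ((27182 : ℝ) / 10000) ^ 2 ≤ exp 1 ^ 2 := pow_le_pow_left₀ (by positivity) h2 2
  calc (π / 2) ^ 3 / exp 1 ^ 2 ≤ (15708 / 10000) ^ 3 / (27182 / 10000) ^ 2 :=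
        div_le_div₀ (by positivity) h3 (by positivity) h4
    _ ≤ 5246 / 10000 := by norm_num

private theorem Qn_sq_le {K : ℕ} (hK : 1 ≤ K) : qq K ^ 2 ≤ 5246 / 10000 * Qn_r K := by
  rw [Qn_sq hK]
  exact mul_le_mul_of_nonneg_right Qn_c0 (Qn_r_nonneg K)

private theorem Qn_ratio {K : ℕ} (hK : 17 ≤ K) : Qn_r (K + 1) ≤ 9 / 25 * Qn_r K := by
  have hK' : (17 : ℝ) ≤ K := by exact_mod_cast hK
  have hK0 : (0 : ℝ) < K := by linarith
  set k : ℝ := (K : ℝ) with hk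
  -- the bracket
  have hbr : ((k + 4) * k) ^ K * ((k + 3) * (k + 1) + 3 * k) ≤
      ((k + 3) * (k + 1)) ^ K * ((k + 3) * (k + 1)) := by
    have hA : 0 < (k + 3) * (k + 1) := by positivity
    have hB : (k + 4) * k = (k + 3) * (k + 1) - 3 := by ring
    set A := (k + 3) * (k + 1) with hAdef
    have hx0 : 0 ≤ 3 / A := by positivity
    have h1 : 1 + (K : ℝ) * (3 / A) ≤ (1 + 3 / A) ^ K :=
      one_add_mul_le_pow (by linarith) K
    have h2 : (A - 3) * (A + 3) ≤ A * A := by nlinarith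
    have hA3 : 0 ≤ A - 3 := by rw [hAdef]; nlinarith
    have h3 : (A - 3) ^ K * (A + 3) ^ K ≤ A ^ K * A ^ K := by
      rw [← mul_pow, ← mul_pow]
      exact pow_le_pow_left₀ (mul_nonneg hA3 (by positivity)) h2 K
    have h4 : (1 + 3 / A) ^ K * A ^ K = (A + 3) ^ K := by
      rw [← mul_pow]
      congr 1
      field_simp
    have hAK : 0 < A ^ K := by positivity
    have h5 : A ^ K * (A + 3 * k) ≤ (A + 3) ^ K * A := by
      calc A ^ K * (A + 3 * k) = (1 + k * (3 / A)) * A ^ K * A := by field_simp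
        _ ≤ (1 + 3 / A) ^ K * A ^ K * A := by
            refine mul_le_mul_of_nonneg_right (mul_le_mul_of_nonneg_right ?_ hAK.le) hA.le
            exact h1
        _ = (A + 3) ^ K * A := by rw [h4]
    rw [hB]
    have h6 : (A - 3) ^ K * (A + 3 * k) * A ^ K ≤ A ^ K * A * A ^ K := by
      calc (A - 3) ^ K * (A + 3 * k) * A ^ K = (A - 3) ^ K * (A ^ K * (A + 3 * k)) := by ring
        _ ≤ (A - 3) ^ K * ((A + 3) ^ K * A) :=
            mul_le_mul_of_nonneg_left h5 (pow_nonneg hA3 K)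
        _ = (A - 3) ^ K * (A + 3) ^ K * A := by ring
        _ ≤ A ^ K * A ^ K * A := mul_le_mul_of_nonneg_right h3 hA.le
        _ = A ^ K * A * A ^ K := by ring
    exact le_of_mul_le_mul_right h6 hAK
  have hpoly : 25 * (k + 3) ^ 2 * (k + 4) ^ 2 ≤ 36 * (k + 1) ^ 2 * ((k + 3) * (k + 1) + 3 * k) := by
    have ht : 0 ≤ k - 17 := by linarith
    have e : 36 * (k + 1) ^ 2 * ((k + 3) * (k + 1) + 3 * k) - 25 * (k + 3) ^ 2 * (k + 4) ^ 2 =
        11 * (k - 17) ^ 4 + 722 * (k - 17) ^ 3 + 16571 * (k - 17) ^ 2 + 149880 * (k - 17) +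
          383904 := by ring
    have : 0 ≤ 11 * (k - 17) ^ 4 + 722 * (k - 17) ^ 3 + 16571 * (k - 17) ^ 2 +
        149880 * (k - 17) + 383904 := by positivity
    linarith
  unfold Qn_r
  push_cast
  rw [← hk]
  have hKK : 0 < k ^ K := by positivity
  have hK1 : 0 < (k + 1) ^ (K + 1) := by positivity
  rw [show k + 1 + 2 = k + 3 by ring, show k + 1 + 1 = k + 2 by ring,
    show k + 1 + 3 = k + 4 by ring]
  rw [div_le_iff₀ hK1]
  have e5 : 9 / 25 * (((k + 2) * (k + 1) / 8) ^ 2 * (1 / 4) ^ (K + 1) * (k + 3) ^ (K + 1) /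
      k ^ K) * (k + 1) ^ (K + 1) =
      (9 / 25 * (((k + 2) * (k + 1) / 8) ^ 2 * (1 / 4) ^ (K + 1) * (k + 3) ^ (K + 1)) *
        (k + 1) ^ (K + 1)) / k ^ K := by ring
  rw [e5, le_div_iff₀ hKK]
  have hP : ((k + 4) * k) ^ K * (25 * (k + 3) ^ 2 * (k + 4) ^ 2) ≤
      ((k + 3) * (k + 1)) ^ K * ((k + 3) * (k + 1)) * (36 * (k + 1) ^ 2) := by
    calc ((k + 4) * k) ^ K * (25 * (k + 3) ^ 2 * (k + 4) ^ 2)
        ≤ ((k + 4) * k) ^ K * (36 * (k + 1) ^ 2 * ((k + 3) * (k + 1) + 3 * k)) :=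
          mul_le_mul_of_nonneg_left hpoly (by positivity)
      _ = ((k + 4) * k) ^ K * ((k + 3) * (k + 1) + 3 * k) * (36 * (k + 1) ^ 2) := by ring
      _ ≤ ((k + 3) * (k + 1)) ^ K * ((k + 3) * (k + 1)) * (36 * (k + 1) ^ 2) :=
          mul_le_mul_of_nonneg_right hbr (by positivity)
  have e6 : ((k + 3) * (k + 2) / 8) ^ 2 * (1 / 4) ^ (K + 1 + 1) * (k + 4) ^ (K + 1 + 1) * k ^ K =
      (((k + 4) * k) ^ K * (25 * (k + 3) ^ 2 * (k + 4) ^ 2)) *
        ((k + 2) ^ 2 * (1 / 4) ^ (K + 1) / 6400) := by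
    rw [mul_pow (k + 4) k K]
    rw [pow_succ (k + 4) (K + 1), pow_succ (k + 4) K, pow_succ (1 / 4 : ℝ) (K + 1)]
    ring
  have e7 : 9 / 25 * (((k + 2) * (k + 1) / 8) ^ 2 * (1 / 4) ^ (K + 1) * (k + 3) ^ (K + 1)) *
        (k + 1) ^ (K + 1) =
      (((k + 3) * (k + 1)) ^ K * ((k + 3) * (k + 1)) * (36 * (k + 1) ^ 2)) *
        ((k + 2) ^ 2 * (1 / 4) ^ (K + 1) / 6400) := by
    rw [mul_pow (k + 3) (k + 1) K]
    rw [pow_succ (k + 3) K, pow_succ (k + 1) K]
    ring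
  rw [e6, e7]
  exact mul_le_mul_of_nonneg_right hP (by positivity)

private theorem Qn_r_small {K : ℕ} (hK : 17 ≤ K) :
    5246 / 10000 * Qn_r K ≤ (1 / 400) ^ 2 * (9 / 25) ^ (K - 17) := by
  induction K, hK using Nat.le_induction with
  | base =>
    unfold Qn_r
    norm_num
  | succ K hK ih =>
    have h1 := Qn_ratio hK
    have h2 : K + 1 - 17 = (K - 17) + 1 := by omega
    rw [h2, pow_succ]
    calc 5246 / 10000 * Qn_r (K + 1) ≤ 5246 / 10000 * (9 / 25 * Qn_r K) := by gcongr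
      _ = 5246 / 10000 * Qn_r K * (9 / 25) := by ring
      _ ≤ (1 / 400) ^ 2 * (9 / 25) ^ (K - 17) * (9 / 25) := by gcongr
      _ = (1 / 400) ^ 2 * ((9 / 25) ^ (K - 17) * (9 / 25)) := by ring

theorem qq_small {K : ℕ} (hK : 17 ≤ K) : qq K ≤ (1 / 400) * (3 / 5) ^ (K - 17) := by
  have h1 := (Qn_sq_le (by omega : 1 ≤ K)).trans (Qn_r_small hK)
  have h2 : (1 / 400 : ℝ) ^ 2 * (9 / 25) ^ (K - 17) = ((1 / 400) * (3 / 5) ^ (K - 17)) ^ 2 := by
    rw [mul_pow, ← pow_mul, mul_comm (K - 17) 2, pow_mul]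
    norm_num
  rw [h2] at h1
  exact Qn_le_of_sq h1 (by positivity)

theorem qq_le {K : ℕ} (hK : 1 ≤ K) : qq K ≤ 4 / 5 := by
  rcases le_or_gt 17 K with h | h
  · refine (qq_small h).trans ?_
    have h1 : (3 / 5 : ℝ) ^ (K - 17) ≤ 1 := pow_le_one₀ (by norm_num) (by norm_num)
    linarith
  · have h1 : qq K ^ 2 ≤ (4 / 5) ^ 2 := by
      refine (Qn_sq_le hK).trans ?_
      unfold Qn_r
      interval_cases K <;> norm_num
    exact Qn_le_of_sq h1 (by norm_num)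

private theorem Qn_base {x : ℝ} (h : 1 / 25 ≤ exp x ^ 2) : 1 ≤ 5 * exp x := by
  have h1 : (1 : ℝ) ^ 2 ≤ (5 * exp x) ^ 2 := by rw [mul_pow]; linarith
  exact Qn_le_of_sq h1 (by positivity)

private theorem Qn_step {K : ℕ} (hK : 1 ≤ K) (h : M K ≤ 5 * exp (main K + 1 / 2)) :
    M (K + 3) ≤ (1 + 5 * qq K) * exp (main (K + 3) + 1 / 2) := by
  have h1 := M_rec hK
  have h2 : cf K * M K ≤ cf K * (5 * exp (main K + 1 / 2)) :=
    mul_le_mul_of_nonneg_left h (Qn_cf_pos hK).le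
  have h3 : exp (main K + 1 / 2) = exp (main K - main (K + 3)) * exp (main (K + 3) + 1 / 2) := by
    rw [← exp_add]
    congr 1
    ring
  rw [h3] at h2
  have h4 : (1 + 5 * qq K) * exp (main (K + 3) + 1 / 2) = exp (main (K + 3) + 1 / 2) +
      cf K * (5 * (exp (main K - main (K + 3)) * exp (main (K + 3) + 1 / 2))) := by
    unfold qq
    ring
  rw [h4]
  linarith

theorem M_le {m : ℕ} (hm : 1 ≤ m) : M m ≤ 5 * exp (main m + 1 / 2) := by
  induction m using Nat.strong_induction_on with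
  | _ m ih =>
    rcases lt_or_ge m 4 with h | h
    · obtain ⟨b1, b2, b3⟩ := M_zero_one_two
      have hpi := pi_pos
      have hpi4 := Real.pi_lt_d4
      have hpi' : π ≤ 4 := Real.pi_le_four
      interval_cases m
      · refine b1.trans (Qn_base ?_)
        have h1 : main 1 + 1 / 2 = 0 := by
          unfold main
          norm_num
        rw [h1, exp_zero]
        norm_num
      · refine b2.trans (Qn_base ?_)
        have h1 : (2 : ℕ) * (main 2 + 1 / 2) = log 2 + log (2 / (π * 2)) := by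
          unfold main
          push_cast
          ring
        rw [← exp_nat_mul, h1, exp_add, exp_log (by norm_num), exp_log (by positivity)]
        rw [show (2 : ℝ) * (2 / (π * 2)) = 2 / π by field_simp]
        rw [le_div_iff₀ hpi]
        linarith
      · refine b3.trans (Qn_base ?_)
        have h1 : (2 : ℕ) * (main 3 + 1 / 2) = log 3 + (2 : ℕ) * log (2 / (π * 3)) := by
          unfold main
          push_cast
          ring
        rw [← exp_nat_mul, h1, exp_add, exp_log (by norm_num), exp_nat_mul,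
          exp_log (by positivity)]
        rw [show (3 : ℝ) * (2 / (π * 3)) ^ 2 = 4 / (3 * π ^ 2) by field_simp; ring]
        rw [le_div_iff₀ (by positivity)]
        nlinarith
    · obtain ⟨K, rfl⟩ : ∃ K, m = K + 3 := ⟨m - 3, by omega⟩
      have hK : 1 ≤ K := by omega
      have h1 := Qn_step hK (ih K (by omega) hK)
      have h2 := qq_le hK
      refine h1.trans (mul_le_mul_of_nonneg_right (by linarith) (exp_pos _).le)

theorem M_le_of_large {m : ℕ} (hm : 20 ≤ m) : M m ≤ (81 / 80) * exp (main m + 1 / 2) := by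
  obtain ⟨K, rfl⟩ : ∃ K, m = K + 3 := ⟨m - 3, by omega⟩
  have hK : 17 ≤ K := by omega
  have h1 := Qn_step (by omega : 1 ≤ K) (M_le (by omega))
  have h2 := qq_small hK
  have h3 : (3 / 5 : ℝ) ^ (K - 17) ≤ 1 := pow_le_one₀ (by norm_num) (by norm_num)
  refine h1.trans (mul_le_mul_of_nonneg_right (by linarith) (exp_pos _).le)

end MP_a3e05c_co.RT
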