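import Pool.Agent.Lib.MP_a3e05c_co.RT.Zlow

/-!
# EULER, block RT: lower bound for `n log Z`
-/

set_option autoImplicit false

open Real MeasureTheory Finset

namespace MP_a3e05c_co.RT

private theorem Zlog_pow (m : ℕ) (hm : 11 ≤ m) :
    (2 * ((m : ℝ) + 1) - 2.8) * ((m : ℝ) + 1) * (400 / 761 : ℝ) ^ (m + 1) ≤ 0.14 := by
  induction m, hm using Nat.le_induction with
  | base => norm_num
  | succ k hk ih =>
    have hk' : (11 : ℝ) ≤ k := by exact_mod_cast hk
    have hp : (0 : ℝ) < (400 / 761 : ℝ) ^ (k + 1) := by positivity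
    refine le_trans ?_ ih
    rw [pow_succ (400 / 761 : ℝ) (k + 1)]
    push_cast
    have key : (2 * ((k : ℝ) + 1 + 1) - 2.8) * ((k : ℝ) + 1 + 1) * (400 / 761) ≤
        (2 * ((k : ℝ) + 1) - 2.8) * ((k : ℝ) + 1) := by nlinarith
    calc (2 * ((k : ℝ) + 1 + 1) - 2.8) * ((k : ℝ) + 1 + 1) *
          ((400 / 761 : ℝ) ^ (k + 1) * (400 / 761))
        = ((2 * ((k : ℝ) + 1 + 1) - 2.8) * ((k : ℝ) + 1 + 1) * (400 / 761)) *
          (400 / 761 : ℝ) ^ (k + 1) := by ring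
      _ ≤ ((2 * ((k : ℝ) + 1) - 2.8) * ((k : ℝ) + 1)) * (400 / 761 : ℝ) ^ (k + 1) :=
          mul_le_mul_of_nonneg_right key hp.le

private theorem Zlog_cos_pos : 0 < cos aa := by
  unfold aa; exact cos_arctan_pos _

private theorem Zlog_cos_sq : cos aa ^ 2 = 400 / 761 := by
  unfold aa; rw [cos_sq_arctan]; norm_num

private theorem Zlog_sin : sin aa = 19 / 20 * cos aa := by
  unfold aa
  rw [sin_arctan, cos_arctan]; ring

private theorem Zlog_delta (m : ℕ) :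
    2 * cos aa ^ (2 * m + 3) / ((2 * m + 3) * sin aa) =
      40 / 19 * (400 / 761 : ℝ) ^ (m + 1) / (2 * m + 3) := by
  have hc := Zlog_cos_pos
  have h1 : cos aa ^ (2 * m + 3) = (400 / 761 : ℝ) ^ (m + 1) * cos aa := by
    rw [← Zlog_cos_sq, ← pow_mul, ← pow_succ]
    congr 1
  have h2 : (2 * (m : ℝ) + 3) ≠ 0 := by positivity
  rw [h1, Zlog_sin]
  field_simp
  ring

theorem log_mo_ge {m : ℕ} (hm : 11 ≤ m) {n : ℕ} (hn : n = 2 * m + 1) :
    (n : ℝ) * (log π - log (π * (n + 1) / 2) / 2) - (n : ℝ) / (4 * (n + 1)) - 1 / (20 * n) ≤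
      (n : ℝ) * log (mo n 0) := by
  have hm' : (11 : ℝ) ≤ m := by exact_mod_cast hm
  have hnr : (n : ℝ) = 2 * m + 1 := by rw [hn]; push_cast; ring
  have hb := cb_ge (k := m + 1) (by omega)
  have hz := mo_zero_ge m
  rw [← hn, Zlog_delta] at hz
  push_cast at hb
  set k : ℝ := (m : ℝ) + 1 with hk
  have hk12 : (12 : ℝ) ≤ k := by rw [hk]; linarith
  have hk0 : 0 < k := by linarith
  have hpi := pi_gt_d2
  have hpi0 := pi_pos
  set B : ℝ := π * (exp (-(1 / (8 * k))) / √(π * k)) with hB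
  have hsq0 : 0 < √(π * k) := Real.sqrt_pos.mpr (by positivity)
  have hB0 : 0 < B := by rw [hB]; positivity
  have hX : (37.68 : ℝ) ≤ π * k := by nlinarith
  have hs : √(π * k) ≤ 0.163 * (π * k) := by
    apply Real.sqrt_le_iff.mpr
    constructor
    · positivity
    · nlinarith
  have hE : (95 / 96 : ℝ) ≤ exp (-(1 / (8 * k))) := by
    have h1 : 1 / (8 * k) ≤ 1 / 96 := by
      apply one_div_le_one_div_of_le (by norm_num)
      linarith
    have h2 := add_one_le_exp (-(1 / (8 * k)))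
    linarith
  have hBlow : (95 / 96) / (0.163 * k) ≤ B := by
    rw [div_le_iff₀ (by positivity), hB]
    have h1 : π * (exp (-(1 / (8 * k))) / √(π * k)) * (0.163 * k) =
        exp (-(1 / (8 * k))) * ((0.163 * (π * k)) / √(π * k)) := by ring
    rw [h1]
    have h2 : 1 ≤ (0.163 * (π * k)) / √(π * k) := by
      rw [le_div_iff₀ hsq0]; linarith
    nlinarith [exp_pos (-(1 / (8 * k)))]
  have hn23 : (23 : ℝ) ≤ n := by rw [hnr]; linarith
  have hn0 : (0 : ℝ) < n := by linarith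
  -- the error term
  have hδ : 40 / 19 * (400 / 761 : ℝ) ^ (m + 1) / (2 * m + 3) ≤ B * (1 / (20 * n ^ 2 + 1)) := by
    have hq := Zlog_pow m hm
    rw [← hk] at hq
    have hqp : (0 : ℝ) < (400 / 761 : ℝ) ^ (m + 1) := by positivity
    have h1 : (95 / 96) / (0.163 * k) * (1 / (20 * (n : ℝ) ^ 2 + 1)) ≤
        B * (1 / (20 * n ^ 2 + 1)) := by
      apply mul_le_mul_of_nonneg_right hBlow; positivity
    refine le_trans ?_ h1
    have h2 : (95 / 96) / (0.163 * k) * (1 / (20 * (n : ℝ) ^ 2 + 1)) =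
        (95 / 96) / ((0.163 * k) * (20 * (n : ℝ) ^ 2 + 1)) := by
      field_simp
    rw [h2, div_le_div_iff₀ (by positivity) (by positivity)]
    have h3 : 20 * (n : ℝ) ^ 2 + 1 ≤ 20 * ((2 * k - 2.8) * (2 * (m : ℝ) + 3)) := by
      rw [hnr, hk]; nlinarith
    have h4 : (0 : ℝ) < 2 * (m : ℝ) + 3 := by positivity
    calc 40 / 19 * (400 / 761 : ℝ) ^ (m + 1) * (0.163 * k * (20 * (n : ℝ) ^ 2 + 1))
        ≤ 40 / 19 * (400 / 761 : ℝ) ^ (m + 1) *
          (0.163 * k * (20 * ((2 * k - 2.8) * (2 * (m : ℝ) + 3)))) := by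
          apply mul_le_mul_of_nonneg_left _ (by positivity)
          apply mul_le_mul_of_nonneg_left h3 (by positivity)
      _ = (40 / 19 * 0.163 * 20 * ((2 * k - 2.8) * k * (400 / 761 : ℝ) ^ (m + 1))) *
          (2 * (m : ℝ) + 3) := by ring
      _ ≤ 95 / 96 * (2 * (m : ℝ) + 3) := by
          apply mul_le_mul_of_nonneg_right _ h4.le
          nlinarith
  have hmain : B * (1 - 1 / (20 * (n : ℝ) ^ 2 + 1)) ≤ mo n 0 := by
    have h1 : B ≤ π * KL.bb (m + 1) := by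
      rw [hB]; exact mul_le_mul_of_nonneg_left hb hpi0.le
    have h2 : B * (1 - 1 / (20 * (n : ℝ) ^ 2 + 1)) =
        B - B * (1 / (20 * (n : ℝ) ^ 2 + 1)) := by ring
    rw [h2]; linarith
  have hτ : 1 - 1 / (20 * (n : ℝ) ^ 2 + 1) = (20 * (n : ℝ) ^ 2) / (20 * (n : ℝ) ^ 2 + 1) := by
    field_simp; ring
  have hτ0 : 0 < 1 - 1 / (20 * (n : ℝ) ^ 2 + 1) := by rw [hτ]; positivity
  have hlog1 : log (B * (1 - 1 / (20 * (n : ℝ) ^ 2 + 1))) ≤ log (mo n 0) :=
    log_le_log (by positivity) hmain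
  rw [log_mul hB0.ne' hτ0.ne'] at hlog1
  have hlog2 : -(1 / (20 * (n : ℝ) ^ 2)) ≤ log (1 - 1 / (20 * (n : ℝ) ^ 2 + 1)) := by
    have := one_sub_inv_le_log_of_pos hτ0
    have h3 : 1 - (1 - 1 / (20 * (n : ℝ) ^ 2 + 1))⁻¹ = -(1 / (20 * (n : ℝ) ^ 2)) := by
      rw [hτ]; field_simp; ring
    rw [h3] at this; exact this
  have hlogB : log B = log π - log (π * k) / 2 - 1 / (8 * k) := by
    rw [hB, log_mul hpi0.ne' (by positivity), log_div (exp_pos _).ne' hsq0.ne', log_exp,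
      log_sqrt (by positivity)]
    ring
  have hpk : π * ((n : ℝ) + 1) / 2 = π * k := by rw [hnr, hk]; ring
  have h8k : 4 * ((n : ℝ) + 1) = 8 * k := by rw [hnr, hk]; ring
  rw [hpk, h8k]
  have hfin : log π - log (π * k) / 2 - 1 / (8 * k) - 1 / (20 * (n : ℝ) ^ 2) ≤ log (mo n 0) := by
    linarith
  have := mul_le_mul_of_nonneg_left hfin hn0.le
  refine le_trans (le_of_eq ?_) this
  field_simp

end MP_a3e05c_co.RT
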