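import Pool.Agent.Lib.MP_a3e05c_co.RT.EXlow
import Pool.Agent.Lib.MP_a3e05c_co.RT.Zlog
import Pool.Agent.Lib.MP_a3e05c_co.RT.AlgN
import Pool.Agent.Lib.MP_a3e05c_co.RT.Qn
import Pool.Agent.Lib.MP_a3e05c_co.RT.Peq

/-!
# EULER, block RT: the lower bound
-/

set_option autoImplicit false

open Real MeasureTheory Finset

namespace MP_a3e05c_co.RT

private theorem Fin_arc_le (n : ℕ) (hn : 1 ≤ n) :
    (n : ℝ) / √(2 * π) * (mo n 0 ^ n * exp (EX n)) ≤ ∫ θ in D (n - 1), F θ := by
  obtain ⟨N, rfl⟩ : ∃ N, n = N + 1 := ⟨n - 1, by omega⟩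
  have h1 := arc_ge N
  have h2 := jensen (N + 1) hn
  have h3 : (0 : ℝ) ≤ ((N : ℝ) + 1) / √(2 * π) := by positivity
  have h4 := mul_le_mul_of_nonneg_left h2 h3
  rw [Nat.add_sub_cancel]
  push_cast
  exact h4.trans h1

/-- the part of the arc, relative to `exp (main n)` -/
theorem arc_final {n : ℕ} (hn : Odd n) (h : 23 ≤ n) :
    exp (main n + 1 / (20 * n)) ≤ (∫ θ in D (n - 1), F θ) / π ^ (n - 1) := by
  obtain ⟨m, hm⟩ := hn
  have hm11 : 11 ≤ m := by omega
  have hpi : 0 < π := pi_pos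
  have hn0 : (0 : ℝ) < n := by
    have : 0 < n := by omega
    exact_mod_cast this
  have hmo := mo_pos n
  rw [le_div_iff₀ (by positivity)]
  refine le_trans ?_ (Fin_arc_le n (by omega))
  have hs : (0 : ℝ) < √(2 * π) := by positivity
  have hR : (n : ℝ) / √(2 * π) * (mo n 0 ^ n * exp (EX n)) =
      exp (log n - log (2 * π) / 2 + ((n : ℝ) * log (mo n 0) + EX n)) := by
    have e1 : exp (log n) = (n : ℝ) := exp_log hn0
    have e2 : exp (log (2 * π) / 2) = √(2 * π) := by
      rw [← log_sqrt (by positivity), exp_log hs]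
    have e3 : exp ((n : ℝ) * log (mo n 0)) = mo n 0 ^ n := by
      rw [← log_pow, exp_log (by positivity)]
    rw [exp_add, exp_sub, exp_add, e1, e2, e3]
  have hP : π ^ (n - 1) = exp (((n : ℝ) - 1) * log π) := by
    have e : ((n - 1 : ℕ) : ℝ) = (n : ℝ) - 1 := by
      rw [Nat.cast_sub (by omega)]
      simp
    rw [← e, ← log_pow, exp_log (by positivity)]
  rw [hR, hP, ← exp_add, exp_le_exp]
  have h1 := log_mo_ge hm11 hm
  have h2 := EX_ge hm11 hm
  have h3 := alg_final (n := n) h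
  linarith

private theorem Fin_exp_half : exp (1 / 2 : ℝ) ≤ 33 / 20 := by
  have h1 : exp (1 / 2 : ℝ) ^ 2 = exp 1 := by
    rw [← exp_nat_mul]
    norm_num
  have h2 := exp_one_lt_d9
  have h3 := exp_pos (1 / 2 : ℝ)
  nlinarith

private theorem Fin_pow (k : ℕ) : (3 / 5 : ℝ) ^ k * ((k : ℝ) + 23) ≤ 23 := by
  induction k with
  | zero => norm_num
  | succ k ih =>
    have h0 : (0 : ℝ) < (3 / 5 : ℝ) ^ k := by positivity
    have hk : (0 : ℝ) ≤ (k : ℝ) := Nat.cast_nonneg k
    calc (3 / 5 : ℝ) ^ (k + 1) * (((k + 1 : ℕ) : ℝ) + 23)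
        = (3 / 5 : ℝ) ^ k * (3 / 5 * ((k : ℝ) + 24)) := by
          push_cast
          ring
      _ ≤ (3 / 5 : ℝ) ^ k * ((k : ℝ) + 23) := by
          apply mul_le_mul_of_nonneg_left _ h0.le
          linarith
      _ ≤ 23 := ih

theorem out_final {n : ℕ} (h : 23 ≤ n) :
    (∫ θ in cube (Fin (n - 1)) \ D (n - 1), |F θ|) / π ^ (n - 1) ≤
      exp (main n) * (1 / (25 * n)) := by
  obtain ⟨k, rfl⟩ : ∃ k, n = k + 23 := ⟨n - 23, by omega⟩
  have hpi : 0 < π := pi_pos
  rw [div_le_iff₀ (by positivity)]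
  have h1 := out_le (K := k + 20) (by omega)
  have h2 := M_le_of_large (m := k + 20) (by omega)
  have h3 := qq_small (K := k + 20) (by omega)
  have hcf : 0 ≤ cf (k + 20) := by
    unfold cf kap
    positivity
  have e1 : k + 23 - 1 = k + 20 + 2 := by omega
  rw [e1]
  refine h1.trans ?_
  rw [mul_comm (π ^ (k + 20 + 2))]
  refine mul_le_mul_of_nonneg_right ?_ (by positivity)
  have h4 : ((((k + 20 : ℕ) : ℝ) + 2) * (((k + 20 : ℕ) : ℝ) + 1) / 8 * kap (k + 20)) *
      M (k + 20) = cf (k + 20) * M (k + 20) := rfl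
  rw [h4]
  have h5 : cf (k + 20) * M (k + 20) ≤
      81 / 80 * exp (1 / 2) * qq (k + 20) * exp (main (k + 23)) := by
    calc cf (k + 20) * M (k + 20)
        ≤ cf (k + 20) * (81 / 80 * exp (main (k + 20) + 1 / 2)) :=
          mul_le_mul_of_nonneg_left h2 hcf
      _ = 81 / 80 * exp (1 / 2) * qq (k + 20) * exp (main (k + 23)) := by
          have e2 : exp (main (k + 20) + 1 / 2) = exp (1 / 2) *
              (exp (main (k + 20) - main (k + 20 + 3)) * exp (main (k + 23))) := by
            rw [← exp_add, ← exp_add]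
            congr 1
            have e3 : k + 20 + 3 = k + 23 := by omega
            rw [e3]
            ring
          rw [e2]
          unfold qq
          ring
  refine h5.trans ?_
  rw [mul_comm (exp (main (k + 23)))]
  refine mul_le_mul_of_nonneg_right ?_ (exp_pos _).le
  have e4 : k + 20 - 17 = k + 3 := by omega
  rw [e4] at h3
  have h6 := Fin_exp_half
  have h7 := Fin_pow k
  have hk : (0 : ℝ) ≤ (k : ℝ) := Nat.cast_nonneg k
  have h0 : (0 : ℝ) < (3 / 5 : ℝ) ^ k := by positivity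
  have he := exp_pos (1 / 2 : ℝ)
  have h8 : 81 / 80 * exp (1 / 2) * qq (k + 20) ≤
      81 / 80 * (33 / 20) * ((1 / 400) * (3 / 5) ^ (k + 3)) := by
    calc 81 / 80 * exp (1 / 2) * qq (k + 20)
        ≤ 81 / 80 * exp (1 / 2) * ((1 / 400) * (3 / 5) ^ (k + 3)) :=
          mul_le_mul_of_nonneg_left h3 (by positivity)
      _ ≤ _ := by
          apply mul_le_mul_of_nonneg_right _ (by positivity)
          linarith
  refine h8.trans ?_
  rw [le_div_iff₀ (by positivity)]
  push_cast
  rw [pow_add]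
  nlinarith

/-- **Lower bound for the number of regular tournaments.** -/
theorem P_ge {n : ℕ} (hn : Odd n) (h : 23 ≤ n) : exp (main n) ≤ P n := by
  have hpi : 0 < π := pi_pos
  have hn0 : (0 : ℝ) < n := by
    have : 0 < n := by omega
    exact_mod_cast this
  have hA := arc_final hn h
  have hB := out_final h
  have hE : Even (n - 1) := by
    obtain ⟨m, hm⟩ := hn
    exact ⟨m, by omega⟩
  have hP := P_eq hE
  have e1 : n - 1 + 1 = n := by omega
  rw [e1] at hP
  have hint : IntegrableOn (F (N := n - 1)) (cube (Fin (n - 1))) :=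
    integrableOn_cube continuous_F.measurable (C := 1) abs_F_le
  have hD : D (n - 1) ⊆ cube (Fin (n - 1)) := fun θ hθ => hθ.1
  have hsplit : ∫ θ in cube (Fin (n - 1)), F θ =
      (∫ θ in D (n - 1), F θ) + ∫ θ in cube (Fin (n - 1)) \ D (n - 1), F θ := by
    have h1 := setIntegral_union (μ := volume) (f := F (N := n - 1))
      (s := D (n - 1)) (t := cube (Fin (n - 1)) \ D (n - 1)) Set.disjoint_sdiff_right
      (meas_cube.diff (meas_D _)) (hint.mono_set hD) (hint.mono_set Set.sdiff_subset)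
    rw [Set.union_sdiff_cancel hD] at h1
    exact h1
  have habs : -(∫ θ in cube (Fin (n - 1)) \ D (n - 1), |F θ|) ≤
      ∫ θ in cube (Fin (n - 1)) \ D (n - 1), F θ := by
    have h1 : |∫ θ in cube (Fin (n - 1)) \ D (n - 1), F θ| ≤
        ∫ θ in cube (Fin (n - 1)) \ D (n - 1), |F θ| := abs_integral_le_integral_abs
    linarith [neg_abs_le (∫ θ in cube (Fin (n - 1)) \ D (n - 1), F θ)]
  have hge : (∫ θ in D (n - 1), F θ) / π ^ (n - 1) -
      (∫ θ in cube (Fin (n - 1)) \ D (n - 1), |F θ|) / π ^ (n - 1) ≤ P n := by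
    rw [hP, hsplit, ← sub_div]
    apply div_le_div_of_nonneg_right _ (by positivity)
    linarith
  have hexp : exp (main n) * (1 + 1 / (20 * n)) ≤ exp (main n + 1 / (20 * n)) := by
    rw [exp_add]
    apply mul_le_mul_of_nonneg_left _ (exp_pos _).le
    linarith [add_one_le_exp (1 / (20 * (n : ℝ)))]
  have hcmp : exp (main n) * (1 / (25 * n)) ≤ exp (main n) * (1 / (20 * n)) := by
    apply mul_le_mul_of_nonneg_left _ (exp_pos _).le
    apply one_div_le_one_div_of_le (by positivity)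
    linarith
  have : exp (main n) * (1 + 1 / (20 * n)) = exp (main n) + exp (main n) * (1 / (20 * n)) := by
    ring
  linarith

end MP_a3e05c_co.RT
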