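import Pool.Agent.Lib.MP_a3e05c_co.RT.Defs

/-!
# EULER, block RT: translation invariant functions on `ℝ^(N+1)`
-/

set_option autoImplicit false

open Real MeasureTheory Finset
open scoped ENNReal

namespace MP_a3e05c_co.RT

private theorem GaugeR_meas {N : ℕ} (w : Fin (N + 1)) (t : ℝ) :
    Measurable (fun θ : Fin N → ℝ => ins w t θ) := by
  have h := (MeasurableEquiv.piFinSuccAbove (fun _ : Fin (N + 1) => ℝ) w).symm.measurable
  exact h.comp (measurable_const.prodMk measurable_id)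

private theorem GaugeR_ins {N : ℕ} (w : Fin (N + 1)) (t : ℝ) (θ : Fin N → ℝ) :
    ins w t (fun i => θ i + t) = fun i => ins w 0 θ i + t := by
  funext i
  unfold ins
  refine Fin.succAboveCases w ?_ (fun j => ?_) i
  · rw [Fin.insertNth_apply_same, Fin.insertNth_apply_same, zero_add]
  · rw [Fin.insertNth_apply_succAbove, Fin.insertNth_apply_succAbove]

private theorem GaugeR_sum {N : ℕ} (w : Fin (N + 1)) (t : ℝ) (θ : Fin N → ℝ) :
    ∑ i, ins w t θ i = t + ∑ i, θ i := by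
  unfold ins
  rw [Fin.sum_univ_succAbove _ w, Fin.insertNth_apply_same]
  congr 1
  refine Finset.sum_congr rfl fun j _ => ?_
  rw [Fin.insertNth_apply_succAbove]

theorem gaugeR {N : ℕ} {Φ : (Fin (N + 1) → ℝ) → ℝ≥0∞} (hΦ : Measurable Φ)
    (ht : ∀ η c, Φ (fun i => η i + c) = Φ η) {k : ℝ → ℝ≥0∞} (hk : Measurable k)
    (w : Fin (N + 1)) :
    ∫⁻ η, Φ η * k ((∑ i, η i) / ((N : ℝ) + 1)) = (∫⁻ t, k t) * ∫⁻ θ, Φ (ins w 0 θ) := by
  have hG : Measurable (fun η : Fin (N + 1) → ℝ => Φ η * k ((∑ i, η i) / ((N : ℝ) + 1))) := by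
    refine hΦ.mul (hk.comp ?_)
    fun_prop
  have h1 := (volume_preserving_piFinSuccAbove (fun _ : Fin (N + 1) => ℝ) w).symm
  have hG2 := (hG.comp h1.measurable).aemeasurable (μ := (volume : Measure (ℝ × (Fin N → ℝ))))
  rw [← h1.lintegral_comp hG]
  refine (lintegral_prod _ hG2).trans ?_
  have h2 : ∀ t : ℝ, ∫⁻ θ : Fin N → ℝ,
      (fun η : Fin (N + 1) → ℝ => Φ η * k ((∑ i, η i) / ((N : ℝ) + 1)))
        ((MeasurableEquiv.piFinSuccAbove (fun _ : Fin (N + 1) => ℝ) w).symm (t, θ)) =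
      ∫⁻ θ : Fin N → ℝ, Φ (ins w 0 θ) * k (t + (∑ i, θ i) / ((N : ℝ) + 1)) := by
    intro t
    rw [← lintegral_add_right_eq_self _ (fun _ : Fin N => t)]
    refine lintegral_congr fun θ => ?_
    have h3 : (MeasurableEquiv.piFinSuccAbove (fun _ : Fin (N + 1) => ℝ) w).symm
        (t, θ + fun _ : Fin N => t) = fun i => ins w 0 θ i + t := by
      rw [← GaugeR_ins]
      rfl
    have hN : ((N : ℝ) + 1) ≠ 0 := by positivity
    beta_reduce
    rw [h3, ht]
    congr 2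
    rw [← GaugeR_ins, GaugeR_sum, Finset.sum_add_distrib]
    simp only [Finset.sum_const, Finset.card_univ, Fintype.card_fin, nsmul_eq_mul]
    field_simp
    ring
  have h2' : ∫⁻ t : ℝ, ∫⁻ θ : Fin N → ℝ,
      (fun η : Fin (N + 1) → ℝ => Φ η * k ((∑ i, η i) / ((N : ℝ) + 1)))
        ((MeasurableEquiv.piFinSuccAbove (fun _ : Fin (N + 1) => ℝ) w).symm (t, θ)) =
      ∫⁻ t : ℝ, ∫⁻ θ : Fin N → ℝ, Φ (ins w 0 θ) * k (t + (∑ i, θ i) / ((N : ℝ) + 1)) :=
    lintegral_congr h2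
  have h4 : Measurable (Function.uncurry fun (t : ℝ) (θ : Fin N → ℝ) =>
      Φ (ins w 0 θ) * k (t + (∑ i, θ i) / ((N : ℝ) + 1))) := by
    refine ((hΦ.comp (GaugeR_meas w 0)).comp measurable_snd).mul (hk.comp ?_)
    fun_prop
  refine h2'.trans ?_
  rw [lintegral_lintegral_swap h4.aemeasurable]
  have h5 : ∀ θ : Fin N → ℝ, ∫⁻ t : ℝ, Φ (ins w 0 θ) * k (t + (∑ i, θ i) / ((N : ℝ) + 1)) =
      (∫⁻ t, k t) * Φ (ins w 0 θ) := by
    intro θ
    rw [lintegral_const_mul _ (by fun_prop), lintegral_add_right_eq_self (fun t => k t), mul_comm]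
  rw [lintegral_congr h5]
  exact lintegral_const_mul _ (hΦ.comp (GaugeR_meas w 0))

/-- the Gaussian kernel of variance `1/n²` -/
noncomputable def gk (n : ℕ) (t : ℝ) : ℝ :=
  n / √(2 * π) * exp (-((n : ℝ) ^ 2 * t ^ 2 / 2))

theorem lintegral_gk {n : ℕ} (hn : 1 ≤ n) : ∫⁻ t, ENNReal.ofReal (gk n t) = 1 := by
  have hn0 : (0 : ℝ) < n := by exact_mod_cast hn
  have hb : (0 : ℝ) < (n : ℝ) ^ 2 / 2 := by positivity
  have h1 : gk n = fun t : ℝ => n / √(2 * π) * exp (-((n : ℝ) ^ 2 / 2) * t ^ 2) := by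
    funext t
    unfold gk
    congr 2
    ring
  have hint : Integrable (gk n) := by
    rw [h1]
    exact (integrable_exp_neg_mul_sq hb).const_mul _
  have hnn : 0 ≤ᵐ[volume] gk n := by
    refine Filter.Eventually.of_forall fun t => ?_
    unfold gk
    positivity
  rw [← ofReal_integral_eq_lintegral_ofReal hint hnn, h1, integral_const_mul, integral_gaussian,
    ENNReal.ofReal_eq_one]
  have h2 : π / ((n : ℝ) ^ 2 / 2) = (2 * π) / (n : ℝ) ^ 2 := by
    field_simp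
  rw [h2, Real.sqrt_div (by positivity), Real.sqrt_sq hn0.le]
  have h3 : √(2 * π) ≠ 0 := by positivity
  field_simp

end MP_a3e05c_co.RT
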