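import Pool.Agent.Lib.MP_a3e05c_co.RT.Px
import Pool.Agent.Lib.MP_a3e05c_co.RT.GaugeR
import Pool.Agent.Lib.MP_a3e05c_co.RT.Alg
import Pool.Agent.Lib.MP_a3e05c_co.RT.Cube

/-!
# EULER, block RT: from the arc to the trial law
-/

set_option autoImplicit false

open Real MeasureTheory Finset
open scoped ENNReal

namespace MP_a3e05c_co.RT

/-- the box `(-aa, aa)^n` -/
def bx (n : ℕ) : Set (Fin n → ℝ) := Set.pi Set.univ fun _ => Set.Ioc (-aa) aa

/-- polynomial minorant of `log (1 + w)` -/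
noncomputable def lp (w : ℝ) : ℝ := w - w ^ 2 / 2 + w ^ 3 / 3 - w ^ 4 / 4 + w ^ 5 / 5 - w ^ 6

/-- the exponent of the trial integrand -/
noncomputable def XX {n : ℕ} (η : Fin n → ℝ) : ℝ :=
  ∑ i, (tan (η i) ^ 2 / 2 - tan (η i) ^ 4 / 6) +
    ∑ p ∈ prs n, (lp (tan (η p.1) * tan (η p.2)) - η p.1 * η p.2)

private theorem gibA_prod {n : ℕ} (f : Fin n × Fin n → ℝ) :
    ∏ p, f p = (∏ i, f (i, i)) * ((∏ p ∈ prs n, f p) * ∏ p ∈ prs n, f p.swap) := by
  have h1 : ∀ p : Fin n × Fin n, f p = (if p.1 = p.2 then f p else 1) *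
      ((if p.1 < p.2 then f p else 1) * (if p.2 < p.1 then f p else 1)) := by
    intro p
    rcases lt_trichotomy p.1 p.2 with h | h | h
    · rw [if_neg h.ne, if_pos h, if_neg h.not_gt, one_mul, mul_one]
    · rw [if_pos h, if_neg (by rw [h]; exact lt_irrefl _), if_neg (by rw [h]; exact lt_irrefl _),
        one_mul, mul_one]
    · rw [if_neg h.ne', if_neg h.not_gt, if_pos h, one_mul, one_mul]
  have h2 : ∏ p : Fin n × Fin n, (if p.1 = p.2 then f p else 1) = ∏ i, f (i, i) := by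
    rw [Fintype.prod_prod_type]
    refine Finset.prod_congr rfl fun i _ => ?_
    simp
  have h3 : ∏ p : Fin n × Fin n, (if p.2 < p.1 then f p else 1) = ∏ p ∈ prs n, f p.swap := by
    rw [← Equiv.prod_comp (Equiv.prodComm (Fin n) (Fin n)), prs, Finset.prod_filter]
    rfl
  calc ∏ p, f p = ∏ p : Fin n × Fin n, ((if p.1 = p.2 then f p else 1) *
      ((if p.1 < p.2 then f p else 1) * (if p.2 < p.1 then f p else 1))) :=
        Finset.prod_congr rfl fun p _ => h1 p
    _ = _ := by rw [Finset.prod_mul_distrib, Finset.prod_mul_distrib, h2, h3, prs,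
                  ← Finset.prod_filter]

private theorem gibA_sum {n : ℕ} (f : Fin n × Fin n → ℝ) :
    ∑ p, f p = (∑ i, f (i, i)) + ((∑ p ∈ prs n, f p) + ∑ p ∈ prs n, f p.swap) := by
  have h1 : ∀ p : Fin n × Fin n, f p = (if p.1 = p.2 then f p else 0) +
      ((if p.1 < p.2 then f p else 0) + (if p.2 < p.1 then f p else 0)) := by
    intro p
    rcases lt_trichotomy p.1 p.2 with h | h | h
    · rw [if_neg h.ne, if_pos h, if_neg h.not_gt, zero_add, add_zero]
    · rw [if_pos h, if_neg (by rw [h]; exact lt_irrefl _), if_neg (by rw [h]; exact lt_irrefl _),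
        zero_add, add_zero]
    · rw [if_neg h.ne', if_neg h.not_gt, if_pos h, zero_add, zero_add]
  have h2 : ∑ p : Fin n × Fin n, (if p.1 = p.2 then f p else 0) = ∑ i, f (i, i) := by
    rw [Fintype.sum_prod_type]
    refine Finset.sum_congr rfl fun i _ => ?_
    simp
  have h3 : ∑ p : Fin n × Fin n, (if p.2 < p.1 then f p else 0) = ∑ p ∈ prs n, f p.swap := by
    rw [← Equiv.sum_comp (Equiv.prodComm (Fin n) (Fin n)), prs, Finset.sum_filter]
    rfl
  calc ∑ p, f p = ∑ p : Fin n × Fin n, ((if p.1 = p.2 then f p else 0) +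
      ((if p.1 < p.2 then f p else 0) + (if p.2 < p.1 then f p else 0))) :=
        Finset.sum_congr rfl fun p _ => h1 p
    _ = _ := by rw [Finset.sum_add_distrib, Finset.sum_add_distrib, h2, h3, prs,
                  ← Finset.sum_filter]

/-- every index is in `n - 1` pairs -/
private theorem gibA_pairs {N : ℕ} (c : Fin (N + 1) → ℝ) :
    ∏ i, c i ^ (N + 1) = (∏ i, c i) * ∏ p ∈ prs (N + 1), (c p.1 * c p.2) := by
  have h := gibA_prod (n := N + 1) fun p => c p.1
  rw [Finset.prod_mul_distrib]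
  rw [Fintype.prod_prod_type] at h
  simp only [Finset.prod_const, Finset.card_univ, Fintype.card_fin, Prod.fst_swap] at h
  exact h

private theorem gibA_sq {n : ℕ} (e : Fin n → ℝ) :
    (∑ i, e i) ^ 2 = ∑ i, e i ^ 2 + 2 * ∑ p ∈ prs n, e p.1 * e p.2 := by
  have h := gibA_sum (n := n) fun p => e p.1 * e p.2
  rw [Fintype.sum_prod_type] at h
  simp only [Prod.fst_swap, Prod.snd_swap] at h
  rw [sq, Finset.sum_mul_sum, h, two_mul]
  congr 1
  · exact Finset.sum_congr rfl fun i _ => (sq _).symm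
  · congr 1
    exact Finset.sum_congr rfl fun p _ => mul_comm _ _

private theorem gibA_bx {n : ℕ} {η : Fin n → ℝ} (h : η ∈ bx n) (i : Fin n) : |η i| ≤ aa := by
  have h1 := h i (Set.mem_univ i)
  rw [abs_le]
  exact ⟨h1.1.le, h1.2⟩

private theorem gibA_cos {θ : ℝ} (h : |θ| ≤ aa) : 0 < cos θ := by
  have h1 := aa_lt
  have h2 := pi_pos
  rw [abs_le] at h
  exact cos_pos_of_mem_Ioo ⟨by linarith [h.1], by linarith [h.2]⟩

private theorem gibA_one {θ : ℝ} (h : |θ| ≤ aa) :
    cos θ ^ 2 * exp (tan θ ^ 2 / 2 - tan θ ^ 4 / 6) ≤ exp (-(θ ^ 2 / 2)) := by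
  have hc := gibA_cos h
  have h1 := phi_ge h
  have h2 : cos θ ^ 2 = exp (2 * log (cos θ)) := by
    rw [two_mul, exp_add, exp_log hc, sq]
  rw [h2, ← exp_add]
  exact exp_le_exp.mpr (by linarith)

private theorem gibA_W {n : ℕ} {η : Fin n → ℝ} (h : η ∈ bx n) :
    W η = (∏ p ∈ prs n, (cos (η p.1) * cos (η p.2))) *
      ∏ p ∈ prs n, (1 + tan (η p.1) * tan (η p.2)) := by
  rw [W, ← Finset.prod_mul_distrib]
  refine Finset.prod_congr rfl fun p _ => ?_
  have h1 := (gibA_cos (gibA_bx h p.1)).ne'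
  have h2 := (gibA_cos (gibA_bx h p.2)).ne'
  rw [cos_sub, tan_eq_sin_div_cos, tan_eq_sin_div_cos]
  field_simp

private theorem gibA_tan {n : ℕ} {η : Fin n → ℝ} (h : η ∈ bx n) (i j : Fin n) :
    |tan (η i) * tan (η j)| ≤ 361 / 400 := by
  rw [abs_mul]
  have h1 := abs_tan_le (gibA_bx h i)
  have h2 := abs_tan_le (gibA_bx h j)
  calc |tan (η i)| * |tan (η j)| ≤ 19 / 20 * (19 / 20) :=
        mul_le_mul h1 h2 (abs_nonneg _) (by norm_num)
    _ = 361 / 400 := by norm_num

private theorem gibA_lp {n : ℕ} {η : Fin n → ℝ} (h : η ∈ bx n) (i j : Fin n) :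
    exp (lp (tan (η i) * tan (η j))) ≤ 1 + tan (η i) * tan (η j) := by
  have h1 := gibA_tan h i j
  have h2 : 0 < 1 + tan (η i) * tan (η j) := by
    have := (abs_le.mp h1).1
    linarith
  calc exp (lp (tan (η i) * tan (η j))) ≤ exp (log (1 + tan (η i) * tan (η j))) :=
        exp_le_exp.mpr (log_poly h1)
    _ = _ := exp_log h2

/-- the pointwise inequality without the Gaussian kernel -/
private theorem gibA_core {N : ℕ} {η : Fin (N + 1) → ℝ} (h : η ∈ bx (N + 1)) :
    exp (XX η) * ∏ i, cos (η i) ^ (N + 2) ≤ |W η| * exp (-((∑ i, η i) ^ 2 / 2)) := by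
  have hc : ∀ i, 0 < cos (η i) := fun i => gibA_cos (gibA_bx h i)
  set A := ∏ p ∈ prs (N + 1), (cos (η p.1) * cos (η p.2)) with hA
  set B := ∏ p ∈ prs (N + 1), (1 + tan (η p.1) * tan (η p.2)) with hB
  have hA0 : 0 < A := Finset.prod_pos fun p _ => mul_pos (hc _) (hc _)
  have hBe : exp (∑ p ∈ prs (N + 1), lp (tan (η p.1) * tan (η p.2))) ≤ B := by
    rw [exp_sum]
    exact Finset.prod_le_prod (fun p _ => (exp_pos _).le) fun p _ => gibA_lp h p.1 p.2
  have hB0 : 0 < B := (exp_pos _).trans_le hBe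
  have hW : |W η| = A * B := by
    rw [gibA_W h, abs_of_pos (mul_pos hA0 hB0)]
  have hP0 : 0 < ∏ i, cos (η i) := Finset.prod_pos fun i _ => hc i
  have hpairs := gibA_pairs (N := N) fun i => cos (η i)
  have hmain : exp (∑ i, (tan (η i) ^ 2 / 2 - tan (η i) ^ 4 / 6)) * ∏ i, cos (η i) ^ (N + 2) ≤
      A * exp (-((∑ i, η i ^ 2) / 2)) := by
    refine le_of_mul_le_mul_left ?_ hP0
    have e1 : (∏ i, cos (η i)) * (A * exp (-((∑ i, η i ^ 2) / 2))) =
        ∏ i, (cos (η i) ^ (N + 1) * exp (-(η i ^ 2 / 2))) := by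
      rw [Finset.prod_mul_distrib, hpairs, ← exp_sum, Finset.sum_neg_distrib, Finset.sum_div,
        mul_assoc]
    have e2 : (∏ i, cos (η i)) * (exp (∑ i, (tan (η i) ^ 2 / 2 - tan (η i) ^ 4 / 6)) *
        ∏ i, cos (η i) ^ (N + 2)) = ∏ i, (cos (η i) ^ (N + 1) *
          (cos (η i) ^ 2 * exp (tan (η i) ^ 2 / 2 - tan (η i) ^ 4 / 6))) := by
      rw [exp_sum, ← Finset.prod_mul_distrib, ← Finset.prod_mul_distrib]
      refine Finset.prod_congr rfl fun i _ => ?_
      ring
    rw [e1, e2]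
    refine Finset.prod_le_prod (fun i _ => ?_) fun i _ => ?_
    · have := (hc i).le
      positivity
    · exact mul_le_mul_of_nonneg_left (gibA_one (gibA_bx h i)) (pow_nonneg (hc i).le _)
  have hX : exp (XX η) = exp (∑ i, (tan (η i) ^ 2 / 2 - tan (η i) ^ 4 / 6)) *
      exp (∑ p ∈ prs (N + 1), lp (tan (η p.1) * tan (η p.2))) *
        exp (-∑ p ∈ prs (N + 1), η p.1 * η p.2) := by
    rw [← exp_add, ← exp_add, XX, Finset.sum_sub_distrib (s := prs (N + 1)), add_assoc,
      ← sub_eq_add_neg]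
  have hE : exp (-((∑ i, η i) ^ 2 / 2)) = exp (-((∑ i, η i ^ 2) / 2)) *
      exp (-∑ p ∈ prs (N + 1), η p.1 * η p.2) := by
    rw [← exp_add, gibA_sq]
    congr 1
    ring
  rw [hX, hE, hW]
  have hP2 : 0 ≤ ∏ i, cos (η i) ^ (N + 2) := Finset.prod_nonneg fun i _ => pow_nonneg (hc i).le _
  calc exp (∑ i, (tan (η i) ^ 2 / 2 - tan (η i) ^ 4 / 6)) *
      exp (∑ p ∈ prs (N + 1), lp (tan (η p.1) * tan (η p.2))) *
        exp (-∑ p ∈ prs (N + 1), η p.1 * η p.2) * ∏ i, cos (η i) ^ (N + 2)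
      = (exp (∑ i, (tan (η i) ^ 2 / 2 - tan (η i) ^ 4 / 6)) * ∏ i, cos (η i) ^ (N + 2)) *
        exp (∑ p ∈ prs (N + 1), lp (tan (η p.1) * tan (η p.2))) *
        exp (-∑ p ∈ prs (N + 1), η p.1 * η p.2) := by ring
    _ ≤ (A * exp (-((∑ i, η i ^ 2) / 2))) * B *
        exp (-∑ p ∈ prs (N + 1), η p.1 * η p.2) := by
        refine mul_le_mul_of_nonneg_right ?_ (exp_pos _).le
        exact mul_le_mul hmain hBe (exp_pos _).le (mul_nonneg hA0.le (exp_pos _).le)
    _ = _ := by ring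

private theorem gibA_point {N : ℕ} {η : Fin (N + 1) → ℝ} (h : η ∈ bx (N + 1)) :
    ((N : ℝ) + 1) / √(2 * π) * (exp (XX η) * ∏ i, cos (η i) ^ (N + 2)) ≤
      |W η| * gk (N + 1) ((∑ i, η i) / ((N : ℝ) + 1)) := by
  have hN : (0 : ℝ) < (N : ℝ) + 1 := by positivity
  have h1 : gk (N + 1) ((∑ i, η i) / ((N : ℝ) + 1)) =
      ((N : ℝ) + 1) / √(2 * π) * exp (-((∑ i, η i) ^ 2 / 2)) := by
    rw [gk]
    push_cast
    congr 2
    field_simp
  rw [h1]
  have h2 : (0 : ℝ) ≤ ((N : ℝ) + 1) / √(2 * π) := by positivity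
  calc ((N : ℝ) + 1) / √(2 * π) * (exp (XX η) * ∏ i, cos (η i) ^ (N + 2))
      ≤ ((N : ℝ) + 1) / √(2 * π) * (|W η| * exp (-((∑ i, η i) ^ 2 / 2))) :=
        mul_le_mul_of_nonneg_left (gibA_core h) h2
    _ = _ := by ring

private theorem gibA_mtan : Measurable tan := by
  have : tan = fun x => sin x / cos x := by
    funext x
    exact tan_eq_sin_div_cos x
  rw [this]
  exact measurable_sin.div measurable_cos

private theorem gibA_meas (N : ℕ) :
    Measurable fun η : Fin (N + 1) → ℝ => exp (XX η) * ∏ i, cos (η i) ^ (N + 2) := by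
  have ht : ∀ i : Fin (N + 1), Measurable fun η : Fin (N + 1) → ℝ => tan (η i) := fun i =>
    gibA_mtan.comp (measurable_pi_apply i)
  have he : ∀ i : Fin (N + 1), Measurable fun η : Fin (N + 1) → ℝ => η i := fun i =>
    measurable_pi_apply i
  have hlp : Measurable lp := by
    have : Continuous lp := by
      unfold lp
      fun_prop
    exact this.measurable
  have hX : Measurable fun η : Fin (N + 1) → ℝ => XX η := by
    unfold XX
    refine Measurable.add ?_ ?_
    · refine Finset.measurable_fun_sum _ fun i _ => ?_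
      exact ((ht i).pow_const 2).div_const 2 |>.sub (((ht i).pow_const 4).div_const 6)
    · refine Finset.measurable_fun_sum _ fun p _ => ?_
      exact (hlp.comp ((ht p.1).mul (ht p.2))).sub ((he p.1).mul (he p.2))
  refine (measurable_exp.comp hX).mul ?_
  refine Finset.measurable_fun_prod _ fun i _ => ?_
  exact (measurable_cos.comp (he i)).pow_const _

private theorem gibA_mbx (n : ℕ) : MeasurableSet (bx n) :=
  MeasurableSet.univ_pi fun _ => measurableSet_Ioc

private theorem gibA_mS (n : ℕ) :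
    MeasurableSet {η : Fin n → ℝ | ∀ i j, |η i - η j| < π / 2} := by
  have h1 : {η : Fin n → ℝ | ∀ i j, |η i - η j| < π / 2} =
      ⋂ i, ⋂ j, {η : Fin n → ℝ | |η i - η j| < π / 2} := by
    ext η
    simp
  rw [h1]
  refine MeasurableSet.iInter fun i => MeasurableSet.iInter fun j => ?_
  refine IsOpen.measurableSet (isOpen_lt ?_ continuous_const)
  fun_prop

theorem arc_ge (N : ℕ) :
    ((N : ℝ) + 1) / √(2 * π) *
      ∫ η in bx (N + 1), exp (XX η) * ∏ i, cos (η i) ^ (N + 2) ≤ ∫ θ in D N, F θ := by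
  classical
  set S : Set (Fin (N + 1) → ℝ) := {η | ∀ i j, |η i - η j| < π / 2} with hS
  set Φ : (Fin (N + 1) → ℝ) → ℝ≥0∞ := S.indicator fun η => ENNReal.ofReal |W η| with hΦdef
  have hΦ : Measurable Φ :=
    (continuous_W.abs.measurable.ennreal_ofReal).indicator (gibA_mS _)
  have ht : ∀ η c, Φ (fun i => η i + c) = Φ η := by
    intro η c
    have h1 : (fun i => η i + c) ∈ S ↔ η ∈ S := by
      simp only [hS, Set.mem_ofPred_eq, add_sub_add_right_eq_sub]
    by_cases h2 : η ∈ S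
    · rw [hΦdef, Set.indicator_of_mem h2, Set.indicator_of_mem (h1.mpr h2), W_shift]
    · rw [hΦdef, Set.indicator_of_notMem h2, Set.indicator_of_notMem (fun h => h2 (h1.mp h))]
  have hgk : Continuous (gk (N + 1)) := by
    unfold gk
    fun_prop
  have hk : Measurable fun t => ENNReal.ofReal (gk (N + 1) t) := hgk.measurable.ennreal_ofReal
  have hmD : MeasurableSet (D N) := meas_cube.inter (gibA_mS N)
  have key := gaugeR hΦ ht hk 0
  rw [lintegral_gk (by omega), one_mul] at key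
  have hG0 : ∀ η ∈ bx (N + 1), 0 ≤ ((N : ℝ) + 1) / √(2 * π) *
      (exp (XX η) * ∏ i, cos (η i) ^ (N + 2)) := by
    intro η hη
    have := Finset.prod_nonneg (s := univ) (f := fun i => cos (η i) ^ (N + 2))
      fun i _ => pow_nonneg (gibA_cos (gibA_bx hη i)).le _
    positivity
  have h1 : ∫⁻ η in bx (N + 1), ENNReal.ofReal (((N : ℝ) + 1) / √(2 * π) *
      (exp (XX η) * ∏ i, cos (η i) ^ (N + 2))) ≤
      ∫⁻ η, Φ η * ENNReal.ofReal (gk (N + 1) ((∑ i, η i) / ((N : ℝ) + 1))) := by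
    refine (setLIntegral_mono' (gibA_mbx _) fun η hη => ?_).trans (setLIntegral_le_lintegral _ _)
    have hηS : η ∈ S := by
      intro i j
      have h3 := gibA_bx hη i
      have h4 := gibA_bx hη j
      have h5 := aa_lt
      rw [abs_le] at h3 h4
      rw [abs_lt]
      exact ⟨by linarith [h3.1, h4.2], by linarith [h3.2, h4.1]⟩
    rw [hΦdef, Set.indicator_of_mem hηS, ← ENNReal.ofReal_mul (abs_nonneg _)]
    exact ENNReal.ofReal_le_ofReal (gibA_point hη)
  have h2 : ∫⁻ θ, Φ (ins 0 0 θ) ≤ ∫⁻ θ in D N, ENNReal.ofReal (F θ) := by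
    rw [← lintegral_indicator hmD]
    refine lintegral_mono fun θ => ?_
    by_cases h3 : ins 0 0 θ ∈ S
    · have h4 : ∀ i : Fin N, ins 0 0 θ ((0 : Fin (N + 1)).succAbove i) = θ i := fun i => by
        rw [ins, Fin.insertNth_apply_succAbove]
      have h5 : ins 0 0 θ 0 = 0 := by
        rw [ins, Fin.insertNth_apply_same]
      have h6 : θ ∈ D N := by
        refine ⟨fun i _ => ?_, fun i j => ?_⟩
        · have := h3 ((0 : Fin (N + 1)).succAbove i) 0
          rw [h4, h5, sub_zero, abs_lt] at this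
          exact ⟨this.1, this.2.le⟩
        · have := h3 ((0 : Fin (N + 1)).succAbove i) ((0 : Fin (N + 1)).succAbove j)
          rwa [h4, h4] at this
      rw [hΦdef, Set.indicator_of_mem h3, Set.indicator_of_mem h6, F_eq_W,
        abs_of_nonneg (F_nonneg h6)]
    · rw [hΦdef, Set.indicator_of_notMem h3]
      exact bot_le
  have h3 : ∫⁻ θ in D N, ENNReal.ofReal (F θ) ≠ ∞ := by
    have h4 : ∫⁻ θ in D N, ENNReal.ofReal (F θ) ≤ ∫⁻ θ in cube (Fin N), 1 := by
      refine (lintegral_mono_set (fun θ hθ => hθ.1)).trans (lintegral_mono fun θ => ?_)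
      rw [← ENNReal.ofReal_one]
      exact ENNReal.ofReal_le_ofReal ((le_abs_self _).trans (abs_F_le θ))
    rw [setLIntegral_one, vol_cube] at h4
    exact ne_top_of_le_ne_top ENNReal.ofReal_ne_top h4
  rw [← integral_const_mul]
  rw [integral_eq_lintegral_of_nonneg_ae (ae_restrict_of_forall_mem (gibA_mbx _) hG0)
    ((gibA_meas N).const_mul _).aestronglyMeasurable,
    integral_eq_lintegral_of_nonneg_ae (ae_restrict_of_forall_mem hmD fun θ hθ => F_nonneg hθ)
    continuous_F.aestronglyMeasurable]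
  exact ENNReal.toReal_mono h3 (h1.trans (key.le.trans h2))

end MP_a3e05c_co.RT
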