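import Pool.Agent.Lib.MP_a3e05c_co.RT.GibbsA

/-!
# EULER, block RT: Jensen's inequality for the trial law
-/

set_option autoImplicit false

open Real MeasureTheory Finset

namespace MP_a3e05c_co.RT

private theorem gibB_aa0 : 0 < aa := by
  unfold aa
  exact arctan_pos.mpr (by norm_num)

private theorem gibB_cos {θ : ℝ} (h : θ ∈ Set.Icc (-aa) aa) : 0 < cos θ := by
  have h1 := aa_lt
  have h2 := pi_pos
  exact cos_pos_of_mem_Ioo ⟨by linarith [h.1], by linarith [h.2]⟩

private theorem gibB_tan : ContinuousOn tan (Set.Icc (-aa) aa) :=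
  continuousOn_tan.mono fun _ hx => (gibB_cos hx).ne'

theorem mo_pos (n : ℕ) : 0 < mo n 0 := by
  unfold mo
  refine intervalIntegral.intervalIntegral_pos_of_pos_on ?_ ?_ (by linarith [gibB_aa0])
  · have h : Continuous fun θ : ℝ => tan θ ^ 0 * cos θ ^ (n + 1) := by
      simp only [pow_zero, one_mul]
      fun_prop
    exact h.intervalIntegrable _ _
  · intro x hx
    rw [pow_zero, one_mul]
    exact pow_pos (gibB_cos ⟨hx.1.le, hx.2.le⟩) _

/-- `E X` under the trial law. -/
noncomputable def EX (n : ℕ) : ℝ :=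
  n * (mn n 2 / 2 - mn n 4 / 6) -
    (n : ℝ) * (n - 1) / 2 * (mn n 2 ^ 2 / 2 + mn n 4 ^ 2 / 4 + mn n 6 ^ 2)

/-- the closed box -/
private def gibB_K (n : ℕ) : Set (Fin n → ℝ) := Set.pi Set.univ fun _ => Set.Icc (-aa) aa

private theorem gibB_sub (n : ℕ) : bx n ⊆ gibB_K n := by
  intro η h i hi
  have := h i hi
  exact ⟨this.1.le, this.2⟩

/-- one-dimensional integrals -/
private noncomputable def gibB_J (n : ℕ) (u : ℝ → ℝ) : ℝ :=
  ∫ θ in Set.Ioc (-aa) aa, u θ * cos θ ^ (n + 1)

private theorem gibB_J_tan (n k : ℕ) : gibB_J n (fun θ => tan θ ^ k) = mo n k := by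
  unfold gibB_J mo
  rw [intervalIntegral.integral_of_le (by linarith [gibB_aa0])]

private theorem gibB_J_one (n : ℕ) : gibB_J n (fun _ => 1) = mo n 0 := by
  rw [← gibB_J_tan n 0]
  simp only [pow_zero]

private theorem gibB_J_odd (n : ℕ) {u : ℝ → ℝ} (hu : ∀ x, u (-x) = -u x) : gibB_J n u = 0 := by
  unfold gibB_J
  have h0 : (-aa : ℝ) ≤ aa := by linarith [gibB_aa0]
  rw [← intervalIntegral.integral_of_le h0]
  have h1 : ∫ x in (-aa)..aa, u (-x) * cos (-x) ^ (n + 1) =
      ∫ x in (-aa)..aa, u x * cos x ^ (n + 1) := by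
    have h := intervalIntegral.integral_comp_neg (a := -aa) (b := aa)
      (fun x => u x * cos x ^ (n + 1))
    rw [neg_neg] at h
    exact h
  have h2 : ∫ x in (-aa)..aa, u (-x) * cos (-x) ^ (n + 1) =
      -∫ x in (-aa)..aa, u x * cos x ^ (n + 1) := by
    rw [← intervalIntegral.integral_neg]
    refine intervalIntegral.integral_congr fun x _ => ?_
    show u (-x) * cos (-x) ^ (n + 1) = -(u x * cos x ^ (n + 1))
    rw [hu, cos_neg, neg_mul]
  linarith

/-- product integrals -/
private theorem gibB_prod (n : ℕ) (g : Fin n → ℝ → ℝ) :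
    ∫ η in bx n, ∏ i, (g i (η i) * cos (η i) ^ (n + 1)) = ∏ i, gibB_J n (g i) := by
  unfold bx gibB_J
  rw [volume_pi, Measure.restrict_pi_pi]
  exact integral_fintype_prod_eq_prod (fun i θ => g i θ * cos θ ^ (n + 1))

/-- `f` has integral `mo^n c` -/
private def gibB_HV (n : ℕ) (f : (Fin n → ℝ) → ℝ) (c : ℝ) : Prop :=
  ContinuousOn f (gibB_K n) ∧ ∫ η in bx n, f η * ∏ i, cos (η i) ^ (n + 1) = mo n 0 ^ n * c

private theorem gibB_int {n : ℕ} {f : (Fin n → ℝ) → ℝ} (hf : ContinuousOn f (gibB_K n)) :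
    Integrable (fun η => f η * ∏ i, cos (η i) ^ (n + 1)) (volume.restrict (bx n)) := by
  have hK : IsCompact (gibB_K n) := isCompact_univ_pi fun _ => isCompact_Icc
  have h1 : ContinuousOn (fun η : Fin n → ℝ => f η * ∏ i, cos (η i) ^ (n + 1)) (gibB_K n) := by
    refine hf.mul (Continuous.continuousOn ?_)
    fun_prop
  exact (h1.integrableOn_compact hK).mono_set (gibB_sub n)

private theorem gibB_HV.add {n : ℕ} {f g : (Fin n → ℝ) → ℝ} {a b : ℝ} (hf : gibB_HV n f a)
    (hg : gibB_HV n g b) : gibB_HV n (fun η => f η + g η) (a + b) := by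
  refine ⟨hf.1.add hg.1, ?_⟩
  simp only [add_mul]
  rw [integral_add (gibB_int hf.1) (gibB_int hg.1), hf.2, hg.2]
  ring

private theorem gibB_HV.smul {n : ℕ} {f : (Fin n → ℝ) → ℝ} {a : ℝ} (t : ℝ) (hf : gibB_HV n f a) :
    gibB_HV n (fun η => t * f η) (t * a) := by
  refine ⟨hf.1.const_smul t |>.congr fun η _ => rfl, ?_⟩
  simp only [mul_assoc]
  rw [integral_const_mul, hf.2]
  ring

private theorem gibB_HV.sum {n : ℕ} {ι : Type} (s : Finset ι) (f : ι → (Fin n → ℝ) → ℝ)
    (a : ι → ℝ) (hf : ∀ i ∈ s, gibB_HV n (f i) (a i)) :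
    gibB_HV n (fun η => ∑ i ∈ s, f i η) (∑ i ∈ s, a i) := by
  classical
  refine ⟨continuousOn_finsetSum _ fun i hi => (hf i hi).1, ?_⟩
  simp only [Finset.sum_mul]
  rw [integral_finsetSum s fun i hi => gibB_int (hf i hi).1, Finset.mul_sum]
  exact Finset.sum_congr rfl fun i hi => (hf i hi).2

private theorem gibB_eval {n : ℕ} (i : Fin n) {u : ℝ → ℝ} (hu : ContinuousOn u (Set.Icc (-aa) aa)) :
    ContinuousOn (fun η : Fin n → ℝ => u (η i)) (gibB_K n) :=
  hu.comp (continuous_apply i).continuousOn fun _ hη => hη i (Set.mem_univ i)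

private theorem gibB_one {n : ℕ} : gibB_HV n (fun _ => 1) 1 := by
  refine ⟨continuousOn_const, ?_⟩
  have h := gibB_prod n fun _ _ => 1
  simp only [one_mul] at h ⊢
  rw [h]
  simp only [gibB_J_one, Finset.prod_const, Finset.card_univ, Fintype.card_fin, mul_one]

private theorem gibB_single {n : ℕ} (i : Fin n) {u : ℝ → ℝ}
    (hu : ContinuousOn u (Set.Icc (-aa) aa)) :
    gibB_HV n (fun η => u (η i)) (gibB_J n u / mo n 0) := by
  refine ⟨gibB_eval i hu, ?_⟩
  have h0 := (mo_pos n).ne'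
  have h := gibB_prod n fun j θ => if j = i then u θ else 1
  have h1 : ∀ η : Fin n → ℝ, ∏ j, ((if j = i then u (η j) else 1) * cos (η j) ^ (n + 1)) =
      u (η i) * ∏ j, cos (η j) ^ (n + 1) := by
    intro η
    rw [Finset.prod_mul_distrib]
    simp
  have h2 : ∀ j, gibB_J n (fun θ => if j = i then u θ else 1) =
      mo n 0 * (if j = i then gibB_J n u / mo n 0 else 1) := by
    intro j
    by_cases hj : j = i
    · simp only [if_pos hj]
      field_simp
    · simp only [if_neg hj]
      rw [gibB_J_one, mul_one]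
  simp only [h1] at h
  rw [h, Finset.prod_congr rfl fun j _ => h2 j, Finset.prod_mul_distrib]
  simp

private theorem gibB_pair {n : ℕ} {i k : Fin n} (hik : i ≠ k) {u v : ℝ → ℝ}
    (hu : ContinuousOn u (Set.Icc (-aa) aa)) (hv : ContinuousOn v (Set.Icc (-aa) aa)) :
    gibB_HV n (fun η => u (η i) * v (η k)) (gibB_J n u / mo n 0 * (gibB_J n v / mo n 0)) := by
  refine ⟨(gibB_eval i hu).mul (gibB_eval k hv), ?_⟩
  have h0 := (mo_pos n).ne'
  have h := gibB_prod n fun j θ => (if j = i then u θ else 1) * (if j = k then v θ else 1)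
  have h1 : ∀ η : Fin n → ℝ, ∏ j, ((if j = i then u (η j) else 1) * (if j = k then v (η j) else 1) *
      cos (η j) ^ (n + 1)) = u (η i) * v (η k) * ∏ j, cos (η j) ^ (n + 1) := by
    intro η
    rw [Finset.prod_mul_distrib, Finset.prod_mul_distrib]
    simp
  have h2 : ∀ j, gibB_J n (fun θ => (if j = i then u θ else 1) * (if j = k then v θ else 1)) =
      mo n 0 * ((if j = i then gibB_J n u / mo n 0 else 1) *
        (if j = k then gibB_J n v / mo n 0 else 1)) := by
    intro j
    by_cases hj : j = i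
    · have hj' : ¬ j = k := fun h => hik (hj ▸ h)
      simp only [if_pos hj, if_neg hj', mul_one]
      field_simp
    · simp only [if_neg hj, one_mul]
      by_cases hj' : j = k
      · simp only [if_pos hj']
        field_simp
      · simp only [if_neg hj']
        rw [gibB_J_one, mul_one]
  simp only [h1] at h
  rw [h, Finset.prod_congr rfl fun j _ => h2 j, Finset.prod_mul_distrib, Finset.prod_mul_distrib]
  simp

private theorem gibB_tanpow (k : ℕ) : ContinuousOn (fun θ => tan θ ^ k) (Set.Icc (-aa) aa) :=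
  gibB_tan.pow k

private theorem gibB_odd_tan (n k : ℕ) (hk : Odd k) : mo n k = 0 := by
  rw [← gibB_J_tan]
  refine gibB_J_odd n fun x => ?_
  rw [tan_neg, hk.neg_pow]

private theorem gibB_pairX {n : ℕ} {i k : Fin n} (hik : i ≠ k) :
    gibB_HV n (fun η => lp (tan (η i) * tan (η k)) - η i * η k)
      (-(mn n 2 ^ 2 / 2 + mn n 4 ^ 2 / 4 + mn n 6 ^ 2)) := by
  have ht : ∀ m : ℕ, gibB_HV n (fun η => tan (η i) ^ m * tan (η k) ^ m) (mn n m * mn n m) := by
    intro m
    have h := gibB_pair hik (gibB_tanpow m) (gibB_tanpow m)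
    rw [gibB_J_tan] at h
    exact h
  have hid : gibB_HV n (fun η => η i * η k) 0 := by
    have h := gibB_pair hik (u := fun θ => θ) (v := fun θ => θ) continuousOn_id continuousOn_id
    rw [gibB_J_odd n (u := fun θ => θ) fun x => rfl, zero_div, zero_mul] at h
    exact h
  have h1 := (ht 1).add (((ht 2).smul (-(1 / 2))).add (((ht 3).smul (1 / 3)).add
    (((ht 4).smul (-(1 / 4))).add (((ht 5).smul (1 / 5)).add
      (((ht 6).smul (-1)).add (hid.smul (-1)))))))
  have e1 : mn n 1 = 0 := by rw [mn, gibB_odd_tan n 1 (by decide), zero_div]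
  have e3 : mn n 3 = 0 := by rw [mn, gibB_odd_tan n 3 (by decide), zero_div]
  have e5 : mn n 5 = 0 := by rw [mn, gibB_odd_tan n 5 (by decide), zero_div]
  rw [e1, e3, e5] at h1
  have hf : (fun η : Fin n → ℝ => lp (tan (η i) * tan (η k)) - η i * η k) =
      (fun η : Fin n → ℝ => tan (η i) ^ 1 * tan (η k) ^ 1 +
        (-(1 / 2) * (tan (η i) ^ 2 * tan (η k) ^ 2) + (1 / 3 * (tan (η i) ^ 3 * tan (η k) ^ 3) +
        (-(1 / 4) * (tan (η i) ^ 4 * tan (η k) ^ 4) + (1 / 5 * (tan (η i) ^ 5 * tan (η k) ^ 5) +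
        (-1 * (tan (η i) ^ 6 * tan (η k) ^ 6) + -1 * (η i * η k))))))) := by
    funext η
    unfold lp
    ring
  have hc : -(mn n 2 ^ 2 / 2 + mn n 4 ^ 2 / 4 + mn n 6 ^ 2) =
      0 * 0 + (-(1 / 2) * (mn n 2 * mn n 2) + (1 / 3 * (0 * 0) + (-(1 / 4) * (mn n 4 * mn n 4) +
        (1 / 5 * (0 * 0) + (-1 * (mn n 6 * mn n 6) + -1 * 0))))) := by
    ring
  rw [hf, hc]
  exact h1

private theorem gibB_card (n : ℕ) : ((prs n).card : ℝ) = (n : ℝ) * (n - 1) / 2 := by
  have h1 : (prs n).card + (prs n).card + n = n * n := by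
    have h2 : (univ.filter fun p : Fin n × Fin n => p.2 < p.1).card = (prs n).card := by
      refine Finset.card_bij (fun p _ => p.swap) ?_ ?_ ?_
      · intro p hp
        simpa [prs] using hp
      · intro p _ q _ h
        exact Prod.swap_injective h
      · intro p hp
        exact ⟨p.swap, by simpa [prs] using hp, by simp⟩
    have h3 : (univ.filter fun p : Fin n × Fin n => p.1 = p.2).card = n := by
      have h4 : (univ.filter fun p : Fin n × Fin n => p.1 = p.2) =
          univ.image fun i : Fin n => (i, i) := by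
        ext ⟨a, b⟩
        simp only [mem_filter, mem_univ, true_and, mem_image, Prod.mk.injEq]
        constructor
        · rintro rfl
          exact ⟨a, rfl, rfl⟩
        · rintro ⟨c, rfl, rfl⟩
          rfl
      rw [h4, Finset.card_image_of_injective _ fun a b h => (Prod.mk.inj h).1]
      simp
    have h5 : (univ : Finset (Fin n × Fin n)).card = n * n := by simp
    have h6 : (univ : Finset (Fin n × Fin n)) = (prs n ∪ univ.filter fun p => p.2 < p.1) ∪
        univ.filter fun p => p.1 = p.2 := by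
      ext p
      simp only [prs, mem_union, mem_filter, mem_univ, true_and, true_iff]
      rcases lt_trichotomy p.1 p.2 with h | h | h
      · exact Or.inl (Or.inl h)
      · exact Or.inr h
      · exact Or.inl (Or.inr h)
    rw [← h5, h6, Finset.card_union_of_disjoint, Finset.card_union_of_disjoint, h2, h3]
    · rw [Finset.disjoint_left]
      intro p hp hq
      simp only [prs, mem_filter, mem_univ, true_and] at hp hq
      exact lt_asymm hp hq
    · rw [Finset.disjoint_left]
      intro p hp hq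
      simp only [prs, mem_union, mem_filter, mem_univ, true_and] at hp hq
      rcases hp with hp | hp
      · exact hp.ne hq
      · exact hp.ne' hq
  have h2 : ((prs n).card : ℝ) + (prs n).card + n = n * n := by exact_mod_cast h1
  linarith

private theorem gibB_XX (n : ℕ) : gibB_HV n XX (EX n) := by
  have h1 : gibB_HV n (fun η => ∑ i, (1 / 2 * tan (η i) ^ 2 + -(1 / 6) * tan (η i) ^ 4))
      (∑ _i : Fin n, (1 / 2 * mn n 2 + -(1 / 6) * mn n 4)) := by
    refine gibB_HV.sum univ _ _ fun i _ => ?_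
    have h2 := gibB_single i (gibB_tanpow 2)
    have h4 := gibB_single i (gibB_tanpow 4)
    rw [gibB_J_tan] at h2 h4
    exact (h2.smul (1 / 2)).add (h4.smul (-(1 / 6)))
  have h2 : gibB_HV n (fun η => ∑ p ∈ prs n, (lp (tan (η p.1) * tan (η p.2)) - η p.1 * η p.2))
      (∑ _p ∈ prs n, -(mn n 2 ^ 2 / 2 + mn n 4 ^ 2 / 4 + mn n 6 ^ 2)) := by
    refine gibB_HV.sum _ _ _ fun p hp => ?_
    rw [prs, mem_filter] at hp
    exact gibB_pairX hp.2.ne
  have h3 := h1.add h2
  have hf : (XX : (Fin n → ℝ) → ℝ) = fun η =>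
      ∑ i, (1 / 2 * tan (η i) ^ 2 + -(1 / 6) * tan (η i) ^ 4) +
        ∑ p ∈ prs n, (lp (tan (η p.1) * tan (η p.2)) - η p.1 * η p.2) := by
    funext η
    unfold XX
    congr 1
    refine Finset.sum_congr rfl fun i _ => ?_
    ring
  have hc : EX n = ∑ _i : Fin n, (1 / 2 * mn n 2 + -(1 / 6) * mn n 4) +
      ∑ _p ∈ prs n, -(mn n 2 ^ 2 / 2 + mn n 4 ^ 2 / 4 + mn n 6 ^ 2) := by
    rw [Finset.sum_const, Finset.sum_const, nsmul_eq_mul, nsmul_eq_mul, gibB_card,
      Finset.card_univ, Fintype.card_fin]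
    unfold EX
    ring
  rw [hf, hc]
  exact h3

theorem jensen (n : ℕ) (hn : 1 ≤ n) :
    mo n 0 ^ n * exp (EX n) ≤ ∫ η in bx n, exp (XX η) * ∏ i, cos (η i) ^ (n + 1) := by
  have hX := gibB_XX n
  have h1 : gibB_HV n (fun η => exp (EX n) * (1 + (XX η + -EX n * 1))) (exp (EX n)) := by
    have h := (gibB_one.add (hX.add (gibB_one.smul (-EX n)))).smul (exp (EX n))
    have hc : exp (EX n) * (1 + (EX n + -EX n * 1)) = exp (EX n) := by ring
    rw [hc] at h
    exact h
  rw [← h1.2]
  have hm : MeasurableSet (bx n) := MeasurableSet.univ_pi fun _ => measurableSet_Ioc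
  refine setIntegral_mono_on (gibB_int h1.1) (gibB_int (continuous_exp.comp_continuousOn hX.1)) hm
    fun η hη => ?_
  refine mul_le_mul_of_nonneg_right ?_ ?_
  · have h2 := add_one_le_exp (XX η - EX n)
    have h3 : exp (XX η) = exp (EX n) * exp (XX η - EX n) := by
      rw [← exp_add]
      congr 1
      ring
    rw [h3]
    refine mul_le_mul_of_nonneg_left ?_ (exp_pos _).le
    linarith
  · refine Finset.prod_nonneg fun i _ => pow_nonneg (gibB_cos (gibB_sub n hη i (Set.mem_univ i))).le _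

end MP_a3e05c_co.RT
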