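import Pool.Agent.Lib.MP_a3e05c_co.RT.OutA

/-!
# EULER, block RT: the integral off the arc
-/

set_option autoImplicit false

open Real MeasureTheory Finset

namespace MP_a3e05c_co.RT

private theorem OutB_int {N : ℕ} {u : (Fin N → ℝ) → ℝ} (hc : Continuous u) :
    IntegrableOn u (cube (Fin N)) := by
  have h1 : IsCompact (Set.pi Set.univ fun _ : Fin N => Set.Icc (-(π / 2)) (π / 2)) :=
    isCompact_univ_pi fun _ => isCompact_Icc
  refine (hc.continuousOn.integrableOn_compact h1).mono_set ?_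
  unfold cube I1
  exact Set.pi_mono fun _ _ => Set.Ioc_subset_Icc_self

private theorem OutB_cont {N : ℕ} : Continuous (fun θ : Fin N → ℝ => |F θ|) := by
  unfold F W
  refine continuous_abs.comp (Continuous.mul ?_ ?_)
  · exact continuous_finsetProd _ fun i _ => Real.continuous_cos.comp (continuous_apply i)
  · exact continuous_finsetProd _ fun p _ =>
      Real.continuous_cos.comp ((continuous_apply p.1).sub (continuous_apply p.2))

private theorem OutB_card (N : ℕ) : 2 * (prs N).card = N * (N - 1) := by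
  classical
  have h1 : (prs N).card = (univ.filter fun p : Fin N × Fin N => p.2 < p.1).card := by
    refine Finset.card_bij (fun p _ => (p.2, p.1)) ?_ ?_ ?_
    · intro p hp
      unfold prs at hp
      rw [mem_filter] at hp ⊢
      exact ⟨mem_univ _, hp.2⟩
    · intro p _ q _ h
      rw [Prod.mk.injEq] at h
      exact Prod.ext h.2 h.1
    · intro p hp
      rw [mem_filter] at hp
      refine ⟨(p.2, p.1), ?_, rfl⟩
      unfold prs
      rw [mem_filter]
      exact ⟨mem_univ _, hp.2⟩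
  have h2 : (univ : Finset (Fin N)).offDiag =
      (prs N) ∪ (univ.filter fun p : Fin N × Fin N => p.2 < p.1) := by
    ext p
    unfold prs
    rw [mem_offDiag, mem_union, mem_filter, mem_filter]
    constructor
    · rintro ⟨_, _, h⟩
      rcases lt_or_gt_of_ne h with h | h
      · exact Or.inl ⟨mem_univ _, h⟩
      · exact Or.inr ⟨mem_univ _, h⟩
    · rintro (⟨_, h⟩ | ⟨_, h⟩)
      · exact ⟨mem_univ _, mem_univ _, h.ne⟩
      · exact ⟨mem_univ _, mem_univ _, h.ne'⟩
  have h3 : Disjoint (prs N) (univ.filter fun p : Fin N × Fin N => p.2 < p.1) := by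
    rw [Finset.disjoint_left]
    intro p hp hq
    unfold prs at hp
    rw [mem_filter] at hp hq
    exact lt_asymm hp.2 hq.2
  have h4 := congrArg Finset.card h2
  rw [offDiag_card, card_union_of_disjoint h3, ← h1, card_univ, Fintype.card_fin] at h4
  have h5 : N * (N - 1) = N * N - N := by
    rw [Nat.mul_sub, Nat.mul_one]
  omega

theorem meas_D (N : ℕ) : MeasurableSet (D N) := by
  have h1 : D N = cube (Fin N) ∩ ⋂ i : Fin N, ⋂ j : Fin N, {θ | |θ i - θ j| < π / 2} := by
    ext θ
    simp only [D, Set.mem_inter_iff, Set.mem_iInter, Set.mem_ofPred_eq]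
  rw [h1]
  refine meas_cube.inter (MeasurableSet.iInter fun i => MeasurableSet.iInter fun j => ?_)
  have h2 : Continuous fun θ : Fin N → ℝ => |θ i - θ j| :=
    continuous_abs.comp ((continuous_apply i).sub (continuous_apply j))
  exact (isOpen_lt h2 continuous_const).measurableSet

theorem out_le {K : ℕ} (hK : 1 ≤ K) :
    ∫ θ in cube (Fin (K + 2)) \ D (K + 2), |F θ| ≤
      π ^ (K + 2) * (((K : ℝ) + 2) * (K + 1) / 8 * kap K * M K) := by
  classical
  have hcl : ∀ p : Fin (K + 2) × Fin (K + 2),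
      MeasurableSet {θ : Fin (K + 2) → ℝ | π / 2 ≤ |θ p.1 - θ p.2|} := by
    intro p
    have h2 : Continuous fun θ : Fin (K + 2) → ℝ => |θ p.1 - θ p.2| :=
      continuous_abs.comp ((continuous_apply p.1).sub (continuous_apply p.2))
    exact (isClosed_le continuous_const h2).measurableSet
  have hint := OutB_int (OutB_cont (N := K + 2))
  have hintp : ∀ p : Fin (K + 2) × Fin (K + 2), IntegrableOn (fun θ => |F θ|)
      (cube (Fin (K + 2)) ∩ {θ | π / 2 ≤ |θ p.1 - θ p.2|}) := fun p =>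
    hint.mono_set Set.inter_subset_left
  have hind : ∀ s : Finset (Fin (K + 2) × Fin (K + 2)),
      ∫ θ in ⋃ p ∈ s, cube (Fin (K + 2)) ∩ {θ | π / 2 ≤ |θ p.1 - θ p.2|}, |F θ| ≤
        ∑ p ∈ s, ∫ θ in cube (Fin (K + 2)) ∩ {θ | π / 2 ≤ |θ p.1 - θ p.2|}, |F θ| := by
    intro s
    induction s using Finset.induction_on with
    | empty => simp
    | insert q s hq ih =>
      rw [Finset.set_biUnion_insert, sum_insert hq]
      have hms : MeasurableSet
          (⋃ p ∈ s, cube (Fin (K + 2)) ∩ {θ | π / 2 ≤ |θ p.1 - θ p.2|}) :=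
        Finset.measurableSet_biUnion s fun p _ => meas_cube.inter (hcl p)
      have h1 : ∫ θ in (cube (Fin (K + 2)) ∩ {θ | π / 2 ≤ |θ q.1 - θ q.2|}) ∪
          (⋃ p ∈ s, cube (Fin (K + 2)) ∩ {θ | π / 2 ≤ |θ p.1 - θ p.2|}), |F θ| =
          (∫ θ in (cube (Fin (K + 2)) ∩ {θ | π / 2 ≤ |θ q.1 - θ q.2|}) \
            (⋃ p ∈ s, cube (Fin (K + 2)) ∩ {θ | π / 2 ≤ |θ p.1 - θ p.2|}), |F θ|) +
          ∫ θ in (⋃ p ∈ s, cube (Fin (K + 2)) ∩ {θ | π / 2 ≤ |θ p.1 - θ p.2|}), |F θ| := by
        rw [← Set.sdiff_union_self]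
        refine setIntegral_union Set.disjoint_sdiff_left hms
          ((hintp q).mono_set Set.sdiff_subset) ?_
        refine hint.mono_set ?_
        exact Set.iUnion₂_subset fun p _ => Set.inter_subset_left
      rw [h1]
      refine add_le_add ?_ ih
      refine setIntegral_mono_set (hintp q) ?_ ?_
      · exact Filter.Eventually.of_forall fun θ => abs_nonneg _
      · exact (Set.sdiff_subset).eventuallyLE
  have hsub : cube (Fin (K + 2)) \ D (K + 2) ⊆
      ⋃ p ∈ prs (K + 2), cube (Fin (K + 2)) ∩ {θ | π / 2 ≤ |θ p.1 - θ p.2|} := by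
    intro θ hθ
    obtain ⟨h1, h2⟩ := hθ
    have h3 : ∃ i j : Fin (K + 2), π / 2 ≤ |θ i - θ j| := by
      by_contra h
      push Not at h
      exact h2 ⟨h1, h⟩
    obtain ⟨i, j, hij⟩ := h3
    have hne : i ≠ j := by
      rintro rfl
      rw [sub_self, abs_zero] at hij
      linarith [pi_pos]
    rw [Set.mem_iUnion₂]
    rcases lt_or_gt_of_ne hne with h | h
    · refine ⟨(i, j), ?_, h1, hij⟩
      unfold prs
      rw [mem_filter]
      exact ⟨mem_univ _, h⟩
    · refine ⟨(j, i), ?_, h1, ?_⟩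
      · unfold prs
        rw [mem_filter]
        exact ⟨mem_univ _, h⟩
      · rw [abs_sub_comm] at hij
        exact hij
  have h1 : ∫ θ in cube (Fin (K + 2)) \ D (K + 2), |F θ| ≤
      ∫ θ in ⋃ p ∈ prs (K + 2), cube (Fin (K + 2)) ∩ {θ | π / 2 ≤ |θ p.1 - θ p.2|}, |F θ| := by
    refine setIntegral_mono_set ?_ ?_ hsub.eventuallyLE
    · refine hint.mono_set ?_
      exact Set.iUnion₂_subset fun p _ => Set.inter_subset_left
    · exact Filter.Eventually.of_forall fun θ => abs_nonneg _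
  refine h1.trans ((hind (prs (K + 2))).trans ?_)
  have h2 : ∑ p ∈ prs (K + 2), ∫ θ in cube (Fin (K + 2)) ∩ {θ | π / 2 ≤ |θ p.1 - θ p.2|}, |F θ| ≤
      ∑ _p ∈ prs (K + 2), π ^ (K + 2) * (kap K / 4 * M K) := by
    refine sum_le_sum fun p hp => out_pair hK ?_
    unfold prs at hp
    rw [mem_filter] at hp
    exact hp.2.ne
  refine h2.trans (le_of_eq ?_)
  rw [sum_const, nsmul_eq_mul]
  have h3 : 2 * ((prs (K + 2)).card : ℝ) = ((K : ℝ) + 2) * (K + 1) := by
    have h4 := OutB_card (K + 2)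
    have h5 : K + 2 - 1 = K + 1 := by omega
    rw [h5] at h4
    exact_mod_cast h4
  have h6 : ((prs (K + 2)).card : ℝ) = ((K : ℝ) + 2) * (K + 1) / 2 := by linarith
  rw [h6]
  ring

end MP_a3e05c_co.RT
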