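import Pool.Agent.Lib.MP_a3e05c_co.RT.Gauss
import Pool.Agent.Lib.MP_a3e05c_co.RT.OutB

/-!
# EULER, block RT: upper bound for the mean value of `|W|`
-/

set_option autoImplicit false

open Real MeasureTheory Finset

namespace MP_a3e05c_co.RT

/-- the coefficient of the recursion -/
noncomputable def cf (K : ℕ) : ℝ := ((K : ℝ) + 2) * (K + 1) / 8 * kap K

theorem MB_D_subset (N : ℕ) : D N ⊆ cube (Fin N) := fun _ hθ => hθ.1

theorem MB_F_integrable (N : ℕ) : IntegrableOn (fun θ : Fin N → ℝ => |F θ|) (cube (Fin N)) :=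
  integrableOn_cube (C := 1) (continuous_F.abs.measurable)
    (fun θ => by rw [abs_abs]; exact abs_F_le θ)

theorem M_rec {K : ℕ} (hK : 1 ≤ K) :
    M (K + 3) ≤ exp (main (K + 3) + 1 / 2) + cf K * M K := by
  have hpi : (0 : ℝ) < π ^ (K + 2) := by positivity
  have e1 : M (K + 3) = (∫ θ in cube (Fin (K + 2)), |F θ|) / π ^ (K + 2) := M_eq (K + 2)
  have hi := MB_F_integrable (K + 2)
  have hsub := MB_D_subset (K + 2)
  have e2 : ∫ θ in cube (Fin (K + 2)), |F θ| =
      (∫ θ in D (K + 2), |F θ|) + ∫ θ in cube (Fin (K + 2)) \ D (K + 2), |F θ| := by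
    have h := integral_inter_add_sdiff (f := fun θ : Fin (K + 2) → ℝ => |F θ|) (μ := volume)
      (s := cube (Fin (K + 2))) (meas_D (K + 2)) hi
    rw [Set.inter_eq_right.2 hsub] at h
    exact h.symm
  have e3 : ∫ θ in D (K + 2), |F θ| = ∫ θ in D (K + 2), F θ :=
    setIntegral_congr_fun (meas_D (K + 2)) (fun θ hθ => abs_of_nonneg (F_nonneg hθ))
  have h1 := D_le (K + 2)
  have h2 := out_le hK
  rw [e1, e2, e3, div_le_iff₀ hpi]
  have e4 : main (K + 2 + 1) = main (K + 3) := rfl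
  rw [e4] at h1
  unfold cf
  have e5 : (exp (main (K + 3) + 1 / 2) + ((K : ℝ) + 2) * (K + 1) / 8 * kap K * M K) *
      π ^ (K + 2) = π ^ (K + 2) * exp (main (K + 3) + 1 / 2) +
      π ^ (K + 2) * (((K : ℝ) + 2) * (K + 1) / 8 * kap K * M K) := by ring
  rw [e5]
  exact add_le_add h1 h2

theorem MB_M_le_one (N : ℕ) : M N ≤ 1 := by
  unfold M
  have hpi : (0 : ℝ) < π ^ N := by positivity
  rw [div_le_one hpi]
  have hv : (volume : Measure (Fin N → ℝ)).real (cube (Fin N)) = π ^ N := by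
    rw [measureReal_def, vol_cube, Fintype.card_fin, ENNReal.toReal_ofReal hpi.le]
  have hlt : (volume : Measure (Fin N → ℝ)) (cube (Fin N)) < ⊤ := by
    rw [vol_cube]
    exact ENNReal.ofReal_lt_top
  have h := norm_setIntegral_le_of_norm_le_const (μ := (volume : Measure (Fin N → ℝ)))
    (s := cube (Fin N)) (f := fun θ : Fin N → ℝ => |W θ|) (C := 1) hlt
    (fun θ _ => by
      rw [Real.norm_eq_abs, abs_abs]
      exact abs_W_le θ)
  rw [hv, one_mul] at h
  exact (le_abs_self _).trans h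

theorem M_zero_one_two : M 1 ≤ 1 ∧ M 2 ≤ 1 ∧ M 3 ≤ 1 :=
  ⟨MB_M_le_one 1, MB_M_le_one 2, MB_M_le_one 3⟩

end MP_a3e05c_co.RT
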