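import Pool.Agent.Lib.MP_a3e05c_co.RT.GibbsB

/-!
# EULER, block RT: the moments of the trial law
-/

set_option autoImplicit false

open Real MeasureTheory Finset

namespace MP_a3e05c_co.RT

private theorem Mom_aa_pos : 0 < aa := by
  unfold aa
  rw [← arctan_zero]
  exact arctan_strictMono (by norm_num)

private theorem Mom_aa_lt : aa < π / 2 := arctan_lt_pi_div_two _

private theorem Mom_cos_pos {x : ℝ} (hx : x ∈ Set.uIcc (-aa) aa) : 0 < cos x := by
  have h1 := Mom_aa_pos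
  have h2 := Mom_aa_lt
  rw [Set.uIcc_of_le (by linarith)] at hx
  exact cos_pos_of_mem_Ioo ⟨by linarith [hx.1], by linarith [hx.2]⟩

private theorem Mom_congr (a b : ℕ) :
    ∫ θ in (-aa)..aa, tan θ ^ a * cos θ ^ (b + a) = ∫ θ in (-aa)..aa, sin θ ^ a * cos θ ^ b := by
  refine intervalIntegral.integral_congr fun x hx => ?_
  have hc := (Mom_cos_pos hx).ne'
  change tan x ^ a * cos x ^ (b + a) = sin x ^ a * cos x ^ b
  rw [tan_eq_sin_div_cos, div_pow, pow_add]
  field_simp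

private theorem Mom_gen (k m : ℕ) :
    ((m : ℝ) + 1) * ∫ θ in (-aa)..aa, tan θ ^ (2 * k + 2) * cos θ ^ (m + (2 * k + 2)) =
      (2 * k + 1) * (∫ θ in (-aa)..aa, tan θ ^ (2 * k) * cos θ ^ (m + 2 + 2 * k)) -
        2 * (sin aa ^ (2 * k + 1) * cos aa ^ (m + 1)) := by
  rw [Mom_congr, Mom_congr]
  have hder : ∀ x ∈ Set.uIcc (-aa) aa, HasDerivAt (fun θ => sin θ ^ (2 * k + 1) * cos θ ^ (m + 1))
      ((2 * k + 1) * (sin x ^ (2 * k) * cos x ^ (m + 2)) -
        ((m : ℝ) + 1) * (sin x ^ (2 * k + 2) * cos x ^ m)) x := by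
    intro x _
    have h1 := (hasDerivAt_sin x).fun_pow (2 * k + 1)
    have h2 := (hasDerivAt_cos x).fun_pow (m + 1)
    have h3 := h1.mul h2
    refine h3.congr_deriv ?_
    push_cast
    ring
  have hint : IntervalIntegrable (fun x => (2 * (k : ℝ) + 1) * (sin x ^ (2 * k) * cos x ^ (m + 2)) -
        ((m : ℝ) + 1) * (sin x ^ (2 * k + 2) * cos x ^ m)) volume (-aa) aa := by
    apply Continuous.intervalIntegrable
    fun_prop
  have hmain := intervalIntegral.integral_eq_sub_of_hasDerivAt hder hint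
  have i1 : IntervalIntegrable (fun x => (2 * (k : ℝ) + 1) * (sin x ^ (2 * k) * cos x ^ (m + 2)))
      volume (-aa) aa := by
    apply Continuous.intervalIntegrable
    fun_prop
  have i2 : IntervalIntegrable (fun x => ((m : ℝ) + 1) * (sin x ^ (2 * k + 2) * cos x ^ m))
      volume (-aa) aa := by
    apply Continuous.intervalIntegrable
    fun_prop
  rw [intervalIntegral.integral_sub i1 i2, intervalIntegral.integral_const_mul,
    intervalIntegral.integral_const_mul] at hmain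
  have hodd : sin (-aa) ^ (2 * k + 1) * cos (-aa) ^ (m + 1) =
      -(sin aa ^ (2 * k + 1) * cos aa ^ (m + 1)) := by
    rw [sin_neg, cos_neg, Odd.neg_pow ⟨k, rfl⟩]
    ring
  rw [hodd] at hmain
  linarith

theorem cos_aa : cos aa = 1 / √(761 / 400) := by
  unfold aa
  rw [cos_arctan]
  norm_num

theorem sin_aa : sin aa = 19 / 20 * cos aa := by
  have h := tan_arctan (19 / 20)
  rw [tan_eq_sin_div_cos] at h
  have hc : cos (arctan (19 / 20)) ≠ 0 := (cos_arctan_pos _).ne'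
  rw [div_eq_iff hc] at h
  exact h

theorem mo_two {n : ℕ} (hn : 1 ≤ n) :
    (n : ℝ) * mo n 2 = mo n 0 - 2 * sin aa * cos aa ^ n := by
  obtain ⟨m, rfl⟩ : ∃ m, n = m + 1 := ⟨n - 1, by omega⟩
  have h := Mom_gen 0 m
  unfold mo
  simp only [mul_zero, zero_add, Nat.cast_zero, add_zero, one_mul, pow_one] at h
  push_cast
  rw [show m + 1 + 1 = m + 2 from rfl, h]
  ring

private theorem Mom_sin_nonneg : 0 ≤ sin aa := by
  refine sin_nonneg_of_nonneg_of_le_pi Mom_aa_pos.le ?_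
  have := Mom_aa_lt
  have := pi_pos
  linarith

private theorem Mom_cos_aa_nonneg : 0 ≤ cos aa := by
  have h := Mom_aa_pos
  exact (Mom_cos_pos (x := aa) (by
    rw [Set.uIcc_of_le (by linarith)]
    exact ⟨by linarith, le_refl _⟩)).le

theorem mo_four {n : ℕ} (hn : 3 ≤ n) : ((n : ℝ) - 2) * mo n 4 ≤ 3 * mo n 2 := by
  obtain ⟨m, rfl⟩ : ∃ m, n = m + 3 := ⟨n - 3, by omega⟩
  have h := Mom_gen 1 m
  have h0 : 0 ≤ 2 * (sin aa ^ (2 * 1 + 1) * cos aa ^ (m + 1)) :=
    mul_nonneg zero_le_two (mul_nonneg (pow_nonneg Mom_sin_nonneg _)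
      (pow_nonneg Mom_cos_aa_nonneg _))
  unfold mo
  norm_num at h ⊢
  rw [show m + 3 + 1 = m + 4 from rfl]
  rw [show m + 2 + 2 = m + 4 from rfl] at h
  norm_num at h0
  have h5 : (m : ℝ) + 3 - 2 = m + 1 := by ring
  rw [h5, h]
  linarith

theorem mo_six {n : ℕ} (hn : 5 ≤ n) : ((n : ℝ) - 4) * mo n 6 ≤ 5 * mo n 4 := by
  obtain ⟨m, rfl⟩ : ∃ m, n = m + 5 := ⟨n - 5, by omega⟩
  have h := Mom_gen 2 m
  have h0 : 0 ≤ 2 * (sin aa ^ (2 * 2 + 1) * cos aa ^ (m + 1)) :=
    mul_nonneg zero_le_two (mul_nonneg (pow_nonneg Mom_sin_nonneg _)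
      (pow_nonneg Mom_cos_aa_nonneg _))
  unfold mo
  norm_num at h ⊢
  rw [show m + 5 + 1 = m + 6 from rfl]
  rw [show m + 2 + 4 = m + 6 from rfl] at h
  norm_num at h0
  have h5 : (m : ℝ) + 5 - 4 = m + 1 := by ring
  rw [h5, h]
  linarith

theorem mo_nonneg (n k : ℕ) : 0 ≤ mo n (2 * k) := by
  unfold mo
  have h := Mom_aa_pos
  refine intervalIntegral.integral_nonneg (by linarith) fun x hx => ?_
  have hc : 0 < cos x := Mom_cos_pos (by
    rw [Set.uIcc_of_le (by linarith)]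
    exact hx)
  have h1 : 0 ≤ tan x ^ (2 * k) := Even.pow_nonneg ⟨k, by ring⟩ _
  positivity

end MP_a3e05c_co.RT
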