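import Pool.Agent.Lib.MP_a3e05c_co.RT.Shift
import Pool.Agent.Lib.MP_a3e05c_co.RT.Trig

/-!
# EULER, block RT: two angles at distance at least `π/2`
-/

set_option autoImplicit false

open Real MeasureTheory Finset

namespace MP_a3e05c_co.RT

private theorem OutA_closed (s : ℝ) : MeasurableSet {x : ℝ | π / 2 ≤ |s - x|} :=
  (isClosed_le continuous_const (continuous_const.sub continuous_id).abs).measurableSet

private theorem OutA_inner {s : ℝ} (hs : s ∈ I1) :
    ∫ t in I1, Set.indicator {x : ℝ | π / 2 ≤ |s - x|} (fun _ => (1 : ℝ)) t = |s| := by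
  rw [setIntegral_indicator (OutA_closed s), setIntegral_const, smul_eq_mul, mul_one]
  have h1 : -(π / 2) < s := hs.1
  have h2 : s ≤ π / 2 := hs.2
  rcases lt_or_ge 0 s with h | h
  · have e : I1 ∩ {x : ℝ | π / 2 ≤ |s - x|} = Set.Ioc (-(π / 2)) (s - π / 2) := by
      ext t
      simp only [I1, Set.mem_inter_iff, Set.mem_Ioc, Set.mem_ofPred_eq]
      constructor
      · rintro ⟨⟨a, b⟩, c⟩
        rcases le_abs.1 c with d | d
        · exact ⟨a, by linarith⟩
        · exfalso
          linarith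
      · rintro ⟨a, b⟩
        exact ⟨⟨a, by linarith⟩, le_abs.2 (Or.inl (by linarith))⟩
    rw [e, Real.volume_real_Ioc_of_le (by linarith), abs_of_pos h]
    ring
  · have e : I1 ∩ {x : ℝ | π / 2 ≤ |s - x|} = Set.Icc (s + π / 2) (π / 2) := by
      ext t
      simp only [I1, Set.mem_inter_iff, Set.mem_Ioc, Set.mem_ofPred_eq, Set.mem_Icc]
      constructor
      · rintro ⟨⟨a, b⟩, c⟩
        rcases le_abs.1 c with d | d
        · exfalso
          linarith
        · exact ⟨by linarith, b⟩
      · rintro ⟨a, b⟩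
        exact ⟨⟨by linarith [pi_pos], b⟩, le_abs.2 (Or.inr (by linarith))⟩
    rw [e, Real.volume_real_Icc_of_le (by linarith), abs_of_nonpos h]
    ring

private theorem OutA_abs : ∫ s in I1, |s| = π ^ 2 / 4 := by
  have hle : -(π / 2) ≤ π / 2 := by linarith [pi_pos]
  unfold I1
  rw [← intervalIntegral.integral_of_le hle]
  have hc : Continuous fun s : ℝ => |s| := continuous_abs
  rw [← intervalIntegral.integral_add_adjacent_intervals (b := 0)
    (hc.intervalIntegrable _ _) (hc.intervalIntegrable _ _)]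
  have e1 : ∫ s in (-(π / 2))..0, |s| = ∫ s in (-(π / 2))..0, -s := by
    refine intervalIntegral.integral_congr fun s hs => ?_
    rw [Set.uIcc_of_le (by linarith [pi_pos])] at hs
    exact abs_of_nonpos hs.2
  have e2 : ∫ s in (0 : ℝ)..(π / 2), |s| = ∫ s in (0 : ℝ)..(π / 2), s := by
    refine intervalIntegral.integral_congr fun s hs => ?_
    rw [Set.uIcc_of_le (by linarith [pi_pos])] at hs
    exact abs_of_nonneg hs.1
  rw [e1, e2, intervalIntegral.integral_neg, integral_id, integral_id]
  ring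

theorem area_pair :
    ∫ s in I1, ∫ t in I1, Set.indicator {x : ℝ | π / 2 ≤ |s - x|} (fun _ => (1 : ℝ)) t = π ^ 2 / 4 := by
  rw [← OutA_abs]
  exact setIntegral_congr_fun measurableSet_Ioc fun s hs => OutA_inner hs

private theorem OutA_perm {K : ℕ} {i j : Fin (K + 2)} (hij : i ≠ j) :
    ∃ σ : Equiv.Perm (Fin (K + 2)), σ 0 = i ∧ σ 1 = j := by
  set τ : Equiv.Perm (Fin (K + 2)) := Equiv.swap 0 i with hτ
  have h0 : τ 0 = i := Equiv.swap_apply_left 0 i
  have h1 : τ 1 ≠ i := by
    rw [← h0]
    exact fun h => absurd (τ.injective h) (by simp)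
  refine ⟨Equiv.swap (τ 1) j * τ, ?_, ?_⟩
  · rw [Equiv.Perm.mul_apply, h0]
    exact Equiv.swap_apply_of_ne_of_ne h1.symm hij
  · rw [Equiv.Perm.mul_apply]
    exact Equiv.swap_apply_left _ _

private theorem OutA_F {K : ℕ} (s t : ℝ) (r : Fin K → ℝ) :
    F (ins 0 s (ins 0 t r)) = cos s * cos t * cos (s - t) *
      ((∏ k, (cos (r k) * cos (s - r k) * cos (t - r k))) * W r) := by
  have e1 : ∏ i, cos (ins 0 s (ins 0 t r) i) = cos s * (cos t * ∏ k, cos (r k)) := by
    rw [Fin.prod_univ_succAbove _ 0]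
    unfold ins
    simp only [Fin.insertNth_apply_same, Fin.insertNth_apply_succAbove]
    rw [Fin.prod_univ_succAbove _ 0]
    simp only [Fin.insertNth_apply_same, Fin.insertNth_apply_succAbove]
  have e2 : ∏ i, cos (ins 0 t r i - s) = cos (t - s) * ∏ k, cos (r k - s) := by
    rw [Fin.prod_univ_succAbove _ 0]
    unfold ins
    simp only [Fin.insertNth_apply_same, Fin.insertNth_apply_succAbove]
  have e3 : ∀ x y : ℝ, cos (x - y) = cos (y - x) := fun x y => by
    rw [← cos_neg, neg_sub]
  unfold F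
  rw [e1, W_ins, e2, W_ins]
  simp only [Finset.prod_mul_distrib]
  rw [Finset.prod_congr rfl (fun k _ => e3 (r k) s), Finset.prod_congr rfl (fun k _ => e3 (r k) t),
    e3 t s]
  ring

private theorem OutA_bound {K : ℕ} (hK : 1 ≤ K) {s t : ℝ} (hs : s ∈ I1) (ht : t ∈ I1)
    (h : π / 2 ≤ |s - t|) (r : Fin K → ℝ) :
    |F (ins 0 s (ins 0 t r))| ≤ kap K * |W r| := by
  have cs : 0 ≤ cos s := cos_nonneg_of_mem_Icc ⟨hs.1.le, hs.2⟩
  have ct : 0 ≤ cos t := cos_nonneg_of_mem_Icc ⟨ht.1.le, ht.2⟩
  have cst : cos (s - t) ≤ 0 := by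
    rw [← cos_abs]
    refine cos_nonpos_of_pi_div_two_le_of_le h ?_
    have h1 := hs.1
    have h2 := hs.2
    have h3 := ht.1
    have h4 := ht.2
    rw [abs_le]
    constructor <;> linarith [pi_pos]
  set T := -(cos s * cos t * cos (s - t)) with hT
  have hT0 : 0 ≤ T := by
    have := mul_nonneg (mul_nonneg cs ct) (neg_nonneg.2 cst)
    rw [hT]
    linarith [this]
  have hT1 : T ≤ 1 / 8 := tri_le cs ct cst
  rw [OutA_F, abs_mul, abs_mul (∏ k, (cos (r k) * cos (s - r k) * cos (t - r k)))]
  have e1 : |cos s * cos t * cos (s - t)| = T := by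
    rw [abs_of_nonpos (by linarith)]
  have e2 : |∏ k, (cos (r k) * cos (s - r k) * cos (t - r k))| ≤ (1 / 2 - T) ^ K := by
    rw [Finset.abs_prod]
    refine (Finset.prod_le_prod (fun k _ => abs_nonneg _)
      (fun k _ => tri_bound cs ct cst (r k))).trans ?_
    rw [Finset.prod_const, Finset.card_univ, Fintype.card_fin]
  rw [e1, ← mul_assoc]
  refine mul_le_mul_of_nonneg_right ?_ (abs_nonneg _)
  exact (mul_le_mul_of_nonneg_left e2 hT0).trans (kap_bound hT0 hT1 hK)

theorem out_pair {K : ℕ} (hK : 1 ≤ K) {i j : Fin (K + 2)} (hij : i ≠ j) :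
    ∫ θ in cube (Fin (K + 2)) ∩ {θ | π / 2 ≤ |θ i - θ j|}, |F θ| ≤
      π ^ (K + 2) * (kap K / 4 * M K) := by
  have hcl : ∀ a b : Fin (K + 2),
      MeasurableSet {θ : Fin (K + 2) → ℝ | π / 2 ≤ |θ a - θ b|} := fun a b =>
    (isClosed_le continuous_const
      ((continuous_apply a).sub (continuous_apply b)).abs).measurableSet
  rw [← setIntegral_indicator (hcl i j)]
  obtain ⟨σ, h0, h1⟩ := OutA_perm hij
  set h : (Fin (K + 2) → ℝ) → ℝ := Set.indicator {θ | π / 2 ≤ |θ 0 - θ 1|} (fun θ => |F θ|)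
    with hh
  have hperm := cube_perm σ h
  have e0 : ∀ θ : Fin (K + 2) → ℝ, h (fun k => θ (σ k)) =
      Set.indicator {θ | π / 2 ≤ |θ i - θ j|} (fun θ => |F θ|) θ := by
    intro θ
    rw [hh]
    unfold Set.indicator
    simp only [Set.mem_ofPred_eq, h0, h1, F_perm]
  simp only [e0] at hperm
  rw [hperm]
  have hm : Measurable h := (continuous_F.abs.measurable).indicator (hcl 0 1)
  have hb : ∀ θ, |h θ| ≤ 1 := by
    intro θ
    rw [hh]
    by_cases hθ : θ ∈ {θ : Fin (K + 2) → ℝ | π / 2 ≤ |θ 0 - θ 1|}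
    · rw [Set.indicator_of_mem hθ, abs_abs]
      exact abs_F_le θ
    · rw [Set.indicator_of_notMem hθ, abs_zero]
      exact zero_le_one
  have hn : ∀ θ, 0 ≤ h θ := fun θ => Set.indicator_nonneg (fun _ _ => abs_nonneg _) θ
  rw [cube_succ 0 (integrableOn_cube hm hb)]
  have e1 : ∀ s, ∫ θ in cube (Fin (K + 1)), h (ins 0 s θ) =
      ∫ t in I1, ∫ r in cube (Fin K), h (ins 0 s (ins 0 t r)) := fun s =>
    cube_succ 0 (integrableOn_cube (h := fun θ => h (ins 0 s θ))
      (hm.comp (continuous_ins 0 s).measurable) (fun θ => hb _))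
  simp only [e1]
  have hpK : (0 : ℝ) < π ^ K := pow_pos pi_pos K
  have hMK : ∫ r in cube (Fin K), |W r| = π ^ K * M K := by
    unfold M
    field_simp
  have hM0 : 0 ≤ π ^ K * M K := by
    rw [← hMK]
    exact integral_nonneg fun _ => abs_nonneg _
  have hkap : 0 ≤ kap K := by
    unfold kap
    positivity
  set c := kap K * (π ^ K * M K) with hc
  have hc0 : 0 ≤ c := mul_nonneg hkap hM0
  have e2 : ∀ s t (r : Fin K → ℝ), h (ins 0 s (ins 0 t r)) =
      Set.indicator {x : ℝ | π / 2 ≤ |s - x|} (fun _ => |F (ins 0 s (ins 0 t r))|) t := by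
    intro s t r
    have a0 : ins 0 s (ins 0 t r) 0 = s := by
      unfold ins
      rw [Fin.insertNth_apply_same]
    have a1 : ins 0 s (ins 0 t r) 1 = t := by
      have : (1 : Fin (K + 2)) = Fin.succAbove 0 0 := rfl
      unfold ins
      rw [this, Fin.insertNth_apply_succAbove, Fin.insertNth_apply_same]
    rw [hh]
    unfold Set.indicator
    simp only [Set.mem_ofPred_eq, a0, a1]
  have e3 : ∀ s ∈ I1, ∀ t ∈ I1, ∫ r in cube (Fin K), h (ins 0 s (ins 0 t r)) ≤
      c * Set.indicator {x : ℝ | π / 2 ≤ |s - x|} (fun _ => (1 : ℝ)) t := by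
    intro s hs t ht
    by_cases hst : t ∈ {x : ℝ | π / 2 ≤ |s - x|}
    · rw [Set.indicator_of_mem hst, mul_one, hc, ← hMK, ← integral_const_mul]
      refine integral_mono_of_nonneg (Filter.Eventually.of_forall fun r => hn _) ?_
        (Filter.Eventually.of_forall fun r => ?_)
      · exact (integrableOn_cube (h := fun r => |W r|) (C := 1) continuous_W.abs.measurable
          (fun r => by rw [abs_abs]; exact abs_W_le r)).const_mul _
      · show h (ins 0 s (ins 0 t r)) ≤ kap K * |W r|
        rw [e2, Set.indicator_of_mem hst]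
        exact OutA_bound hK hs ht hst r
    · rw [Set.indicator_of_notMem hst, mul_zero]
      refine le_of_eq ?_
      have : ∀ r : Fin K → ℝ, h (ins 0 s (ins 0 t r)) = 0 := fun r => by
        rw [e2, Set.indicator_of_notMem hst]
      simp only [this, integral_zero]
  have hI1 : MeasurableSet I1 := measurableSet_Ioc
  have e4 : ∀ s ∈ I1, ∫ t in I1, ∫ r in cube (Fin K), h (ins 0 s (ins 0 t r)) ≤ c * |s| := by
    intro s hs
    rw [← OutA_inner hs, ← integral_const_mul]
    refine integral_mono_of_nonneg (Filter.Eventually.of_forall fun t => ?_) ?_ ?_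
    · exact integral_nonneg fun r => hn _
    · refine Integrable.const_mul ?_ _
      refine Measure.integrableOn_of_bounded (M := 1) ?_ ?_ ?_
      · unfold I1
        rw [Real.volume_Ioc]
        exact ENNReal.ofReal_ne_top
      · exact (measurable_const.indicator (OutA_closed s)).aestronglyMeasurable
      · refine Filter.Eventually.of_forall fun t => ?_
        rw [Real.norm_eq_abs]
        by_cases hst : t ∈ {x : ℝ | π / 2 ≤ |s - x|}
        · rw [Set.indicator_of_mem hst, abs_one]
        · rw [Set.indicator_of_notMem hst, abs_zero]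
          exact zero_le_one
    · exact (ae_restrict_iff' hI1).2 (Filter.Eventually.of_forall fun t ht => e3 s hs t ht)
  calc ∫ s in I1, ∫ t in I1, ∫ r in cube (Fin K), h (ins 0 s (ins 0 t r))
      ≤ ∫ s in I1, c * |s| := by
        refine integral_mono_of_nonneg (Filter.Eventually.of_forall fun s => ?_) ?_ ?_
        · exact integral_nonneg fun t => integral_nonneg fun r => hn _
        · refine Integrable.const_mul ?_ _
          exact (continuous_abs.continuousOn.integrableOn_compact
            (isCompact_Icc (a := -(π / 2)) (b := π / 2))).mono_set Set.Ioc_subset_Icc_self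
        · exact (ae_restrict_iff' hI1).2 (Filter.Eventually.of_forall e4)
    _ = π ^ (K + 2) * (kap K / 4 * M K) := by
        rw [integral_const_mul, OutA_abs, hc, pow_add]
        ring

end MP_a3e05c_co.RT
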