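import Pool.Agent.Lib.MP_a3e05c_co.RT.Defs

/-!
# EULER, block RT: pointwise inequalities
-/

set_option autoImplicit false

open Real MeasureTheory Finset

namespace MP_a3e05c_co.RT

private noncomputable def pxF (w : ℝ) : ℝ :=
  log (1 + w) - (w - w ^ 2 / 2 + w ^ 3 / 3 - w ^ 4 / 4 + w ^ 5 / 5 - w ^ 6)

private theorem pxF_der {w : ℝ} (hw : -1 < w) :
    HasDerivAt pxF (w ^ 5 * (5 + 6 * w) / (1 + w)) w := by
  have h1 : HasDerivAt (fun x : ℝ => log (1 + x)) (1 / (1 + w)) w := by
    have h2 : HasDerivAt (fun x : ℝ => 1 + x) 1 w := (hasDerivAt_id w).const_add 1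
    exact h2.log (by linarith)
  have h3 : HasDerivAt (fun x : ℝ => x - x ^ 2 / 2 + x ^ 3 / 3 - x ^ 4 / 4 + x ^ 5 / 5 - x ^ 6)
      (1 - w + w ^ 2 - w ^ 3 + w ^ 4 - 6 * w ^ 5) w := by
    have e1 := hasDerivAt_id w
    have e2 := (hasDerivAt_pow 2 w).div_const 2
    have e3 := (hasDerivAt_pow 3 w).div_const 3
    have e4 := (hasDerivAt_pow 4 w).div_const 4
    have e5 := (hasDerivAt_pow 5 w).div_const 5
    have e6 := hasDerivAt_pow 6 w
    have := ((((e1.sub e2).add e3).sub e4).add e5).sub e6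
    refine this.congr_deriv ?_
    norm_num
  have h4 := h1.sub h3
  refine h4.congr_deriv ?_
  have : (1 + w) ≠ 0 := by linarith
  field_simp
  ring

private theorem pxF_zero : pxF 0 = 0 := by
  simp [pxF]

private theorem pxF_end : 0 ≤ pxF (-(361 / 400)) := by
  have h1 : exp (2.38 : ℝ) ≥ 400 / 39 := by
    have h2 : exp (2.38 : ℝ) = exp 1 * exp 1 * exp 0.38 := by
      rw [← exp_add, ← exp_add]; norm_num
    have h3 : (2.7182818283 : ℝ) < exp 1 := exp_one_gt_d9
    have h4 : 1 + (0.38 : ℝ) + (0.38 : ℝ) ^ 2 / 2 ≤ exp 0.38 :=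
      quadratic_le_exp_of_nonneg (by norm_num)
    rw [h2]
    have h5 : (2.7182818283 : ℝ) * 2.7182818283 ≤ exp 1 * exp 1 :=
      mul_le_mul h3.le h3.le (by norm_num) (by positivity)
    calc (400 / 39 : ℝ) ≤ (2.7182818283 * 2.7182818283) * (1 + 0.38 + 0.38 ^ 2 / 2) := by norm_num
      _ ≤ (exp 1 * exp 1) * exp 0.38 := mul_le_mul h5 h4 (by norm_num) (by positivity)
  have h6 : -(2.38 : ℝ) ≤ log (1 + -(361 / 400)) := by
    have e : (1 : ℝ) + -(361 / 400) = (400 / 39)⁻¹ := by norm_num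
    rw [e, log_inv]
    apply neg_le_neg
    rw [log_le_iff_le_exp (by norm_num)]
    exact h1
  unfold pxF
  have h7 : (-(361 / 400) - (-(361 / 400)) ^ 2 / 2 + (-(361 / 400)) ^ 3 / 3 -
    (-(361 / 400)) ^ 4 / 4 + (-(361 / 400)) ^ 5 / 5 - (-(361 / 400)) ^ 6 : ℝ) ≤ -2.38 := by
    norm_num
  linarith

private theorem pxF_mono {a b : ℝ} (ha : -1 < a)
    (hd : ∀ w, a ≤ w → w ≤ b → 0 ≤ w ^ 5 * (5 + 6 * w)) : MonotoneOn pxF (Set.Icc a b) := by
  apply monotoneOn_of_deriv_nonneg (convex_Icc a b)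
  · intro w hw
    exact (pxF_der (lt_of_lt_of_le ha hw.1)).continuousAt.continuousWithinAt
  · intro w hw
    rw [interior_Icc] at hw
    exact (pxF_der (lt_trans ha hw.1)).differentiableAt.differentiableWithinAt
  · intro w hw
    rw [interior_Icc] at hw
    rw [(pxF_der (lt_trans ha hw.1)).deriv]
    exact div_nonneg (hd w hw.1.le hw.2.le) (by linarith [hw.1])

private theorem pxF_anti {a b : ℝ} (ha : -1 < a)
    (hd : ∀ w, a ≤ w → w ≤ b → w ^ 5 * (5 + 6 * w) ≤ 0) : AntitoneOn pxF (Set.Icc a b) := by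
  apply antitoneOn_of_deriv_nonpos (convex_Icc a b)
  · intro w hw
    exact (pxF_der (lt_of_lt_of_le ha hw.1)).continuousAt.continuousWithinAt
  · intro w hw
    rw [interior_Icc] at hw
    exact (pxF_der (lt_trans ha hw.1)).differentiableAt.differentiableWithinAt
  · intro w hw
    rw [interior_Icc] at hw
    rw [(pxF_der (lt_trans ha hw.1)).deriv]
    exact div_nonpos_of_nonpos_of_nonneg (hd w hw.1.le hw.2.le) (by linarith [hw.1])

private theorem px_pow5_neg {w : ℝ} (h : w ≤ 0) : w ^ 5 ≤ 0 := by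
  have : w ^ 5 = w ^ 4 * w := by ring
  rw [this]
  exact mul_nonpos_of_nonneg_of_nonpos (by positivity) h

theorem log_poly {w : ℝ} (hw : |w| ≤ 361 / 400) :
    w - w ^ 2 / 2 + w ^ 3 / 3 - w ^ 4 / 4 + w ^ 5 / 5 - w ^ 6 ≤ log (1 + w) := by
  suffices h : 0 ≤ pxF w by
    unfold pxF at h
    linarith
  have hw1 : -(361 / 400) ≤ w := (abs_le.mp hw).1
  have hw2 : w ≤ 361 / 400 := (abs_le.mp hw).2
  rcases le_total 0 w with h0 | h0
  · have hm := pxF_mono (a := 0) (b := w) (by norm_num) (fun x hx _ => by positivity)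
    have := hm (Set.left_mem_Icc.mpr h0) (Set.right_mem_Icc.mpr h0) h0
    rw [pxF_zero] at this
    exact this
  · rcases le_total (-(5 / 6)) w with h1 | h1
    · have hm := pxF_anti (a := w) (b := 0) (by linarith) (fun x hx hx' => by
        apply mul_nonpos_of_nonpos_of_nonneg (px_pow5_neg hx')
        linarith)
      have := hm (Set.left_mem_Icc.mpr h0) (Set.right_mem_Icc.mpr h0) h0
      rw [pxF_zero] at this
      exact this
    · have hm := pxF_mono (a := -(361 / 400)) (b := w) (by norm_num) (fun x hx hx' => by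
        apply mul_nonneg_of_nonpos_of_nonpos (px_pow5_neg (by linarith))
        linarith)
      have := hm (Set.left_mem_Icc.mpr hw1) (Set.right_mem_Icc.mpr hw1) hw1
      exact le_trans pxF_end this

theorem aa_pos : 0 < aa := by
  unfold aa
  exact arctan_pos.mpr (by norm_num)

theorem aa_lt : aa < π / 4 := by
  unfold aa
  rw [← arctan_one]
  exact arctan_strictMono (by norm_num)

theorem abs_tan_le {θ : ℝ} (h : |θ| ≤ aa) : |tan θ| ≤ 19 / 20 := by
  have h1 := (abs_le.mp h).1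
  have h2 := (abs_le.mp h).2
  have hpi := pi_pos
  have ha := aa_lt
  have ha0 := aa_pos
  have hm : StrictMonoOn tan (Set.Ioo (-(π / 2)) (π / 2)) := strictMonoOn_tan
  have hta : tan aa = 19 / 20 := tan_arctan _
  have hth : θ ∈ Set.Ioo (-(π / 2)) (π / 2) := ⟨by linarith, by linarith⟩
  rw [abs_le]
  constructor
  · have := (hm.le_iff_le (a := -aa) (b := θ) ⟨by linarith, by linarith⟩ hth).mpr h1
    rw [tan_neg, hta] at this
    exact this
  · have := (hm.le_iff_le (a := θ) (b := aa) hth ⟨by linarith, by linarith⟩).mpr h2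
    rw [hta] at this
    exact this

private theorem px_arctan {y : ℝ} (hy : 0 ≤ y) : arctan y ≤ y - y ^ 3 / 3 + y ^ 5 / 5 := by
  have hder : ∀ x : ℝ, HasDerivAt (fun x => x - x ^ 3 / 3 + x ^ 5 / 5 - arctan x)
      (1 - x ^ 2 + x ^ 4 - 1 / (1 + x ^ 2)) x := by
    intro x
    have e1 := hasDerivAt_id x
    have e3 := (hasDerivAt_pow 3 x).div_const 3
    have e5 := (hasDerivAt_pow 5 x).div_const 5
    have := ((e1.sub e3).add e5).sub (hasDerivAt_arctan x)
    refine this.congr_deriv ?_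
    norm_num
  have hm : MonotoneOn (fun x => x - x ^ 3 / 3 + x ^ 5 / 5 - arctan x) (Set.Icc 0 y) := by
    apply monotoneOn_of_deriv_nonneg (convex_Icc 0 y)
    · exact fun x _ => (hder x).continuousAt.continuousWithinAt
    · exact fun x _ => (hder x).differentiableAt.differentiableWithinAt
    · intro x _
      rw [(hder x).deriv]
      have h1 : (0 : ℝ) < 1 + x ^ 2 := by positivity
      have h2 : 1 - x ^ 2 + x ^ 4 - 1 / (1 + x ^ 2) = x ^ 6 / (1 + x ^ 2) := by
        field_simp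
        ring
      rw [h2]
      positivity
  have := hm (Set.left_mem_Icc.mpr hy) (Set.right_mem_Icc.mpr hy) hy
  simp at this
  linarith

private theorem px_g {y : ℝ} (hy : 0 ≤ y) :
    0 ≤ log (1 + y ^ 2) - arctan y ^ 2 / 2 - y ^ 2 / 2 + y ^ 4 / 6 := by
  have hder : ∀ x : ℝ, HasDerivAt (fun x => log (1 + x ^ 2) - arctan x ^ 2 / 2 - x ^ 2 / 2 + x ^ 4 / 6)
      ((2 * x - arctan x) / (1 + x ^ 2) - x + 2 / 3 * x ^ 3) x := by
    intro x
    have hx : (0 : ℝ) < 1 + x ^ 2 := by positivity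
    have e0 : HasDerivAt (fun x : ℝ => log (1 + x ^ 2)) (2 * x / (1 + x ^ 2)) x := by
      have h2 : HasDerivAt (fun x : ℝ => 1 + x ^ 2) (2 * x) x := by
        have := (hasDerivAt_pow 2 x).const_add 1
        refine this.congr_deriv ?_
        norm_num
      exact h2.log hx.ne'
    have e1 := ((hasDerivAt_arctan x).pow 2).div_const 2
    have e2 := (hasDerivAt_pow 2 x).div_const 2
    have e4 := (hasDerivAt_pow 4 x).div_const 6
    have := ((e0.sub e1).sub e2).add e4
    refine this.congr_deriv ?_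
    field_simp
    norm_num
    ring
  have hm : MonotoneOn (fun x => log (1 + x ^ 2) - arctan x ^ 2 / 2 - x ^ 2 / 2 + x ^ 4 / 6)
      (Set.Icc 0 y) := by
    apply monotoneOn_of_deriv_nonneg (convex_Icc 0 y)
    · exact fun x _ => (hder x).continuousAt.continuousWithinAt
    · exact fun x _ => (hder x).differentiableAt.differentiableWithinAt
    · intro x hx
      rw [interior_Icc] at hx
      rw [(hder x).deriv]
      have hx0 : 0 ≤ x := hx.1.le
      have h1 : (0 : ℝ) < 1 + x ^ 2 := by positivity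
      have h2 := px_arctan hx0
      have h3 : (2 * x - arctan x) / (1 + x ^ 2) - x + 2 / 3 * x ^ 3 =
          (2 * x - arctan x - (x - 2 / 3 * x ^ 3) * (1 + x ^ 2)) / (1 + x ^ 2) := by
        field_simp
        ring
      rw [h3]
      apply div_nonneg _ h1.le
      have h4 : 0 ≤ x ^ 5 := by positivity
      nlinarith
  have := hm (Set.left_mem_Icc.mpr hy) (Set.right_mem_Icc.mpr hy) hy
  simp at this
  linarith

theorem phi_ge {θ : ℝ} (h : |θ| ≤ aa) :
    θ ^ 2 / 2 + tan θ ^ 2 / 2 - tan θ ^ 4 / 6 ≤ -2 * log (cos θ) := by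
  have h1 := (abs_le.mp h).1
  have h2 := (abs_le.mp h).2
  have hpi := pi_pos
  have ha := aa_lt
  have hlo : -(π / 2) < θ := by linarith
  have hhi : θ < π / 2 := by linarith
  have hc : 0 < cos θ := cos_pos_of_mem_Ioo ⟨hlo, hhi⟩
  have h3 : 1 + tan θ ^ 2 = (cos θ ^ 2)⁻¹ := by
    rw [← Real.inv_one_add_tan_sq hc.ne', inv_inv]
  have h4 : log (1 + tan θ ^ 2) = -2 * log (cos θ) := by
    rw [h3, log_inv, log_pow]
    push_cast
    ring
  have h5 : arctan (tan θ) = θ := arctan_tan hlo hhi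
  rcases le_total 0 (tan θ) with h0 | h0
  · have := px_g h0
    rw [h4, h5] at this
    linarith
  · have := px_g (y := -tan θ) (by linarith)
    rw [arctan_neg, h5] at this
    have e1 : (-tan θ) ^ 2 = tan θ ^ 2 := by ring
    have e2 : (-tan θ) ^ 4 = tan θ ^ 4 := by ring
    have e3 : (-θ) ^ 2 = θ ^ 2 := by ring
    rw [e1, e2, e3, h4] at this
    linarith

end MP_a3e05c_co.RT
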