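import Pool.Agent.Lib.MP_a3e05c_co.RT.Cube

/-!
# EULER, block RT: the integral formula for the number of orientations balanced on `A`
-/

set_option autoImplicit false

open Real MeasureTheory Finset

namespace MP_a3e05c_co.RT

private theorem Torus_exp {c : ℤ} (hc : Even c) :
    (∫ t in I1, Complex.exp (Complex.I * (c : ℂ) * (t : ℂ))) = if c = 0 then (π : ℂ) else 0 := by
  have hab : -(π / 2) ≤ π / 2 := by
    have := Real.pi_pos
    linarith
  unfold I1
  rw [← intervalIntegral.integral_of_le hab]
  split_ifs with h0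
  · subst h0
    have : ∀ t : ℝ, Complex.exp (Complex.I * ((0 : ℤ) : ℂ) * (t : ℂ)) = 1 := by
      intro t
      simp
    simp only [this]
    rw [intervalIntegral.integral_const]
    simp only [Complex.real_smul, mul_one]
    congr 1
    ring
  · have hc' : Complex.I * (c : ℂ) ≠ 0 :=
      mul_ne_zero Complex.I_ne_zero (Int.cast_ne_zero.2 h0)
    rw [integral_exp_mul_complex hc']
    obtain ⟨m, hm⟩ := hc
    have h1 : Complex.exp (Complex.I * (c : ℂ) * ((π / 2 : ℝ) : ℂ)) =
        Complex.exp (Complex.I * (c : ℂ) * ((-(π / 2) : ℝ) : ℂ)) := by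
      have h2 : Complex.I * (c : ℂ) * ((π / 2 : ℝ) : ℂ) =
          Complex.I * (c : ℂ) * ((-(π / 2) : ℝ) : ℂ) + (m : ℂ) * (2 * π * Complex.I) := by
        rw [hm]
        push_cast
        ring
      rw [h2, Complex.exp_add, Complex.exp_int_mul_two_pi_mul_I, mul_one]
    rw [h1, sub_self, zero_div]

private theorem Torus_one : (∫ _ in I1, (1 : ℂ)) = (π : ℂ) := by
  have h := Torus_exp (c := 0) (by simp)
  simpa using h

section

variable {V E : Type} [Fintype V] [DecidableEq V] [Fintype E] [DecidableEq E]

omit [Fintype E] [DecidableEq E] in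
private theorem Torus_sg {hd : E → Bool → V} (hl : KL.NoLoop hd) (ω : E → Bool) (e : E)
    (m : V → ℂ) : ∑ v, m v * (KL.sg hd ω v e : ℂ) = m (hd e (ω e)) - m (hd e (!ω e)) := by
  have hne : hd e (ω e) ≠ hd e (!ω e) := by
    cases h : ω e
    · simpa using (hl e).symm
    · simpa using hl e
  have h1 : ∀ v, m v * (KL.sg hd ω v e : ℂ) =
      (if hd e (ω e) = v then m v else 0) - (if hd e (!ω e) = v then m v else 0) := by
    intro v
    unfold KL.sg
    by_cases h2 : hd e (ω e) = v
    · have h3 : ¬ hd e (!ω e) = v := fun h => hne (h2.trans h.symm)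
      simp [h2, h3]
    · by_cases h3 : hd e (!ω e) = v
      · simp [h2, h3]
      · simp [h2, h3]
  rw [Finset.sum_congr rfl fun v _ => h1 v, Finset.sum_sub_distrib, Finset.sum_ite_eq,
    Finset.sum_ite_eq]
  simp

private theorem Torus_prod {hd : E → Bool → V} (hl : KL.NoLoop hd) (m : V → ℝ) :
    ((∏ e, cos (m (hd e true) - m (hd e false)) : ℝ) : ℂ) =
      (1 / 2) ^ Fintype.card E * ∑ ω : E → Bool,
        ∏ v, Complex.exp (Complex.I * ((∑ e, KL.sg hd ω v e : ℤ) : ℂ) * (m v : ℂ)) := by
  have h1 : ∀ e, ((cos (m (hd e true) - m (hd e false)) : ℝ) : ℂ) = (1 / 2) *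
      ∑ b : Bool, Complex.exp (Complex.I * ((m (hd e b) : ℂ) - (m (hd e (!b)) : ℂ))) := by
    intro e
    rw [Fintype.sum_bool, Complex.ofReal_cos, Complex.cos]
    push_cast
    have e1 : ((m (hd e true) : ℂ) - (m (hd e false) : ℂ)) * Complex.I =
        Complex.I * ((m (hd e true) : ℂ) - (m (hd e (!true)) : ℂ)) := by
      simp only [Bool.not_true]
      ring
    have e2 : -((m (hd e true) : ℂ) - (m (hd e false) : ℂ)) * Complex.I =
        Complex.I * ((m (hd e false) : ℂ) - (m (hd e (!false)) : ℂ)) := by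
      simp only [Bool.not_false]
      ring
    rw [e1, e2]
    ring
  rw [Complex.ofReal_prod, Finset.prod_congr rfl fun e _ => h1 e, Finset.prod_mul_distrib,
    Finset.prod_const, Finset.card_univ, Finset.prod_univ_sum, Fintype.piFinset_univ]
  congr 1
  refine Finset.sum_congr rfl fun ω _ => ?_
  rw [← Complex.exp_sum, ← Complex.exp_sum]
  congr 1
  have h2 : ∀ e, Complex.I * ((m (hd e (ω e)) : ℂ) - (m (hd e (!ω e)) : ℂ)) =
      Complex.I * ∑ v, (m v : ℂ) * (KL.sg hd ω v e : ℂ) := by
    intro e
    rw [Torus_sg hl ω e fun v => (m v : ℂ)]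
  rw [Finset.sum_congr rfl fun e _ => h2 e, ← Finset.mul_sum, Finset.sum_comm, Finset.mul_sum]
  refine Finset.sum_congr rfl fun v _ => ?_
  rw [← Finset.mul_sum]
  push_cast
  ring

omit [Fintype V] [DecidableEq E] in
private theorem Torus_even {hd : E → Bool → V} (ω : E → Bool) {v : V}
    (hv : Even (KL.deg hd v)) : Even (∑ e, KL.sg hd ω v e) := by
  have h1 : ∀ e, Even (KL.sg hd ω v e - (if ∃ b, hd e b = v then (1 : ℤ) else 0)) := by
    intro e
    unfold KL.sg
    by_cases h2 : hd e (ω e) = v
    · have h3 : ∃ b, hd e b = v := ⟨_, h2⟩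
      simp [h2, h3]
    · by_cases h3 : hd e (!ω e) = v
      · have h4 : ∃ b, hd e b = v := ⟨_, h3⟩
        simp only [h2, h3, h4, if_true, if_false]
        exact ⟨-1, by norm_num⟩
      · have h4 : ¬ ∃ b, hd e b = v := by
          rintro ⟨b, hb⟩
          cases h5 : ω e <;> cases b <;> simp_all
        simp [h2, h3, h4]
  have h2 : Even (∑ e, (KL.sg hd ω v e - (if ∃ b, hd e b = v then (1 : ℤ) else 0))) :=
    Finset.even_sum _ fun e _ => h1 e
  rw [Finset.sum_sub_distrib] at h2
  have h3 : ∑ e, (if ∃ b, hd e b = v then (1 : ℤ) else 0) = (KL.deg hd v : ℤ) := by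
    unfold KL.deg
    rw [Finset.card_filter]
    push_cast
    rfl
  rw [h3] at h2
  have h4 : Even (KL.deg hd v : ℤ) := by exact_mod_cast hv
  have h5 := h2.add h4
  simpa using h5

end

/-- **Integral formula.**  The number of orientations balanced at every vertex of `A` is
`2^|E|` times the mean value of `∏ cos (θ_a - θ_b)` over the edges `ab`, the angles of the vertices
off `A` being `0`. -/
theorem torus {V E : Type} [Fintype V] [DecidableEq V] [Fintype E] [DecidableEq E]
    {hd : E → Bool → V} (hl : KL.NoLoop hd) {A : Finset V} (hev : ∀ v ∈ A, Even (KL.deg hd v)) :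
    ((KL.Om hd A).card : ℝ) = 2 ^ Fintype.card E *
      ((∫ θ in cube V, ∏ e, cos (msk A θ (hd e true) - msk A θ (hd e false))) /
        π ^ Fintype.card V) := by
  classical
  have hπ : (π : ℂ) ≠ 0 := by exact_mod_cast Real.pi_ne_zero
  have hμ : (volume : Measure (V → ℝ)).restrict (cube V) =
      Measure.pi (fun _ : V => (volume : Measure ℝ).restrict I1) := by
    unfold cube
    rw [volume_pi, Measure.restrict_pi_pi]
  have hfin : IsFiniteMeasure ((volume : Measure ℝ).restrict I1) := by
    refine ⟨?_⟩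
    rw [Measure.restrict_apply_univ]
    unfold I1
    rw [Real.volume_Ioc]
    exact ENNReal.ofReal_lt_top
  -- the factors
  set G : (E → Bool) → V → ℝ → ℂ := fun ω v t => if v ∈ A then
    Complex.exp (Complex.I * ((∑ e, KL.sg hd ω v e : ℤ) : ℂ) * (t : ℂ)) else 1 with hG
  have hGint : ∀ ω v, Integrable (G ω v) ((volume : Measure ℝ).restrict I1) := by
    intro ω v
    have hc : Continuous (G ω v) := by
      simp only [hG]
      split_ifs
      · fun_prop
      · fun_prop
    refine Integrable.of_bound hc.aestronglyMeasurable 1 ?_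
    refine Filter.Eventually.of_forall fun t => ?_
    simp only [hG]
    split_ifs
    · rw [Complex.norm_exp]
      simp
    · simp
  have hGval : ∀ ω v, (∫ t, G ω v t ∂((volume : Measure ℝ).restrict I1)) =
      if v ∈ A → KL.Bal hd ω v then (π : ℂ) else 0 := by
    intro ω v
    by_cases hv : v ∈ A
    · have h1 := Torus_exp (Torus_even ω (hev v hv))
      simp only [hG, hv, if_true, true_imp_iff]
      exact h1
    · simp only [hG, hv, if_false, false_imp_iff, if_true]
      exact Torus_one
  have hmain : (∫ θ in cube V,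
      ((∏ e, cos (msk A θ (hd e true) - msk A θ (hd e false)) : ℝ) : ℂ)) =
      (1 / 2) ^ Fintype.card E * ((KL.Om hd A).card * (π : ℂ) ^ Fintype.card V) := by
    have h1 : ∀ θ : V → ℝ,
        ((∏ e, cos (msk A θ (hd e true) - msk A θ (hd e false)) : ℝ) : ℂ) =
        (1 / 2) ^ Fintype.card E * ∑ ω : E → Bool, ∏ v, G ω v (θ v) := by
      intro θ
      rw [Torus_prod hl (msk A θ)]
      congr 1
      refine Finset.sum_congr rfl fun ω _ => Finset.prod_congr rfl fun v _ => ?_
      simp only [hG, msk]
      split_ifs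
      · rfl
      · simp
    simp only [h1]
    rw [integral_const_mul, hμ, integral_finsetSum]
    · congr 1
      have h2 : ∀ ω : E → Bool, (∫ θ, ∏ v, G ω v (θ v)
          ∂(Measure.pi (fun _ : V => (volume : Measure ℝ).restrict I1))) =
          if ω ∈ KL.Om hd A then (π : ℂ) ^ Fintype.card V else 0 := by
        intro ω
        rw [integral_fintype_prod_eq_prod (𝕜 := ℂ) (E := fun _ : V => ℝ) (fun v t => G ω v t)]
        rw [Finset.prod_congr rfl fun v _ => hGval ω v]
        split_ifs with hω
        · rw [KL.mem_Om] at hω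
          rw [Finset.prod_congr rfl fun v _ => if_pos (hω v), Finset.prod_const,
            Finset.card_univ]
        · rw [KL.mem_Om] at hω
          obtain ⟨v, hv⟩ := not_forall.1 hω
          exact Finset.prod_eq_zero (Finset.mem_univ v) (if_neg hv)
      rw [Finset.sum_congr rfl fun ω _ => h2 ω, Finset.sum_ite_mem, Finset.univ_inter,
        Finset.sum_const, nsmul_eq_mul]
    · intro ω _
      exact Integrable.fintype_prod (𝕜 := ℂ) (fun v => hGint ω v)
  rw [integral_complex_ofReal] at hmain
  have hre : (∫ θ in cube V, ∏ e, cos (msk A θ (hd e true) - msk A θ (hd e false))) =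
      (1 / 2) ^ Fintype.card E * ((KL.Om hd A).card * π ^ Fintype.card V) := by
    apply Complex.ofReal_injective
    rw [hmain]
    push_cast
    rfl
  rw [hre]
  have hp : (π : ℝ) ^ Fintype.card V ≠ 0 := pow_ne_zero _ Real.pi_ne_zero
  rw [mul_div_assoc, mul_div_cancel_right₀ _ hp, ← mul_assoc, ← mul_pow]
  norm_num

/-- Balance at all vertices but one implies balance. -/
theorem Om_erase {V E : Type} [Fintype V] [DecidableEq V] [Fintype E] [DecidableEq E]
    {hd : E → Bool → V} (hl : KL.NoLoop hd) (w : V) :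
    KL.Om hd (univ.erase w) = KL.Om hd univ := by
  ext ω
  rw [KL.mem_Om, KL.mem_Om]
  constructor
  · intro h v _
    by_cases hv : v = w
    · subst hv
      have h1 : ∑ v, ∑ e, KL.sg hd ω v e = 0 := by
        rw [Finset.sum_comm]
        refine Finset.sum_eq_zero fun e _ => ?_
        have h2 := Torus_sg hl ω e fun _ => 1
        simp only [one_mul, sub_self] at h2
        exact_mod_cast h2
      rw [← Finset.add_sum_erase _ _ (Finset.mem_univ v)] at h1
      have h2 : ∑ x ∈ univ.erase v, ∑ e, KL.sg hd ω x e = 0 :=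
        Finset.sum_eq_zero fun x hx => h x hx
      rw [h2, add_zero] at h1
      exact h1
    · exact h v (Finset.mem_erase.2 ⟨hv, Finset.mem_univ v⟩)
  · intro h v _
    exact h v (Finset.mem_univ v)

end MP_a3e05c_co.RT
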